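import Mathlib

/-!
# Virtual curves: definitions

`An R n` is the integral polynomial `∏_{r=1}^R (1 - X^r)^(n r)` and `AC R n T` its value at a complex
number, `nn β g r` is the integral part of `β r * g`, `Dk q k` is the Dickson polynomial
(`Dk q k` at `α + q / α` is `α^k + (q / α)^k`), `pt q θ` is the point `q^(-1/2) e^(-iθ)`,
`PP q g h` is `X^g h(X + q / X)` and `LL q g h` is `X^g h(1 / X + q X)`.
-/

set_option autoImplicit false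

namespace Pool.Agent.VIR

open Polynomial

/-- `∏_{r=1}^R (1 - X^r)^(n r)` -/
noncomputable def An (R : ℕ) (n : ℕ → ℕ) : ℤ[X] := ∏ r ∈ Finset.Icc 1 R, (1 - X ^ r) ^ n r

/-- the value of `An R n` at a complex number -/
noncomputable def AC (R : ℕ) (n : ℕ → ℕ) (T : ℂ) : ℂ := ∏ r ∈ Finset.Icc 1 R, (1 - T ^ r) ^ n r

/-- the integral part of `β r * g` -/
noncomputable def nn (β : ℕ → ℝ) (g r : ℕ) : ℕ := ⌊β r * g⌋₊

/-- Dickson polynomials -/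
noncomputable def Dk (q : ℕ) : ℕ → ℤ[X]
  | 0 => C 2
  | 1 => X
  | k + 2 => X * Dk q (k + 1) - C (q : ℤ) * Dk q k

/-- the point `q^(-1/2) e^(-iθ)` -/
noncomputable def pt (q : ℕ) (θ : ℝ) : ℂ := ((√(q : ℝ))⁻¹ : ℝ) * Complex.exp (-(θ * Complex.I))

/-- `X^g h(X + q / X)` -/
noncomputable def PP (q g : ℕ) (h : ℤ[X]) : ℤ[X] :=
  ∑ k ∈ Finset.range (g + 1), C (h.coeff k) * X ^ (g - k) * (X ^ 2 + C (q : ℤ)) ^ k

/-- `X^g h(1 / X + q X)` -/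
noncomputable def LL (q g : ℕ) (h : ℤ[X]) : ℤ[X] :=
  ∑ k ∈ Finset.range (g + 1), C (h.coeff k) * X ^ (g - k) * (1 + C (q : ℤ) * X ^ 2) ^ k

/-- `∑_{a ≤ K} ℓ a * Dk q (g - a) + low` -/
noncomputable def HH (q g K : ℕ) (ℓ : ℕ → ℤ) (low : ℤ[X]) : ℤ[X] :=
  ∑ a ∈ Finset.range (K + 1), C (ℓ a) * Dk q (g - a) + low

/-- `∑_{a ≤ K} ℓ a * X^a` -/
noncomputable def tr (K : ℕ) (ℓ : ℕ → ℤ) : ℤ[X] := ∑ a ∈ Finset.range (K + 1), C (ℓ a) * X ^ a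

/-- the truncated exponential series, with the terms of index at most `I` -/
noncomputable def ET (I : ℕ) (u : ℂ) : ℂ := ∑ i ∈ Finset.range (I + 1), u ^ i / (i.factorial : ℂ)

/-- the sum of the `r * n r` over the `r` from `1` to `R` that divide `j` -/
def sg (R : ℕ) (n : ℕ → ℕ) (j : ℕ) : ℕ := ∑ r ∈ (Finset.Icc 1 R).filter (fun r => r ∣ j), r * n r

/-- `m 0 + ∑_{i=1}^M 2 (m i) cos (2 π i j / (2 M + 1))` -/
noncomputable def mu (M : ℕ) (m : ℕ → ℕ) (j : ℕ) : ℝ :=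
  m 0 + ∑ i ∈ Finset.Icc 1 M, 2 * (m i : ℝ) * Real.cos (2 * Real.pi * i * j / (2 * M + 1))

/-- `(1 - X / ρ)^(m 0) ∏_{i=1}^M (1 - 2 cos (2 π i / (2 M + 1)) X / ρ + X^2 / ρ^2)^(m i)` -/
noncomputable def Rm (ρ : ℝ) (M : ℕ) (m : ℕ → ℕ) : ℝ[X] :=
  (1 - C ρ⁻¹ * X) ^ m 0 * ∏ i ∈ Finset.Icc 1 M,
    (1 - C (2 * Real.cos (2 * Real.pi * i / (2 * M + 1)) * ρ⁻¹) * X + C (ρ⁻¹ ^ 2) * X ^ 2) ^ m i

/-- Newton's relation between the coefficients `F` of a power series and the power sums `p` -/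
def NW (F p : ℕ → ℝ) : Prop :=
  ∀ m : ℕ, 1 ≤ m → (m : ℝ) * F m = - ∑ i ∈ Finset.Icc 1 m, p i * F (m - i)

/-- the left side of the basic inequality -/
noncomputable def Th (q R : ℕ) (β : ℕ → ℝ) : ℝ :=
  ∑ r ∈ Finset.Icc 1 R, r * β r / (√(q : ℝ) ^ r - 1)

/-- the counting relation `∑_{d | m} d * B d = q^m + 1 - ∑_i 2 q^(m/2) cos (m θ_i)` for all `m ≥ 1` -/
def Count (q g : ℕ) (θ : Fin g → ℝ) (B : ℕ → ℕ) : Prop :=
  ∀ m : ℕ, 1 ≤ m → ((∑ d ∈ m.divisors, d * B d : ℕ) : ℝ) =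
    (q : ℝ) ^ m + 1 - ∑ i, 2 * √(q : ℝ) ^ m * Real.cos (m * θ i)

/-! ### Basic facts -/

theorem aeval_An (R : ℕ) (n : ℕ → ℕ) (T : ℂ) : aeval T (An R n) = AC R n T := by
  unfold An AC
  rw [map_prod]
  simp

theorem norm_pt (q : ℕ) (θ : ℝ) : ‖pt q θ‖ = (√(q : ℝ))⁻¹ := by
  unfold pt
  rw [norm_mul, Complex.norm_real, Complex.norm_exp]
  simp

theorem one_lt_sqrt {q : ℕ} (hq : 2 ≤ q) : 1 < √(q : ℝ) := by
  rw [Real.lt_sqrt (by norm_num)]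
  norm_num
  omega

theorem AC_ne_zero (R : ℕ) (n : ℕ → ℕ) {T : ℂ} (hT : ‖T‖ < 1) : AC R n T ≠ 0 := by
  unfold AC
  rw [Finset.prod_ne_zero_iff]
  intro r hr
  apply pow_ne_zero
  intro h
  have h1 : T ^ r = 1 := (sub_eq_zero.1 h).symm
  have h2 : ‖T‖ ^ r = 1 := by rw [← norm_pow, h1, norm_one]
  have h3 : ‖T‖ ^ r < 1 := pow_lt_one₀ (norm_nonneg _) hT (by
    have := (Finset.mem_Icc.1 hr).1
    omega)
  linarith

end Pool.Agent.VIR
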