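import Pool.Agent.VIR.St

/-!
# Virtual curves: the product approximant
-/

set_option autoImplicit false

namespace Pool.Agent.VIR

open Polynomial Finset

namespace APA

/-- the geometric sum over the multiples of `r` -/
theorem geo (r : ℕ) (ρ : ℝ) (d : ℕ) :
    (∑ j ∈ (Icc 1 d).filter (fun j => r ∣ j), ρ ^ j) * (1 - ρ ^ r) =
      ρ ^ r - (ρ ^ r) ^ (d / r + 1) := by
  induction d with
  | zero =>
    have h : (0 : ℕ) / r = 0 := Nat.zero_div r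
    simp [h]
  | succ d ih =>
    have h1 : Icc 1 (d + 1) = insert (d + 1) (Icc 1 d) := by
      ext x
      simp only [mem_Icc, mem_insert]
      omega
    have h2 : (d + 1) ∉ Icc 1 d := by
      simp
    rw [h1, filter_insert]
    by_cases hd : r ∣ d + 1
    · have h3 : (d + 1) / r = d / r + 1 := by rw [Nat.succ_div, if_pos hd]
      have h4 : ρ ^ (d + 1) = (ρ ^ r) ^ (d / r + 1) := by
        rw [← pow_mul, ← h3, Nat.mul_div_cancel' hd]
      have h5 : (d + 1) ∉ (Icc 1 d).filter (fun j => r ∣ j) := fun h => h2 (mem_filter.1 h).1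
      rw [if_pos hd, sum_insert h5, add_mul, ih, h3, h4]
      ring
    · have h3 : (d + 1) / r = d / r := by rw [Nat.succ_div, if_neg hd, add_zero]
      rw [if_neg hd, ih, h3]

/-- the bound for the sums of the `a j` -/
theorem sum_bound (R : ℕ) (n : ℕ → ℕ) (d : ℕ) (ρ : ℝ) (h0 : 0 < ρ) (h1 : ρ < 1) :
    ∑ j ∈ Icc 1 d, (sg R n j : ℝ) * ρ ^ j ≤
      ∑ r ∈ Icc 1 R, (r : ℝ) * n r * ρ ^ r / (1 - ρ ^ r) := by
  have e1 : ∑ j ∈ Icc 1 d, (sg R n j : ℝ) * ρ ^ j =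
      ∑ r ∈ Icc 1 R, (r : ℝ) * n r * ∑ j ∈ (Icc 1 d).filter (fun j => r ∣ j), ρ ^ j := by
    have e2 : ∀ j ∈ Icc 1 d, (sg R n j : ℝ) * ρ ^ j =
        ∑ r ∈ Icc 1 R, if r ∣ j then (r : ℝ) * n r * ρ ^ j else 0 := by
      intro j _
      unfold sg
      push_cast
      rw [sum_mul, sum_filter]
    rw [sum_congr rfl e2, sum_comm]
    refine sum_congr rfl fun r _ => ?_
    rw [mul_sum, sum_filter]
  rw [e1]
  refine sum_le_sum fun r hr => ?_
  have hr1 : 1 ≤ r := (mem_Icc.1 hr).1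
  have hx : ρ ^ r < 1 := pow_lt_one₀ h0.le h1 (by omega)
  have hx0 : 0 < ρ ^ r := by positivity
  rw [mul_div_assoc]
  refine mul_le_mul_of_nonneg_left ?_ (by positivity)
  rw [le_div_iff₀ (by linarith), geo r]
  have : 0 ≤ (ρ ^ r) ^ (d / r + 1) := by positivity
  linarith

/-- the size of `mu` -/
theorem mu_le (M : ℕ) (m : ℕ → ℕ) (j : ℕ) :
    |mu M m j| ≤ (m 0 : ℝ) + 2 * ∑ i ∈ Icc 1 M, (m i : ℝ) := by
  unfold mu
  refine (abs_add_le _ _).trans ?_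
  have h1 : |(m 0 : ℝ)| = m 0 := abs_of_nonneg (Nat.cast_nonneg _)
  rw [h1, mul_sum]
  refine add_le_add le_rfl ((abs_sum_le_sum_abs _ _).trans (sum_le_sum fun i _ => ?_))
  rw [abs_mul]
  have h2 : |2 * (m i : ℝ)| = 2 * m i := abs_of_nonneg (by positivity)
  rw [h2]
  exact mul_le_of_le_one_right (by positivity) (Real.abs_cos_le_one _)

/-- rounding in `mu` -/
theorem mu_sub (M : ℕ) (w : ℕ → ℝ) (hw : ∀ i, 0 ≤ w i) (j : ℕ) :
    |mu M (fun i => ⌊w i⌋₊) j -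
      (w 0 + ∑ i ∈ Icc 1 M, 2 * w i * Real.cos (2 * Real.pi * i * j / (2 * M + 1)))| ≤
      2 * M + 1 := by
  have hf : ∀ i, |(⌊w i⌋₊ : ℝ) - w i| ≤ 1 := by
    intro i
    have h1 := Nat.floor_le (hw i)
    have h2 := Nat.lt_floor_add_one (w i)
    rw [abs_le]
    constructor <;> linarith
  unfold mu
  have e1 : ((⌊w 0⌋₊ : ℕ) : ℝ) + ∑ i ∈ Icc 1 M, 2 * ((⌊w i⌋₊ : ℕ) : ℝ) *
      Real.cos (2 * Real.pi * i * j / (2 * M + 1)) -
      (w 0 + ∑ i ∈ Icc 1 M, 2 * w i * Real.cos (2 * Real.pi * i * j / (2 * M + 1))) =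
      ((⌊w 0⌋₊ : ℝ) - w 0) + ∑ i ∈ Icc 1 M, 2 * ((⌊w i⌋₊ : ℝ) - w i) *
        Real.cos (2 * Real.pi * i * j / (2 * M + 1)) := by
    rw [add_sub_add_comm, ← sum_sub_distrib]
    refine congrArg₂ _ rfl (sum_congr rfl fun i _ => ?_)
    ring
  rw [e1]
  refine (abs_add_le _ _).trans ?_
  have e2 : |∑ i ∈ Icc 1 M, 2 * ((⌊w i⌋₊ : ℝ) - w i) *
      Real.cos (2 * Real.pi * i * j / (2 * M + 1))| ≤ ∑ i ∈ Icc 1 M, (2 : ℝ) := by
    refine (abs_sum_le_sum_abs _ _).trans (sum_le_sum fun i _ => ?_)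
    rw [abs_mul, abs_mul]
    have h1 := hf i
    have h2 := Real.abs_cos_le_one (2 * Real.pi * i * j / (2 * M + 1))
    have h3 : |(2 : ℝ)| = 2 := abs_of_pos (by norm_num)
    rw [h3]
    have h4 := abs_nonneg ((⌊w i⌋₊ : ℝ) - w i)
    have h5 := abs_nonneg (Real.cos (2 * Real.pi * i * j / (2 * M + 1)))
    nlinarith
  have e3 : ∑ i ∈ Icc 1 M, (2 : ℝ) = 2 * M := by
    rw [sum_const, Nat.card_Icc, nsmul_eq_mul]
    simp
    ring
  have := hf 0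
  linarith

end APA

open APA in
theorem t_APA (hWTS : S_WTS) (hLGA : S_LGA) (hLGM : S_LGM) : S_APA := by
  intro R n d ρ Θ h0 h1 hΘ
  obtain ⟨w, hw0, hw1, hw2⟩ := hWTS d (fun j => (sg R n j : ℝ) * ρ ^ j) Θ
    (fun j => by positivity) ((sum_bound R n d ρ h0 h1).trans hΘ)
  set m : ℕ → ℕ := fun i => ⌊w i⌋₊ with hm
  have hmw : (m 0 : ℝ) + 2 * ∑ i ∈ Icc 1 d, (m i : ℝ) ≤ 2 * Θ := by
    rw [← hw1]
    have a1 : (m 0 : ℝ) ≤ w 0 := Nat.floor_le (hw0 0)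
    have a2 : ∑ i ∈ Icc 1 d, (m i : ℝ) ≤ ∑ i ∈ Icc 1 d, w i :=
      sum_le_sum fun i _ => Nat.floor_le (hw0 i)
    linarith
  have hΘ0 : 0 ≤ 2 * Θ := le_trans (by positivity) hmw
  have hS0 : (0 : ℝ) ≤ ∑ r ∈ Icc 1 R, (r : ℝ) * n r := by positivity
  have hpos : ∀ j : ℕ, 0 < ρ ^ j := fun j => by positivity
  -- the common estimate
  have key : ∀ j : ℕ, |((sg R n j : ℝ) + mu d m j * ρ⁻¹ ^ j) / j| * ρ ^ j ≤
      |(sg R n j : ℝ) * ρ ^ j + mu d m j| := by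
    intro j
    rcases Nat.eq_zero_or_pos j with rfl | hj
    · simp
    · have hj1 : (1 : ℝ) ≤ j := by exact_mod_cast hj
      have e1 : ((sg R n j : ℝ) * ρ ^ j + mu d m j) =
          ((sg R n j : ℝ) + mu d m j * ρ⁻¹ ^ j) * ρ ^ j := by
        rw [add_mul, mul_assoc (mu d m j), ← mul_pow, inv_mul_cancel₀ h0.ne', one_pow, mul_one]
      rw [e1, abs_mul, abs_div, abs_of_pos (hpos j)]
      refine mul_le_mul_of_nonneg_right ?_ (hpos j).le
      rw [abs_of_pos (by linarith : (0 : ℝ) < j)]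
      exact div_le_self (abs_nonneg _) hj1
  refine ⟨Rm ρ d m, fun j => ((sg R n j : ℝ) + mu d m j * ρ⁻¹ ^ j) / j, ?_, ?_, ?_, ?_, ?_⟩
  · have e1 := (hLGM ρ d m h0).1
    have e2 : ((Rm ρ d m).natDegree : ℝ) ≤ ((m 0 + 2 * ∑ i ∈ Icc 1 d, m i : ℕ) : ℝ) := by
      exact_mod_cast e1
    refine e2.trans ?_
    push_cast
    exact hmw
  · simp
  · intro j
    refine (key j).trans ((abs_add_le _ _).trans (add_le_add ?_ ((mu_le d m j).trans hmw)))
    rw [abs_of_nonneg (by positivity)]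
    have e1 : (sg R n j : ℝ) ≤ ∑ r ∈ Icc 1 R, (r : ℝ) * n r := by
      unfold sg
      push_cast
      exact sum_le_sum_of_subset_of_nonneg (filter_subset _ _) fun r _ _ => by positivity
    have e2 : ρ ^ j ≤ 1 := pow_le_one₀ h0.le h1.le
    calc (sg R n j : ℝ) * ρ ^ j ≤ (sg R n j : ℝ) * 1 :=
          mul_le_mul_of_nonneg_left e2 (Nat.cast_nonneg _)
      _ ≤ _ := by rw [mul_one]; exact e1
  · intro j hj
    refine (key j).trans ?_
    have e1 := hw2 j hj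
    have e2 := mu_sub d w hw0 j
    rw [e1] at e2
    have e3 : (sg R n j : ℝ) * ρ ^ j + mu d m j =
        mu d (fun i => ⌊w i⌋₊) j - -((sg R n j : ℝ) * ρ ^ j) := by
      rw [sub_neg_eq_add, add_comm]
    rw [e3]
    exact e2
  · intro T hT
    obtain ⟨s1, p1⟩ := hLGA R n T (hT.trans h1)
    obtain ⟨s2, p2⟩ := (hLGM ρ d m h0).2 T hT
    have e1 : (fun j : ℕ => (((((sg R n j : ℝ) + mu d m j * ρ⁻¹ ^ j) / j : ℝ)) : ℂ) * T ^ j) =
        fun j : ℕ => ((sg R n j : ℂ) / j) * T ^ j + ((mu d m j : ℂ) / j) * (T / ρ) ^ j := by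
      funext j
      push_cast
      rw [div_pow, div_eq_mul_inv (T ^ j), ← inv_pow]
      ring
    have e2 : ∑' j : ℕ, (((((sg R n j : ℝ) + mu d m j * ρ⁻¹ ^ j) / j : ℝ)) : ℂ) * T ^ j =
        ∑' j : ℕ, ((sg R n j : ℂ) / j) * T ^ j +
          ∑' j : ℕ, ((mu d m j : ℂ) / j) * (T / ρ) ^ j := by
      rw [e1]
      exact (s1.of_norm).tsum_add s2.of_norm
    rw [e2, Complex.exp_add]
    calc AC R n T * aeval T (Rm ρ d m) *
          (Complex.exp (∑' j : ℕ, ((sg R n j : ℂ) / j) * T ^ j) *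
            Complex.exp (∑' j : ℕ, ((mu d m j : ℂ) / j) * (T / ρ) ^ j)) =
          (AC R n T * Complex.exp (∑' j : ℕ, ((sg R n j : ℂ) / j) * T ^ j)) *
            (aeval T (Rm ρ d m) *
              Complex.exp (∑' j : ℕ, ((mu d m j : ℂ) / j) * (T / ρ) ^ j)) := by ring
      _ = 1 := by rw [p1, p2, one_mul]

end Pool.Agent.VIR
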