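import Pool.Agent.VIR.St2

/-!
# Virtual curves: module APG, the approximants for all exponents
-/

set_option autoImplicit false

namespace Pool.Agent.VIR

open Polynomial Finset Filter Topology

namespace APG

lemma aeval_map_An (R : ℕ) (n : ℕ → ℕ) (T : ℂ) :
    aeval T ((An R n).map (Int.castRingHom ℝ)) = AC R n T := by
  rw [← aeval_An]
  exact Polynomial.aeval_map_algebraMap ℝ T (An R n)

/-- the choice of the radius -/
lemma exists_rho (q R : ℕ) (β : ℕ → ℝ) (hq : 2 ≤ q) (h : Th q R β < 1) :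
    ∃ ρ : ℝ, (√(q : ℝ))⁻¹ < ρ ∧ ρ < 1 ∧
      ∑ r ∈ Icc 1 R, (r : ℝ) * β r * ρ ^ r / (1 - ρ ^ r) < 1 := by
  have hs := one_lt_sqrt hq
  obtain ⟨s, hsd⟩ : ∃ s, s = √(q : ℝ) := ⟨_, rfl⟩
  rw [← hsd] at hs ⊢
  have hs0 : 0 < s := by linarith
  have hx1 : s⁻¹ < 1 := inv_lt_one_of_one_lt₀ hs
  have hx0 : 0 < s⁻¹ := inv_pos.2 hs0
  have hval : ∑ r ∈ Icc 1 R, (r : ℝ) * β r * s⁻¹ ^ r / (1 - s⁻¹ ^ r) < 1 := by
    refine lt_of_eq_of_lt ?_ h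
    unfold Th
    rw [← hsd]
    refine Finset.sum_congr rfl fun r hr => ?_
    have hr1 := (Finset.mem_Icc.1 hr).1
    have h1 : 1 < s ^ r := one_lt_pow₀ hs (by omega)
    have h2 : s ^ r ≠ 0 := by positivity
    have h3 : s ^ r - 1 ≠ 0 := (sub_pos.2 h1).ne'
    rw [inv_pow]
    field_simp
  have hcont : Tendsto (fun ρ : ℝ => ∑ r ∈ Icc 1 R, (r : ℝ) * β r * ρ ^ r / (1 - ρ ^ r)) (𝓝 s⁻¹)
      (𝓝 (∑ r ∈ Icc 1 R, (r : ℝ) * β r * s⁻¹ ^ r / (1 - s⁻¹ ^ r))) := by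
    refine tendsto_finsetSum _ fun r hr => ?_
    have hr1 := (Finset.mem_Icc.1 hr).1
    have h1 : s⁻¹ ^ r < 1 := pow_lt_one₀ hx0.le hx1 (by omega)
    have h2 : ContinuousAt (fun ρ : ℝ => (r : ℝ) * β r * ρ ^ r / (1 - ρ ^ r)) s⁻¹ :=
      ContinuousAt.div (continuousAt_const.mul (continuousAt_id.pow r))
        (continuousAt_const.sub (continuousAt_id.pow r)) (sub_pos.2 h1).ne'
    exact h2
  have e1 : ∀ᶠ ρ in 𝓝[>] s⁻¹, ∑ r ∈ Icc 1 R, (r : ℝ) * β r * ρ ^ r / (1 - ρ ^ r) < 1 :=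
    nhdsWithin_le_nhds (hcont.eventually_lt_const hval)
  have e2 : ∀ᶠ ρ in 𝓝[>] s⁻¹, ρ < 1 := nhdsWithin_le_nhds (eventually_lt_nhds hx1)
  have e3 : ∀ᶠ ρ in 𝓝[>] s⁻¹, s⁻¹ < ρ := self_mem_nhdsWithin
  obtain ⟨ρ, h1, h2, h3⟩ := (e1.and (e2.and e3)).exists
  exact ⟨ρ, h3, h2, h1⟩

end APG

open APG in
theorem t_APG (hAPA : S_APA) (hCOR : S_COR) (hGRO : S_GRO) : S_APG := by
  intro q R β c₀ hq hβ hTh
  obtain ⟨ρ, hxρ, hρ1, hΘ⟩ := exists_rho q R β hq hTh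
  have hs := one_lt_sqrt hq
  obtain ⟨x, hx⟩ : ∃ x, x = (√(q : ℝ))⁻¹ := ⟨_, rfl⟩
  have hx0 : 0 < x := by
    rw [hx]
    exact inv_pos.2 (by linarith)
  rw [← hx] at hxρ ⊢
  have hρ0 : 0 < ρ := hx0.trans hxρ
  obtain ⟨Θ, hΘd⟩ : ∃ Θ, Θ = ∑ r ∈ Icc 1 R, (r : ℝ) * β r * ρ ^ r / (1 - ρ ^ r) := ⟨_, rfl⟩
  rw [← hΘd] at hΘ
  obtain ⟨S, hSd⟩ : ∃ S, S = ∑ r ∈ Icc 1 R, (r : ℝ) * β r := ⟨_, rfl⟩
  obtain ⟨τ, hτd⟩ : ∃ τ, τ = x / ρ := ⟨_, rfl⟩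
  have hτ0 : 0 < τ := by rw [hτd]; positivity
  have hτ1 : τ < 1 := by rw [hτd, div_lt_one hρ0]; exact hxρ
  have hS0 : 0 ≤ S := by
    rw [hSd]
    exact Finset.sum_nonneg fun r _ => mul_nonneg (Nat.cast_nonneg r) (hβ r)
  have hden : ∀ r ∈ Icc 1 R, 0 < 1 - ρ ^ r := fun r hr => by
    have hr1 := (Finset.mem_Icc.1 hr).1
    exact sub_pos.2 (pow_lt_one₀ hρ0.le hρ1 (by omega))
  have hΘ0 : 0 ≤ Θ := by
    rw [hΘd]
    refine Finset.sum_nonneg fun r hr => ?_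
    have h1 := hden r hr
    have h2 := hβ r
    positivity
  have h1τ : 0 < 1 - τ := by linarith
  obtain ⟨g₁, hg₁, hG⟩ := hGRO c₀ τ ((S + 2) / (1 - τ)) (8 / (1 - τ)) (1 - Θ) hτ0 hτ1 (by linarith)
  refine ⟨g₁, hg₁, ?_⟩
  intro g hg n hn K hK
  have hg0 : (0 : ℝ) < g := by exact_mod_cast (by omega : 0 < g)
  obtain ⟨d, N, hKd, hKN, hD, hD', hN, hNd⟩ := hG g hg K hK
  obtain ⟨Q₁, z, hQ₁, hz0, hz1, hz2, hid⟩ := hAPA R n d ρ (Θ * g) hρ0 hρ1 (by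
    rw [hΘd, Finset.sum_mul]
    refine Finset.sum_le_sum fun r hr => ?_
    have h1 := hden r hr
    have h2 := hn r hr
    calc (r : ℝ) * n r * ρ ^ r / (1 - ρ ^ r) = (r : ℝ) * ρ ^ r / (1 - ρ ^ r) * n r := by ring
      _ ≤ (r : ℝ) * ρ ^ r / (1 - ρ ^ r) * (β r * g) :=
          mul_le_mul_of_nonneg_left h2 (by positivity)
      _ = (r : ℝ) * β r * ρ ^ r / (1 - ρ ^ r) * g := by ring)
  -- bounds for the `z j`
  have hnS : ∑ r ∈ Icc 1 R, (r : ℝ) * n r ≤ S * g := by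
    rw [hSd, Finset.sum_mul]
    refine Finset.sum_le_sum fun r hr => ?_
    rw [mul_assoc]
    exact mul_le_mul_of_nonneg_left (hn r hr) (Nat.cast_nonneg r)
  have hxτ : ∀ j, x ^ j = ρ ^ j * τ ^ j := by
    intro j
    rw [hτd, ← mul_pow, mul_div_cancel₀ _ hρ0.ne']
  have hb1 : ∀ j, |z j| * x ^ j ≤ (S + 2) * g * τ ^ j := by
    intro j
    rw [hxτ, ← mul_assoc]
    refine mul_le_mul_of_nonneg_right ?_ (by positivity)
    have h1 := hz1 j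
    have h2 : 2 * (Θ * g) ≤ 2 * g := by nlinarith
    linarith
  have hb2 : ∀ j ∈ Icc 1 d, |z j| * x ^ j ≤ (2 * d + 1) * τ ^ j := by
    intro j hj
    rw [hxτ, ← mul_assoc]
    exact mul_le_mul_of_nonneg_right (hz2 j hj) (by positivity)
  have hgeo : Summable fun j : ℕ => (S + 2) * g * τ ^ j :=
    (summable_geometric_of_lt_one hτ0.le hτ1).mul_left _
  have hsum : Summable fun j => |z j| * x ^ j :=
    Summable.of_nonneg_of_le (fun j => by positivity) hb1 hgeo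
  have hc1 : 8 * ∑ j ∈ Icc 1 d, |z j| * x ^ j ≤ N := by
    have h1 : ∑ j ∈ Icc 1 d, |z j| * x ^ j ≤ (2 * d + 1) * (1 - τ)⁻¹ := by
      calc ∑ j ∈ Icc 1 d, |z j| * x ^ j ≤ ∑ j ∈ Icc 1 d, (2 * (d : ℝ) + 1) * τ ^ j :=
            Finset.sum_le_sum hb2
        _ = (2 * (d : ℝ) + 1) * ∑ j ∈ Icc 1 d, τ ^ j := by rw [Finset.mul_sum]
        _ ≤ (2 * d + 1) * (1 - τ)⁻¹ := by
            refine mul_le_mul_of_nonneg_left ?_ (by positivity)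
            rw [← tsum_geometric_of_lt_one hτ0.le hτ1]
            exact (summable_geometric_of_lt_one hτ0.le hτ1).sum_le_tsum _ fun j _ => by positivity
    calc 8 * ∑ j ∈ Icc 1 d, |z j| * x ^ j ≤ 8 * ((2 * d + 1) * (1 - τ)⁻¹) := by linarith
      _ = 8 / (1 - τ) * (2 * d + 1) := by rw [div_eq_mul_inv]; ring
      _ ≤ N := hD'
  have hc2 : ∑' j, |z (j + d + 1)| * x ^ (j + d + 1) ≤ 1 / 20 := by
    have h1 : ∀ j : ℕ, |z (j + d + 1)| * x ^ (j + d + 1) ≤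
        (S + 2) * g * τ ^ (d + 1) * τ ^ j := by
      intro j
      refine (hb1 (j + d + 1)).trans (le_of_eq ?_)
      rw [add_assoc, pow_add]
      ring
    have h2 : Summable fun j : ℕ => (S + 2) * g * τ ^ (d + 1) * τ ^ j :=
      (summable_geometric_of_lt_one hτ0.le hτ1).mul_left _
    have h3 : Summable fun j : ℕ => |z (j + d + 1)| * x ^ (j + d + 1) :=
      Summable.of_nonneg_of_le (fun j => by positivity) h1 h2
    calc ∑' j, |z (j + d + 1)| * x ^ (j + d + 1) ≤ ∑' j : ℕ, (S + 2) * g * τ ^ (d + 1) * τ ^ j :=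
          h3.tsum_le_tsum h1 h2
      _ = (S + 2) * g * τ ^ (d + 1) * (1 - τ)⁻¹ := by
          rw [tsum_mul_left, tsum_geometric_of_lt_one hτ0.le hτ1]
      _ = (S + 2) / (1 - τ) * g * τ ^ (d + 1) := by rw [div_eq_mul_inv]; ring
      _ ≤ 1 / 20 := hD
  obtain ⟨Co, hCo, hdvd, hval⟩ := hCOR x ((An R n).map (Int.castRingHom ℝ) * Q₁) z d N K hx0 hz0
    hsum hKd hKN hc1 hc2 hN (by
      intro T hT
      rw [map_mul, aeval_map_An]
      exact hid T (lt_of_le_of_lt hT hxρ))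
  refine ⟨Q₁ * Co, ?_, ?_, ?_⟩
  · have h1 : ((Q₁ * Co).natDegree : ℝ) ≤ 2 * (Θ * g) + N * d := by
      have h2 : (Q₁ * Co).natDegree ≤ Q₁.natDegree + Co.natDegree := Polynomial.natDegree_mul_le
      have h3 : ((Q₁ * Co).natDegree : ℝ) ≤ Q₁.natDegree + Co.natDegree := by exact_mod_cast h2
      have h4 : (Co.natDegree : ℝ) ≤ N * d := by exact_mod_cast hCo
      linarith
    have h5 : (((Q₁ * Co).natDegree + K : ℕ) : ℝ) < ((2 * g : ℕ) : ℝ) := by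
      push_cast
      nlinarith
    exact_mod_cast h5
  · rw [← mul_assoc]
    exact hdvd
  · intro T hT
    have h1 := hval T hT.le
    rw [map_mul, map_mul, aeval_map_An] at h1
    rw [map_mul, ← mul_assoc]
    exact h1

end Pool.Agent.VIR
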