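import Pool.Agent.VIR.St2

/-!
# CNG: congruence of the inverse polynomial
-/

set_option autoImplicit false

namespace Pool.Agent.VIR

open Polynomial Finset

namespace CNG

variable {A : Type} [CommRing A]

theorem mul_one' {d a b : A} (ha : d ∣ a - 1) (hb : d ∣ b - 1) : d ∣ a * b - 1 := by
  have h : a * b - 1 = (a - 1) * b + (b - 1) := by ring
  rw [h]
  exact dvd_add (Dvd.dvd.mul_right ha b) hb

theorem pow_one' {d a : A} (ha : d ∣ a - 1) (m : ℕ) : d ∣ a ^ m - 1 := by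
  induction m with
  | zero => simp
  | succ m ih =>
    rw [pow_succ]
    exact mul_one' ih ha

theorem prod_one' {d : A} (s : Finset ℕ) (f : ℕ → A) (h : ∀ r ∈ s, d ∣ f r - 1) :
    d ∣ ∏ r ∈ s, f r - 1 := by
  induction s using Finset.induction_on with
  | empty => simp
  | insert a s ha ih =>
    rw [Finset.prod_insert ha]
    exact mul_one' (h a (mem_insert_self a s)) (ih fun r hr => h r (mem_insert_of_mem hr))

end CNG

open CNG in
theorem t_CNG : S_CNG := by
  intro q g R K l k n ℓ hl hlq hR hK h2 hn hdvd a ha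
  have := Fact.mk hl
  set φ : ℤ[X] →+* (ZMod l)[X] := Polynomial.mapRingHom (Int.castRingHom (ZMod l)) with hφ
  have hX : φ X = X := by rw [hφ, Polynomial.coe_mapRingHom, Polynomial.map_X]
  have hq : φ (C (q : ℤ)) = -1 := by
    rw [hφ, Polynomial.coe_mapRingHom, Polynomial.map_C]
    have h3 : (Int.castRingHom (ZMod l)) (q : ℤ) = -1 := by
      have h4 : ((q + 1 : ℕ) : ZMod l) = 0 := (ZMod.natCast_eq_zero_iff _ _).2 hlq
      push_cast at h4
      rw [eq_intCast, Int.cast_natCast]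
      linear_combination h4
    rw [h3, map_neg, map_one]
  -- the product
  have hA : φ (An R n) = ∏ r ∈ Icc 1 R, (1 - X ^ r) ^ n r := by
    unfold An
    rw [map_prod]
    refine Finset.prod_congr rfl fun r _ => ?_
    rw [map_pow, map_sub, map_one, map_pow, hX]
  have hB : φ ((1 + C (q : ℤ) * X ^ 2) ^ g) = (1 - X ^ 2) ^ g := by
    rw [map_pow, map_add, map_one, map_mul, map_pow, hX, hq]
    ring
  have hAB : φ (An R n) * φ ((1 + C (q : ℤ) * X ^ 2) ^ g) =
      ∏ r ∈ Icc 1 R, (1 - X ^ r) ^ (n r + if r = 2 then g else 0) := by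
    rw [hA, hB]
    simp only [pow_add]
    rw [Finset.prod_mul_distrib]
    congr 1
    rw [Finset.prod_eq_single_of_mem 2 (mem_Icc.2 ⟨by norm_num, hR⟩)]
    · rw [if_pos rfl]
    · intro r _ hr
      rw [if_neg hr, pow_zero]
  have h1 : (X : (ZMod l)[X]) ^ (K + 1) ∣
      φ (An R n) * φ ((1 + C (q : ℤ) * X ^ 2) ^ g) - 1 := by
    rw [hAB]
    refine prod_one' _ _ fun r hr => ?_
    have hr1 := (mem_Icc.1 hr).1
    have hexp : l ^ k ∣ n r + if r = 2 then g else 0 := by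
      by_cases h : r = 2
      · subst h
        rw [if_pos rfl]
        exact h2
      · rw [if_neg h, add_zero]
        exact hn r hr h
    obtain ⟨m, hm⟩ := hexp
    rw [hm, pow_mul]
    refine pow_one' ?_ m
    rw [sub_pow_char_pow, one_pow, ← pow_mul]
    have h3 : (1 : (ZMod l)[X]) - X ^ (r * l ^ k) - 1 = -X ^ (r * l ^ k) := by ring
    rw [h3, dvd_neg]
    refine pow_dvd_pow X ?_
    calc K + 1 ≤ l ^ k := hK
      _ = 1 * l ^ k := (one_mul _).symm
      _ ≤ r * l ^ k := Nat.mul_le_mul_right _ hr1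
  have h0 : (X : (ZMod l)[X]) ^ (K + 1) ∣ φ (An R n) * φ (tr K ℓ) - 1 := by
    have := map_dvd φ hdvd
    rwa [map_pow, hX, map_sub, map_mul, map_one] at this
  have h3 : (X : (ZMod l)[X]) ^ (K + 1) ∣ φ (tr K ℓ - (1 + C (q : ℤ) * X ^ 2) ^ g) := by
    rw [map_sub]
    have e : φ (tr K ℓ) - φ ((1 + C (q : ℤ) * X ^ 2) ^ g) =
        φ (tr K ℓ) * ((φ (An R n) * φ (tr K ℓ) - 1) -
          (φ (An R n) * φ ((1 + C (q : ℤ) * X ^ 2) ^ g) - 1)) -
        (φ (An R n) * φ (tr K ℓ) - 1) * (φ (tr K ℓ) - φ ((1 + C (q : ℤ) * X ^ 2) ^ g)) := by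
      ring
    rw [e]
    exact dvd_sub (Dvd.dvd.mul_left (dvd_sub h0 h1) _) (Dvd.dvd.mul_right h0 _)
  have h4 := (Polynomial.X_pow_dvd_iff.1 h3) a (Nat.lt_succ_of_le ha)
  rw [hφ, Polynomial.coe_mapRingHom, Polynomial.coeff_map, eq_intCast] at h4
  exact (ZMod.intCast_zmod_eq_zero_iff_dvd _ _).1 h4

end Pool.Agent.VIR
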