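import Pool.Agent.VIR.St

/-!
# The module CNT: the counting relation
-/

set_option autoImplicit false

namespace Pool.Agent.VIR

open Polynomial Finset

namespace CNT

/-- the power sums are integers -/
lemma int_p {F : ℕ → ℤ} {p : ℕ → ℝ} (h0 : F 0 = 1) (h : NW (fun m => (F m : ℝ)) p) :
    ∃ P : ℕ → ℤ, ∀ m, 1 ≤ m → p m = P m := by
  have key : ∀ m, 1 ≤ m → ∃ z : ℤ, p m = z := by
    intro m
    induction m using Nat.strong_induction_on with
    | _ m ih =>
      intro hm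
      have h1 := h m hm
      have h2 : Icc 1 m = insert m (Icc 1 (m - 1)) := by
        ext i
        simp only [mem_insert, mem_Icc]
        omega
      have h3 : m ∉ Icc 1 (m - 1) := by
        simp only [mem_Icc]
        omega
      rw [h2, sum_insert h3] at h1
      simp only [Nat.sub_self, h0, Int.cast_one, mul_one] at h1
      have h4 : ∀ i ∈ Icc 1 (m - 1), ∃ z : ℤ, p i * (F (m - i) : ℝ) = z := by
        intro i hi
        rw [mem_Icc] at hi
        obtain ⟨z, hz⟩ := ih i (by omega) hi.1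
        exact ⟨z * F (m - i), by rw [hz]; push_cast; rfl⟩
      have h5 : ∃ z : ℤ, ∑ i ∈ Icc 1 (m - 1), p i * (F (m - i) : ℝ) = z := by
        choose! Z hZ using h4
        exact ⟨∑ i ∈ Icc 1 (m - 1), Z i, by rw [sum_congr rfl hZ]; push_cast; rfl⟩
      obtain ⟨z, hz⟩ := h5
      rw [hz] at h1
      exact ⟨-((m : ℤ) * F m) - z, by push_cast; linarith⟩
  choose! P hP using key
  exact ⟨P, hP⟩

lemma sum_div_one (m : ℕ) (hm : 1 ≤ m) :
    ∑ d ∈ m.divisors, (d : ℝ) * (if d = 1 then 1 else 0) = 1 := by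
  have h1 : (1 : ℕ) ∈ m.divisors := Nat.mem_divisors.2 ⟨one_dvd _, by omega⟩
  rw [sum_eq_single_of_mem 1 h1 (fun d _ hd => by rw [if_neg hd, mul_zero])]
  simp

/-- the exponents with the bound `R` -/
lemma sum_div_cut (R : ℕ) (n : ℕ → ℕ) (m : ℕ) (hm : 1 ≤ m) :
    ∑ d ∈ m.divisors, (d : ℤ) * (if d ≤ R then (n d : ℤ) else 0) = (sg R n m : ℤ) := by
  unfold sg
  push_cast
  have h1 : (Icc 1 R).filter (fun r => r ∣ m) = m.divisors.filter (fun d => d ≤ R) := by
    ext d
    simp only [mem_filter, mem_Icc, Nat.mem_divisors]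
    constructor
    · rintro ⟨⟨h1, h2⟩, h3⟩
      exact ⟨⟨h3, by omega⟩, h2⟩
    · rintro ⟨⟨h3, _⟩, h2⟩
      exact ⟨⟨Nat.pos_of_dvd_of_pos h3 hm, h2⟩, h3⟩
  rw [h1, sum_filter]
  exact sum_congr rfl fun d _ => by split_ifs <;> simp

/-- uniqueness of the exponents -/
lemma unique {b c : ℕ → ℤ} {K : ℕ}
    (h : ∀ m, 1 ≤ m → m ≤ K → ∑ d ∈ m.divisors, (d : ℤ) * b d = ∑ d ∈ m.divisors, (d : ℤ) * c d) :
    ∀ m, 1 ≤ m → m ≤ K → b m = c m := by
  intro m
  induction m using Nat.strong_induction_on with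
  | _ m ih =>
    intro hm hK
    have h1 := h m hm hK
    rw [← Nat.insert_self_properDivisors (by omega : m ≠ 0),
      sum_insert Nat.self_notMem_properDivisors, sum_insert Nat.self_notMem_properDivisors] at h1
    have h2 : ∑ d ∈ m.properDivisors, (d : ℤ) * b d = ∑ d ∈ m.properDivisors, (d : ℤ) * c d := by
      refine sum_congr rfl fun d hd => ?_
      rw [Nat.mem_properDivisors] at hd
      rw [ih d hd.2 (Nat.pos_of_dvd_of_pos hd.1 hm) (by omega)]
    rw [h2] at h1
    have h3 : (m : ℤ) * b m = (m : ℤ) * c m := by linarith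
    exact mul_left_cancel₀ (by exact_mod_cast (by omega : m ≠ 0)) h3

end CNT

theorem t_CNT (hNWT : S_NWT) (hNWA : S_NWA) (hNPR : S_NPR) (hEUL : S_EUL) (hNEC : S_NEC)
    (hPOS : S_POS) : S_CNT := by
  intro q g R K n θ L hq hg hRK hsK hL hdvd
  set s : ℝ := √(q : ℝ) with hs
  set p : ℕ → ℝ := fun m => ∑ i, 2 * s ^ m * Real.cos (m * θ i) with hp
  have hF : ∀ m, (L.coeff m : ℝ) =
      (∏ i, (1 - C (2 * √(q : ℝ) * Real.cos (θ i)) * X + C (q : ℝ) * X ^ 2) : ℝ[X]).coeff m := by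
    intro m
    rw [← hL, coeff_map]
    rfl
  have hNL : NW (fun m => (L.coeff m : ℝ)) p := by
    have h1 := hNWT q g θ
    have h2 : (fun m => (L.coeff m : ℝ)) = fun m =>
        (∏ i, (1 - C (2 * √(q : ℝ) * Real.cos (θ i)) * X + C (q : ℝ) * X ^ 2) : ℝ[X]).coeff m :=
      funext hF
    rw [h2]
    exact h1
  have hL0 : L.coeff 0 = 1 := by
    have h1 := hF 0
    rw [coeff_zero_eq_eval_zero (∏ i, (1 - C (2 * √(q : ℝ) * Real.cos (θ i)) * X +
      C (q : ℝ) * X ^ 2) : ℝ[X]), eval_prod] at h1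
    simp only [eval_add, eval_sub, eval_one, eval_mul, eval_C, eval_X, eval_pow, mul_zero, ne_eq,
      OfNat.ofNat_ne_zero, not_false_eq_true, zero_pow, sub_zero, add_zero, prod_const_one] at h1
    exact_mod_cast h1
  obtain ⟨P, hP⟩ := CNT.int_p hL0 hNL
  -- the exponents of `L`
  have hG : ∀ m : ℕ, 1 ≤ m →
      (m : ℤ) * L.coeff m = ∑ i ∈ Icc 1 m, (-P i) * L.coeff (m - i) := by
    intro m hm
    have h1 := hNL m hm
    have h2 : ((m : ℤ) * L.coeff m : ℝ) =
        ((∑ i ∈ Icc 1 m, (-P i) * L.coeff (m - i) : ℤ) : ℝ) := by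
      push_cast
      rw [show ((m : ℝ) * (L.coeff m : ℝ)) = _ from h1, ← sum_neg_distrib]
      refine sum_congr rfl fun i hi => ?_
      rw [hP i (mem_Icc.1 hi).1]
      ring
    exact_mod_cast h2
  obtain ⟨b', hb'⟩ := hEUL (fun m => L.coeff m) (fun m => -P m) hL0 hG
  obtain ⟨M, hM⟩ := hNEC q hq
  -- the relation with `An`
  have hc : ∀ m, ∑ i ∈ range (m + 1), ((An R n).coeff i : ℝ) * (L.coeff (m - i) : ℝ) =
      (((An R n * L).coeff m : ℤ) : ℝ) := by
    intro m
    rw [coeff_mul, Finset.Nat.sum_antidiagonal_eq_sum_range_succ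
      (fun i j => (An R n).coeff i * L.coeff j)]
    push_cast
    rfl
  have hcK : ∀ m, 1 ≤ m → m ≤ K → (An R n * L).coeff m = 0 := by
    intro m hm hmK
    have h1 := (X_pow_dvd_iff.1 hdvd) m (by omega)
    rw [coeff_sub, coeff_one, if_neg (by omega), sub_zero] at h1
    exact h1
  have hc0 : (An R n * L).coeff 0 = 1 := by
    have h1 := (X_pow_dvd_iff.1 hdvd) 0 (by omega)
    rw [coeff_sub, coeff_one, if_pos rfl, sub_eq_zero] at h1
    exact h1
  have hps : ∀ m, 1 ≤ m → m ≤ K → -P m = (sg R n m : ℤ) := by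
    intro m hm hmK
    have h1 := hNPR _ _ _ _ (hNWA R n) hNL m hm
    simp only [hc] at h1
    rw [hcK m hm hmK, sum_eq_single_of_mem m (mem_Icc.2 ⟨hm, le_rfl⟩) (fun i hi him => by
      rw [mem_Icc] at hi
      rw [hcK (m - i) (by omega) (by omega), Int.cast_zero, mul_zero]), Nat.sub_self, hc0,
      hP m hm] at h1
    have h2 : ((-P m : ℤ) : ℝ) = ((sg R n m : ℤ) : ℝ) := by
      push_cast at h1 ⊢
      linarith
    exact_mod_cast h2
  have hbn : ∀ m, 1 ≤ m → m ≤ K → b' m = if m ≤ R then (n m : ℤ) else 0 := by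
    refine CNT.unique fun m hm hmK => ?_
    rw [← hb' m hm, CNT.sum_div_cut R n m hm]
    exact hps m hm hmK
  -- the numbers `b`
  set b : ℕ → ℤ := fun d => M d + b' d + (if d = 1 then 1 else 0) with hb
  have hsum : ∀ m : ℕ, 1 ≤ m →
      ∑ d ∈ m.divisors, (d : ℝ) * (b d : ℝ) = (q : ℝ) ^ m + 1 - p m := by
    intro m hm
    have h1 : ∀ d ∈ m.divisors, (d : ℝ) * (b d : ℝ) =
        ((d * M d : ℕ) : ℝ) + (((d : ℤ) * b' d : ℤ) : ℝ) +
          (d : ℝ) * (if d = 1 then 1 else 0) := by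
      intro d _
      simp only [hb]
      push_cast
      ring
    rw [sum_congr rfl h1, sum_add_distrib, sum_add_distrib, CNT.sum_div_one m hm, ← Nat.cast_sum,
      ← Int.cast_sum, (hM m hm).2, ← hb' m hm, hP m hm]
    push_cast
    ring
  have habs : ∀ m, |p m| ≤ 2 * g * s ^ m := by
    intro m
    have hs0 : 0 ≤ s := Real.sqrt_nonneg _
    calc |p m| ≤ ∑ i : Fin g, |2 * s ^ m * Real.cos (m * θ i)| := abs_sum_le_sum_abs _ _
      _ ≤ ∑ _i : Fin g, 2 * s ^ m := by
          refine sum_le_sum fun i _ => ?_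
          rw [abs_mul, abs_of_nonneg (by positivity : 0 ≤ 2 * s ^ m)]
          exact mul_le_of_le_one_right (by positivity) (Real.abs_cos_le_one _)
      _ = 2 * g * s ^ m := by
          rw [sum_const, card_univ, Fintype.card_fin, nsmul_eq_mul]
          ring
  have hpos : ∀ m : ℕ, 1 ≤ m → 0 ≤ b m := by
    refine hPOS q g K b p hq hg hsK habs hsum fun d hd hdK => ?_
    simp only [hb]
    rw [hbn d hd hdK]
    split_ifs <;> positivity
  refine ⟨fun d => (b d).toNat, ?_, ?_⟩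
  · intro r hr
    rw [mem_Icc] at hr
    have h1 : b r = M r + n r + (if r = 1 then 1 else 0) := by
      simp only [hb]
      rw [hbn r hr.1 (by omega), if_pos hr.2]
    have h2 := (hM r hr.1).1
    have h3 : (n r : ℤ) + 1 ≤ b r := by
      rw [h1]
      split_ifs <;> omega
    show n r + 1 ≤ (b r).toNat
    omega
  · intro m hm
    rw [← hsum m hm, Nat.cast_sum]
    refine sum_congr rfl fun d hd => ?_
    have h1 : 1 ≤ d := Nat.pos_of_mem_divisors hd
    have h2 : (((b d).toNat : ℤ) : ℝ) = (b d : ℝ) := by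
      rw [Int.toNat_of_nonneg (hpos d h1)]
    rw [Nat.cast_mul, ← h2]
    push_cast
    rfl

end Pool.Agent.VIR
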