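import Pool.Agent.VIR.St

/-!
Module COR (helper69): correction by a truncated exponential.
-/

set_option autoImplicit false

namespace Pool.Agent.VIR

open Polynomial Finset

namespace COR

/-- the polynomial with the coefficients `z 1, ..., z d` -/
noncomputable def EE (z : ℕ → ℝ) (d : ℕ) : ℝ[X] := ∑ j ∈ Icc 1 d, C (z j) * X ^ j

/-- the truncated exponential of `EE z d` -/
noncomputable def CC (z : ℕ → ℝ) (d N : ℕ) : ℝ[X] :=
  ∑ i ∈ range (N + 1), C ((1 : ℝ) / (i.factorial : ℝ)) * EE z d ^ i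

lemma aeval_EE (z : ℕ → ℝ) (d : ℕ) (T : ℂ) :
    aeval T (EE z d) = ∑ j ∈ Icc 1 d, (z j : ℂ) * T ^ j := by
  unfold EE
  simp [map_sum]

lemma aeval_CC (z : ℕ → ℝ) (d N : ℕ) (T : ℂ) :
    aeval T (CC z d N) = ET N (aeval T (EE z d)) := by
  unfold CC ET
  rw [map_sum]
  refine Finset.sum_congr rfl fun i _ => ?_
  rw [map_mul, map_pow, aeval_C]
  simp [div_eq_inv_mul]

lemma natDegree_EE (z : ℕ → ℝ) (d : ℕ) : (EE z d).natDegree ≤ d := by
  unfold EE
  refine natDegree_sum_le_of_forall_le _ _ fun j hj => ?_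
  exact (natDegree_C_mul_X_pow_le _ _).trans (Finset.mem_Icc.1 hj).2

lemma natDegree_CC (z : ℕ → ℝ) (d N : ℕ) : (CC z d N).natDegree ≤ N * d := by
  unfold CC
  refine natDegree_sum_le_of_forall_le _ _ fun i hi => ?_
  have hi' : i ≤ N := by
    have := Finset.mem_range.1 hi
    omega
  refine (natDegree_C_mul_le _ _).trans ?_
  refine (natDegree_pow_le).trans ?_
  exact Nat.mul_le_mul hi' (natDegree_EE z d)

lemma split {ρ : ℝ} {z : ℕ → ℝ} (hz : z 0 = 0)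
    (hs : Summable (fun j => |z j| * ρ ^ j)) (d : ℕ) {T : ℂ} (hT : ‖T‖ ≤ ρ) :
    ∑' j, (z j : ℂ) * T ^ j = (∑ j ∈ Icc 1 d, (z j : ℂ) * T ^ j) +
      ∑' j, (z (j + (d + 1)) : ℂ) * T ^ (j + (d + 1)) := by
  have hsum : Summable (fun j => (z j : ℂ) * T ^ j) := by
    refine Summable.of_norm_bounded hs fun j => ?_
    rw [norm_mul, norm_pow, Complex.norm_real, Real.norm_eq_abs]
    exact mul_le_mul_of_nonneg_left (pow_le_pow_left₀ (norm_nonneg _) hT _) (abs_nonneg _)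
  rw [← hsum.sum_add_tsum_nat_add (d + 1)]
  congr 1
  have h1 : range (d + 1) = insert 0 (Icc 1 d) := by
    ext j
    simp only [mem_range, Finset.mem_insert, Finset.mem_Icc]
    omega
  rw [h1, Finset.sum_insert (by simp), hz]
  simp

/-- the head and the tail at a point `T` with `‖T‖ ≤ x ρ`, `x ≤ 1` -/
lemma bounds {ρ : ℝ} {z : ℕ → ℝ} (hρ : 0 < ρ)
    (hs : Summable (fun j => |z j| * ρ ^ j)) (d : ℕ) {T : ℂ} {x : ℝ} (hx0 : 0 ≤ x) (hx1 : x ≤ 1)
    (hT : ‖T‖ ≤ x * ρ) :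
    ‖∑ j ∈ Icc 1 d, (z j : ℂ) * T ^ j‖ ≤ x * ∑ j ∈ Icc 1 d, |z j| * ρ ^ j ∧
    ‖∑' j, (z (j + (d + 1)) : ℂ) * T ^ (j + (d + 1))‖ ≤
      x ^ (d + 1) * ∑' j, |z (j + d + 1)| * ρ ^ (j + d + 1) := by
  have hterm : ∀ k j : ℕ, k ≤ j → ‖(z j : ℂ) * T ^ j‖ ≤ x ^ k * (|z j| * ρ ^ j) := by
    intro k j hkj
    rw [norm_mul, norm_pow, Complex.norm_real, Real.norm_eq_abs]
    have h1 : ‖T‖ ^ j ≤ (x * ρ) ^ j := pow_le_pow_left₀ (norm_nonneg _) hT _
    have h2 : (x * ρ) ^ j ≤ x ^ k * ρ ^ j := by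
      rw [mul_pow]
      exact mul_le_mul_of_nonneg_right (pow_le_pow_of_le_one hx0 hx1 hkj) (by positivity)
    calc |z j| * ‖T‖ ^ j ≤ |z j| * (x ^ k * ρ ^ j) :=
          mul_le_mul_of_nonneg_left (h1.trans h2) (abs_nonneg _)
      _ = x ^ k * (|z j| * ρ ^ j) := by ring
  constructor
  · refine (norm_sum_le _ _).trans ?_
    rw [Finset.mul_sum]
    refine Finset.sum_le_sum fun j hj => ?_
    have := hterm 1 j (Finset.mem_Icc.1 hj).1
    simpa using this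
  · have hs2 : Summable (fun j => |z (j + d + 1)| * ρ ^ (j + d + 1)) := by
      have := (summable_nat_add_iff (d + 1)).2 hs
      simpa [add_assoc] using this
    have hs3 : Summable (fun j => x ^ (d + 1) * (|z (j + d + 1)| * ρ ^ (j + d + 1))) :=
      hs2.mul_left _
    rw [← tsum_mul_left]
    refine tsum_of_norm_bounded hs3.hasSum fun j => ?_
    have := hterm (d + 1) (j + (d + 1)) (by omega)
    simpa [add_assoc] using this

/-- the product is near `1` -/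
lemma prod_near {e t q : ℂ} {N : ℕ} (h : q * Complex.exp (e + t) = 1) (ht : ‖t‖ ≤ 1) {A : ℝ}
    (hA : ‖ET N e * Complex.exp (-e) - 1‖ ≤ A) :
    ‖q * ET N e - 1‖ ≤ A + (‖t‖ + ‖t‖ ^ 2) + A * (‖t‖ + ‖t‖ ^ 2) := by
  have hq : q = Complex.exp (-e) * Complex.exp (-t) := by
    have h1 : Complex.exp (-e) * Complex.exp (-t) = Complex.exp (-(e + t)) := by
      rw [← Complex.exp_add]
      congr 1
      ring
    rw [h1, Complex.exp_neg]
    exact eq_inv_of_mul_eq_one_left h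
  have hb : ‖Complex.exp (-t) - 1‖ ≤ ‖t‖ + ‖t‖ ^ 2 := by
    have h1 := Complex.norm_exp_sub_one_sub_id_le (x := -t) (by simpa using ht)
    have h2 : Complex.exp (-t) - 1 = (Complex.exp (-t) - 1 - (-t)) + (-t) := by ring
    rw [h2]
    refine (norm_add_le _ _).trans ?_
    rw [norm_neg] at h1 ⊢
    linarith
  have hA0 : 0 ≤ A := (norm_nonneg _).trans hA
  have hid : q * ET N e - 1 = (ET N e * Complex.exp (-e) - 1) + (Complex.exp (-t) - 1) +
      (ET N e * Complex.exp (-e) - 1) * (Complex.exp (-t) - 1) := by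
    rw [hq]
    ring
  rw [hid]
  refine (norm_add_le _ _).trans ?_
  refine add_le_add ((norm_add_le _ _).trans (add_le_add hA hb)) ?_
  rw [norm_mul]
  exact mul_le_mul hA hb (norm_nonneg _) hA0

end COR

open COR in
theorem t_COR (hEXP : S_EXP) (hDVD : S_DVD) : S_COR := by
  intro ρ Q z d N K hρ hz hs hKd hKN h8 htail hN hQ
  obtain ⟨hE1, hE2⟩ := hEXP
  set S : ℝ := ∑ j ∈ Icc 1 d, |z j| * ρ ^ j with hS
  have hS0 : 0 ≤ S := Finset.sum_nonneg fun j _ => by positivity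
  have hmain : ∀ T : ℂ, ∀ x : ℝ, 0 ≤ x → x ≤ 1 → ‖T‖ ≤ x * ρ →
      ∃ e t : ℂ, ‖e‖ ≤ x * S ∧ ‖t‖ ≤ x ^ (d + 1) * (1 / 20) ∧
        aeval T Q * Complex.exp (e + t) = 1 ∧
        aeval T (Q * CC z d N) = aeval T Q * ET N e := by
    intro T x hx0 hx1 hT
    have hTρ : ‖T‖ ≤ ρ := hT.trans (by nlinarith)
    obtain ⟨h1, h2⟩ := bounds hρ hs d hx0 hx1 hT
    refine ⟨∑ j ∈ Icc 1 d, (z j : ℂ) * T ^ j,
      ∑' j, (z (j + (d + 1)) : ℂ) * T ^ (j + (d + 1)), h1, ?_, ?_, ?_⟩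
    · exact h2.trans (mul_le_mul_of_nonneg_left htail (by positivity))
    · rw [← split hz hs d hTρ]
      exact hQ T hTρ
    · rw [map_mul, aeval_CC, aeval_EE]
  refine ⟨CC z d N, natDegree_CC z d N, ?_, ?_⟩
  · obtain ⟨D, hD0, hD⟩ := hE2 N
    refine hDVD _ (K + 1) ((2 * (D * S ^ (N + 1)) + 1) / ρ ^ (K + 1)) (ρ / (S + 1))
      (by positivity) ?_
    intro t ht0 ht1
    have hx0 : 0 ≤ t / ρ := by positivity
    have hx : t / ρ < 1 / (S + 1) := by
      rw [div_lt_iff₀ hρ]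
      calc t < ρ / (S + 1) := ht1
        _ = 1 / (S + 1) * ρ := by ring
    have hx1 : t / ρ ≤ 1 := by
      refine hx.le.trans ?_
      rw [div_le_one (by linarith)]
      linarith
    obtain ⟨e, u, h1, h2, h3, h4⟩ := hmain (t : ℂ) (t / ρ) hx0 hx1 (by
      rw [Complex.norm_real, Real.norm_eq_abs, abs_of_pos ht0, div_mul_cancel₀ _ hρ.ne'])
    have hev : |(Q * CC z d N - 1).eval t| = ‖aeval (t : ℂ) Q * ET N e - 1‖ := by
      rw [← h4]
      have : aeval (t : ℂ) (Q * CC z d N) - 1 = (((Q * CC z d N - 1).eval t : ℝ) : ℂ) := by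
        have h5 : aeval (t : ℂ) (Q * CC z d N - 1) = (((Q * CC z d N - 1).eval t : ℝ) : ℂ) := by
          rw [← Complex.coe_algebraMap, aeval_algebraMap_apply]
          simp [aeval_def, eval₂_eq_eval_map]
        rw [← h5, map_sub, map_one]
      rw [this, Complex.norm_real, Real.norm_eq_abs]
    rw [hev]
    set x : ℝ := t / ρ with hxd
    have he1 : ‖e‖ ≤ 1 := by
      refine h1.trans ?_
      have : x * (S + 1) ≤ 1 := by
        rw [lt_div_iff₀ (by linarith)] at hx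
        exact hx.le
      nlinarith
    have hxd1 : x ^ (d + 1) ≤ 1 := pow_le_one₀ hx0 hx1
    have hu1 : ‖u‖ ≤ 1 := h2.trans (by nlinarith)
    have hA := hD e he1
    have hnear := prod_near h3 hu1 hA
    have hxK : x ^ (N + 1) ≤ x ^ (K + 1) := pow_le_pow_of_le_one hx0 hx1 (by omega)
    have hxK' : x ^ (d + 1) ≤ x ^ (K + 1) := pow_le_pow_of_le_one hx0 hx1 (by omega)
    have hxp : 0 ≤ x ^ (K + 1) := by positivity
    have hA1 : D * ‖e‖ ^ (N + 1) ≤ (D * S ^ (N + 1)) * x ^ (K + 1) := by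
      have h5 : ‖e‖ ^ (N + 1) ≤ (x * S) ^ (N + 1) := pow_le_pow_left₀ (norm_nonneg _) h1 _
      rw [mul_pow] at h5
      calc D * ‖e‖ ^ (N + 1) ≤ D * (x ^ (N + 1) * S ^ (N + 1)) :=
            mul_le_mul_of_nonneg_left h5 hD0
        _ ≤ D * (x ^ (K + 1) * S ^ (N + 1)) :=
            mul_le_mul_of_nonneg_left (mul_le_mul_of_nonneg_right hxK (by positivity)) hD0
        _ = _ := by ring
    have hu2 : ‖u‖ + ‖u‖ ^ 2 ≤ x ^ (K + 1) := by
      have hu0 := norm_nonneg u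
      nlinarith
    have hu3 : ‖u‖ + ‖u‖ ^ 2 ≤ 1 := hu2.trans (pow_le_one₀ hx0 hx1)
    have hu4 : 0 ≤ ‖u‖ + ‖u‖ ^ 2 := by positivity
    have hAn : 0 ≤ D * ‖e‖ ^ (N + 1) := by positivity
    have hfin : ‖aeval (t : ℂ) Q * ET N e - 1‖ ≤
        (2 * (D * S ^ (N + 1)) + 1) * x ^ (K + 1) := by
      refine hnear.trans ?_
      have h6 : D * ‖e‖ ^ (N + 1) * (‖u‖ + ‖u‖ ^ 2) ≤ D * ‖e‖ ^ (N + 1) * 1 :=
        mul_le_mul_of_nonneg_left hu3 hAn
      linarith
    refine hfin.trans (le_of_eq ?_)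
    rw [hxd, div_pow]
    ring
  · intro T hT
    obtain ⟨e, u, h1, h2, h3, h4⟩ := hmain T 1 zero_le_one le_rfl (by simpa using hT)
    rw [h4]
    have he : 8 * ‖e‖ ≤ N := by
      have : ‖e‖ ≤ S := by simpa using h1
      linarith
    have hA := (hE1 e N he).trans hN
    have hu : ‖u‖ ≤ 1 / 20 := by simpa using h2
    have hnear := prod_near h3 (hu.trans (by norm_num)) hA
    have hu0 := norm_nonneg u
    have hsq : ‖u‖ ^ 2 ≤ 1 / 400 := by nlinarith
    linarith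

end Pool.Agent.VIR
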