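import Pool.Agent.VIR.St

/-!
# Divisibility by a power of `X` from a bound at `0`
-/

set_option autoImplicit false

namespace Pool.Agent.VIR

open Polynomial Filter Topology

namespace DVD

theorem aux (D ε : ℝ) (hε : 0 < ε) (k : ℕ) : ∀ f : ℝ[X],
    (∀ t : ℝ, 0 < t → t < ε → |f.eval t| ≤ D * t ^ k) → (X : ℝ[X]) ^ k ∣ f := by
  induction k with
  | zero =>
    intro f _
    rw [pow_zero]
    exact one_dvd f
  | succ k ih =>
    intro f hf
    have h1 : Tendsto (fun t : ℝ => |f.eval t|) (𝓝[>] 0) (𝓝 |f.eval 0|) :=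
      (f.continuous.abs.tendsto 0).mono_left nhdsWithin_le_nhds
    have h2 : Tendsto (fun t : ℝ => D * t ^ (k + 1)) (𝓝[>] 0) (𝓝 (D * 0 ^ (k + 1))) :=
      ((continuous_const.mul (continuous_pow (k + 1))).tendsto 0).mono_left nhdsWithin_le_nhds
    have h3 : |f.eval 0| ≤ D * 0 ^ (k + 1) :=
      le_of_tendsto_of_tendsto h1 h2 (Filter.eventually_of_mem (Ioo_mem_nhdsGT hε)
        fun t ht => hf t ht.1 ht.2)
    rw [zero_pow (Nat.succ_ne_zero k), mul_zero] at h3
    have h4 : f.eval 0 = 0 := abs_nonpos_iff.1 h3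
    obtain ⟨g, rfl⟩ := (X_dvd_iff (f := f)).2 (by rw [coeff_zero_eq_eval_zero, h4])
    rw [pow_succ']
    apply mul_dvd_mul_left
    apply ih
    intro t ht0 ht1
    have h5 := hf t ht0 ht1
    rw [eval_mul, eval_X, abs_mul, abs_of_pos ht0] at h5
    have h6 : t * |g.eval t| ≤ t * (D * t ^ k) := by
      calc t * |g.eval t| ≤ D * t ^ (k + 1) := h5
        _ = t * (D * t ^ k) := by ring
    exact le_of_mul_le_mul_left h6 ht0

end DVD

theorem t_DVD : S_DVD := fun f k D ε hε h => DVD.aux D ε hε k f h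

end Pool.Agent.VIR
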