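import Pool.Agent.VIR.St2

/-!
# Virtual curves: module EIS (lower part with `h = X^g` modulo `l`)
-/

set_option autoImplicit false

namespace Pool.Agent.VIR

open Polynomial Finset

namespace EIS

lemma natDegree_Dk (q : ℕ) : ∀ k : ℕ, (Dk q k).natDegree ≤ k
  | 0 => by
      have h : Dk q 0 = C 2 := rfl
      rw [h, natDegree_C]
  | 1 => by
      have h : Dk q 1 = X := rfl
      rw [h]
      exact natDegree_X_le
  | k + 2 => by
      have h : Dk q (k + 2) = X * Dk q (k + 1) - C (q : ℤ) * Dk q k := rfl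
      rw [h]
      refine (natDegree_sub_le _ _).trans (max_le ?_ ?_)
      · refine natDegree_mul_le.trans ?_
        have h1 := natDegree_Dk q (k + 1)
        have h2 : (X : ℤ[X]).natDegree ≤ 1 := natDegree_X_le
        omega
      · refine (natDegree_C_mul_le _ _).trans ?_
        have h1 := natDegree_Dk q k
        omega

lemma HH_add (q g K : ℕ) (ℓ : ℕ → ℤ) (w : ℤ[X]) : HH q g K ℓ w = HH q g K ℓ 0 + w := by
  unfold HH
  rw [add_zero]

lemma natDegree_HH (q g K : ℕ) (ℓ : ℕ → ℤ) : (HH q g K ℓ 0).natDegree ≤ g := by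
  unfold HH
  rw [add_zero]
  apply natDegree_sum_le_of_forall_le
  intro a _
  refine (natDegree_C_mul_le _ _).trans ((natDegree_Dk q (g - a)).trans (Nat.sub_le g a))

lemma LL_sub (q g : ℕ) (a b : ℤ[X]) : LL q g (a - b) = LL q g a - LL q g b := by
  unfold LL
  rw [← Finset.sum_sub_distrib]
  apply Finset.sum_congr rfl
  intro k _
  rw [coeff_sub, map_sub]
  ring

lemma LL_X (q g : ℕ) : LL q g (X ^ g) = (1 + C (q : ℤ) * X ^ 2) ^ g := by
  unfold LL
  rw [Finset.sum_eq_single g]
  · simp
  · intro k _ hk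
    rw [coeff_X_pow, if_neg hk]
    simp
  · intro h
    exact absurd (Finset.mem_range.2 (Nat.lt_succ_self g)) h

lemma coeff_pow_zero (q k : ℕ) : ((1 + C (q : ℤ) * X ^ 2) ^ k : ℤ[X]).coeff 0 = 1 := by
  rw [coeff_zero_eq_eval_zero]
  simp

/-- downward induction -/
lemma key (q g K l : ℕ) (F : ℤ[X]) (hKg : K < g)
    (h : ∀ a ≤ K, (l : ℤ) ∣ (LL q g F).coeff a) : ∀ j ≤ K, (l : ℤ) ∣ F.coeff (g - j) := by
  intro j
  induction j using Nat.strong_induction_on with
  | _ j ih =>
    intro hj
    have h1 := h j hj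
    have hterm : ∀ k ∈ range (g + 1), k ≠ g - j →
        (l : ℤ) ∣ (C (F.coeff k) * X ^ (g - k) * (1 + C (q : ℤ) * X ^ 2) ^ k : ℤ[X]).coeff j := by
      intro k hk hkj
      have hk' : k ≤ g := Nat.lt_succ_iff.1 (Finset.mem_range.1 hk)
      rw [mul_assoc, coeff_C_mul]
      by_cases hlt : k < g - j
      · rw [mul_comm (X ^ (g - k)), coeff_mul_X_pow', if_neg (by omega)]
        simp
      · have h2 := ih (g - k) (by omega) (by omega)
        have e : g - (g - k) = k := by omega
        rw [e] at h2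
        exact Dvd.dvd.mul_right h2 _
    have hmem : g - j ∈ range (g + 1) := Finset.mem_range.2 (by omega)
    unfold LL at h1
    rw [finset_sum_coeff, ← Finset.add_sum_erase _ _ hmem] at h1
    have h3 : (l : ℤ) ∣ ∑ k ∈ (range (g + 1)).erase (g - j),
        (C (F.coeff k) * X ^ (g - k) * (1 + C (q : ℤ) * X ^ 2) ^ k : ℤ[X]).coeff j :=
      Finset.dvd_sum fun k hk => hterm k (Finset.mem_of_mem_erase hk) (Finset.ne_of_mem_erase hk)
    have h4 := (dvd_add_left h3).1 h1
    rw [mul_assoc, coeff_C_mul] at h4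
    have e1 : g - (g - j) = j := by omega
    have e2 : (X ^ (g - (g - j)) * (1 + C (q : ℤ) * X ^ 2) ^ (g - j) : ℤ[X]).coeff j = 1 := by
      rw [e1, mul_comm, coeff_mul_X_pow', if_pos le_rfl, Nat.sub_self, coeff_pow_zero]
    rw [e2, mul_one] at h4
    exact h4

end EIS

theorem t_EIS (hWEI : S_WEI) : S_EIS := by
  intro q g K l ℓ _ hKg htr
  set F : ℤ[X] := X ^ g - HH q g K ℓ 0 with hF
  have hW := hWEI q g K ℓ 0 hKg (by rw [degree_zero]; exact WithBot.bot_lt_coe _)
  have hLL : ∀ a ≤ K, (l : ℤ) ∣ (LL q g F).coeff a := by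
    intro a ha
    obtain ⟨c, hc⟩ := hW
    have e : LL q g F = -(tr K ℓ - (1 + C (q : ℤ) * X ^ 2) ^ g) - X ^ (K + 1) * c := by
      rw [hF, EIS.LL_sub, EIS.LL_X, ← hc]
      ring
    rw [e, coeff_sub, coeff_neg, coeff_X_pow_mul', if_neg (by omega), sub_zero]
    exact (dvd_neg).2 (htr a ha)
  have hkey := EIS.key q g K l F hKg hLL
  refine ⟨∑ i ∈ range (g - K), C (F.coeff i) * X ^ i, ?_, ?_⟩
  · apply lt_of_le_of_lt (degree_sum_le _ _)
    refine (Finset.sup_lt_iff (WithBot.bot_lt_coe (g - K))).2 ?_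
    intro i hi
    exact lt_of_le_of_lt (degree_C_mul_X_pow_le i _)
      (WithBot.coe_lt_coe.2 (Finset.mem_range.1 hi))
  · intro i
    have hco : (∑ j ∈ range (g - K), C (F.coeff j) * X ^ j : ℤ[X]).coeff i =
        if i < g - K then F.coeff i else 0 := by
      rw [finset_sum_coeff]
      simp only [coeff_C_mul, coeff_X_pow, mul_ite, mul_one, mul_zero]
      rw [Finset.sum_ite_eq (range (g - K)) i]
      simp only [Finset.mem_range]
    have e : HH q g K ℓ (∑ j ∈ range (g - K), C (F.coeff j) * X ^ j) - X ^ g =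
        (∑ j ∈ range (g - K), C (F.coeff j) * X ^ j) - F := by
      rw [EIS.HH_add, hF]
      ring
    rw [e, coeff_sub, hco]
    by_cases h1 : i < g - K
    · rw [if_pos h1, sub_self]
      exact dvd_zero _
    · rw [if_neg h1, zero_sub]
      apply (dvd_neg).2
      by_cases h2 : i ≤ g
      · have h3 := hkey (g - i) (by omega)
        have e2 : g - (g - i) = i := by omega
        rw [e2] at h3
        exact h3
      · have h3 : F.natDegree ≤ g := by
          rw [hF]
          refine (natDegree_sub_le _ _).trans (max_le ?_ (EIS.natDegree_HH q g K ℓ))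
          exact natDegree_X_pow_le g
        rw [coeff_eq_zero_of_natDegree_lt (by omega)]
        exact dvd_zero _

end Pool.Agent.VIR
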