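import Pool.Agent.VIR.St

/-!
# Module EUL: Euler exponents of an integral power series
-/

set_option autoImplicit false

namespace Pool.Agent.VIR

open Polynomial Finset

namespace EUL

/-- The operator `X d/dX` on power series. -/
noncomputable def th (f : PowerSeries ℤ) : PowerSeries ℤ :=
  PowerSeries.mk fun n => (n : ℤ) * PowerSeries.coeff n f

lemma coeff_th (f : PowerSeries ℤ) (n : ℕ) :
    PowerSeries.coeff n (th f) = (n : ℤ) * PowerSeries.coeff n f := by
  unfold th
  rw [PowerSeries.coeff_mk]

lemma th_mul (f g : PowerSeries ℤ) : th (f * g) = th f * g + f * th g := by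
  ext n
  rw [coeff_th, map_add, PowerSeries.coeff_mul, PowerSeries.coeff_mul, PowerSeries.coeff_mul,
    ← Finset.sum_add_distrib, Finset.mul_sum]
  refine Finset.sum_congr rfl fun x hx => ?_
  rw [coeff_th, coeff_th]
  have := Finset.HasAntidiagonal.mem_antidiagonal.1 hx
  rw [← this]
  push_cast
  ring

/-- The logarithmic derivative. -/
noncomputable def lam : (PowerSeries ℤ)ˣ →* Multiplicative (PowerSeries ℤ) :=
  MonoidHom.mk' (fun u => Multiplicative.ofAdd (((u⁻¹ : (PowerSeries ℤ)ˣ) : PowerSeries ℤ) * th u))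
    (by
      intro u v
      rw [← ofAdd_add]
      congr 1
      rw [mul_inv, Units.val_mul, Units.val_mul, th_mul]
      have hu : ((u⁻¹ : (PowerSeries ℤ)ˣ) : PowerSeries ℤ) * u = 1 := Units.inv_mul u
      have hv : ((v⁻¹ : (PowerSeries ℤ)ˣ) : PowerSeries ℤ) * v = 1 := Units.inv_mul v
      calc ((u⁻¹ : (PowerSeries ℤ)ˣ) : PowerSeries ℤ) * ((v⁻¹ : (PowerSeries ℤ)ˣ) : PowerSeries ℤ) *
            (th u * v + u * th v)
          = ((u⁻¹ : (PowerSeries ℤ)ˣ) : PowerSeries ℤ) * th u *
              (((v⁻¹ : (PowerSeries ℤ)ˣ) : PowerSeries ℤ) * v) +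
            (((u⁻¹ : (PowerSeries ℤ)ˣ) : PowerSeries ℤ) * u) *
              (((v⁻¹ : (PowerSeries ℤ)ˣ) : PowerSeries ℤ) * th v) := by ring
        _ = _ := by rw [hu, hv]; ring)

/-- The logarithmic derivative, additive version. -/
noncomputable def la (u : (PowerSeries ℤ)ˣ) : PowerSeries ℤ := Multiplicative.toAdd (lam u)

lemma la_def (u : (PowerSeries ℤ)ˣ) :
    la u = ((u⁻¹ : (PowerSeries ℤ)ˣ) : PowerSeries ℤ) * th u := rfl

lemma th_eq (u : (PowerSeries ℤ)ˣ) : th u = la u * u := by
  rw [la_def, mul_assoc, mul_comm (th _) _, ← mul_assoc, Units.inv_mul, one_mul]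

lemma la_unique (u : (PowerSeries ℤ)ˣ) (h : PowerSeries ℤ) (e : th u = h * u) : la u = h := by
  have h1 := th_eq u
  rw [e] at h1
  exact (u.isUnit.mul_right_cancel h1).symm

lemma la_mul (u v : (PowerSeries ℤ)ˣ) : la (u * v) = la u + la v := by
  unfold la
  rw [map_mul]
  rfl

lemma la_zpow (u : (PowerSeries ℤ)ˣ) (n : ℤ) : la (u ^ n) = n • la u := by
  unfold la
  rw [map_zpow]
  rfl

lemma la_prod (s : Finset ℕ) (u : ℕ → (PowerSeries ℤ)ˣ) : la (∏ i ∈ s, u i) = ∑ i ∈ s, la (u i) := by
  classical
  induction s using Finset.induction_on with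
  | empty =>
    simp only [Finset.prod_empty, Finset.sum_empty]
    unfold la
    rw [map_one]
    rfl
  | insert a s ha ih => rw [Finset.prod_insert ha, Finset.sum_insert ha, la_mul, ih]

/-- The unit with the coefficients `F`. -/
lemma exists_unit (F : ℕ → ℤ) (h : F 0 = 1) :
    ∃ u : (PowerSeries ℤ)ˣ, ∀ n, PowerSeries.coeff n (u : PowerSeries ℤ) = F n := by
  have hu : IsUnit (PowerSeries.mk F) := by
    rw [PowerSeries.isUnit_iff_constantCoeff]
    rw [← PowerSeries.coeff_zero_eq_constantCoeff_apply, PowerSeries.coeff_mk, h]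
    exact isUnit_one
  obtain ⟨u, hu⟩ := hu
  exact ⟨u, fun n => by rw [hu, PowerSeries.coeff_mk]⟩

lemma exists_cyc (d : ℕ) (hd : 1 ≤ d) : ∃ u : (PowerSeries ℤ)ˣ, ∀ n,
    PowerSeries.coeff n (la u) = if 1 ≤ n ∧ d ∣ n then -(d : ℤ) else 0 := by
  obtain ⟨u, hu⟩ := exists_unit (fun n => if n = 0 then 1 else if n = d then -1 else 0) (by simp)
  refine ⟨u, ?_⟩
  have : la u = PowerSeries.mk fun n => if 1 ≤ n ∧ d ∣ n then -(d : ℤ) else 0 := by
    apply la_unique
    have hu' : (u : PowerSeries ℤ) = 1 - PowerSeries.X ^ d := by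
      ext n
      rw [hu, map_sub, PowerSeries.coeff_one, PowerSeries.coeff_X_pow]
      by_cases h0 : n = 0
      · have h3 : ¬ (0 = d) := by omega
        simp [h0, h3]
      · by_cases h1 : n = d
        · simp [h1]
          omega
        · simp [h0, h1]
    ext n
    rw [coeff_th, hu, hu', mul_sub, mul_one, map_sub, PowerSeries.coeff_mk,
      PowerSeries.coeff_mul_X_pow', PowerSeries.coeff_mk]
    by_cases h0 : n = 0
    · subst h0
      have : ¬ d ≤ 0 := by omega
      simp [this]
    · by_cases h1 : n = d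
      · subst h1
        simp [h0]
      · by_cases h2 : d ≤ n
        · have e : (1 ≤ n - d ∧ d ∣ n - d) ↔ (1 ≤ n ∧ d ∣ n) := by
            constructor
            · rintro ⟨_, h4⟩
              refine ⟨by omega, ?_⟩
              have := Nat.dvd_add h4 (dvd_refl d)
              rwa [Nat.sub_add_cancel h2] at this
            · rintro ⟨_, h4⟩
              exact ⟨by omega, Nat.dvd_sub h4 (dvd_refl d)⟩
          simp only [h0, h1, h2, if_true, if_false, e]
          simp
        · have h3 : ¬ d ∣ n := fun h => h2 (Nat.le_of_dvd (by omega) h)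
          simp [h0, h1, h2, h3]
  intro n
  rw [this, PowerSeries.coeff_mk]

end EUL

open EUL in
theorem t_EUL : S_EUL := by
  intro F G hF0 hFG
  classical
  -- the function of Moebius inversion
  set f : ℕ → ℤ := fun m => ∑ x ∈ m.divisorsAntidiagonal, (ArithmeticFunction.moebius x.1) • G x.2
    with hf
  have hsum : ∀ m : ℕ, 0 < m → ∑ i ∈ m.divisors, f i = G m :=
    ArithmeticFunction.sum_eq_iff_sum_smul_moebius_eq.2 fun m _ => rfl
  have key : ∀ m : ℕ, 1 ≤ m → (m : ℤ) ∣ f m := by
    intro m
    induction m using Nat.strong_induction_on with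
    | _ m ih =>
    intro hm
    obtain ⟨u, hu⟩ := exists_unit F hF0
    have hlu : ∀ j, PowerSeries.coeff j (la u) = if 1 ≤ j then G j else 0 := by
      have : la u = PowerSeries.mk fun j => if 1 ≤ j then G j else 0 := by
        apply la_unique
        ext n
        rw [coeff_th, hu, PowerSeries.coeff_mul,
          Finset.Nat.sum_antidiagonal_eq_sum_range_succ_mk, Finset.sum_range_succ']
        simp only [PowerSeries.coeff_mk, hu]
        rw [if_neg (by omega), zero_mul, add_zero]
        rcases Nat.eq_zero_or_pos n with h | h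
        · subst h; simp
        · rw [hFG n h]
          rw [Finset.range_eq_Ico, Finset.sum_Ico_add' (fun i => (if 1 ≤ i then G i else 0) * F (n - i)) 0 n 1]
          have e : Icc 1 n = Ico (0 + 1) (n + 1) := by
            ext i
            simp only [mem_Icc, mem_Ico]
            omega
          rw [e]
          refine Finset.sum_congr rfl fun i hi => ?_
          rw [if_pos (by have := (Finset.mem_Ico.1 hi).1; omega)]
      intro j
      rw [this, PowerSeries.coeff_mk]
    choose! c hc using exists_cyc
    set E : (PowerSeries ℤ)ˣ := u * ∏ d ∈ Ico 1 m, c d ^ (f d / d) with hE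
    have hlE : ∀ j, 1 ≤ j → PowerSeries.coeff j (la E) =
        G j - ∑ d ∈ (Ico 1 m).filter (fun d => d ∣ j), f d := by
      intro j hj
      rw [hE, la_mul, la_prod, map_add, map_sum, hlu, if_pos hj, sub_eq_add_neg,
        ← Finset.sum_neg_distrib, Finset.sum_filter]
      congr 1
      refine Finset.sum_congr rfl fun d hd => ?_
      have hd' := Finset.mem_Ico.1 hd
      rw [la_zpow, map_zsmul, hc d hd'.1, smul_eq_mul]
      by_cases h : d ∣ j
      · rw [if_pos ⟨hj, h⟩, if_pos h, mul_neg, Int.ediv_mul_cancel (ih d hd'.2 hd'.1)]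
      · rw [if_neg (fun h' => h h'.2), if_neg h, mul_zero]
    have hl0 : PowerSeries.coeff 0 (la E) = 0 := by
      have h1 := congrArg (PowerSeries.coeff 0) (th_eq E)
      rw [coeff_th, PowerSeries.coeff_mul] at h1
      simp only [Finset.Nat.antidiagonal_zero, Finset.sum_singleton, Nat.cast_zero, zero_mul] at h1
      have h2 : IsUnit (PowerSeries.coeff 0 (E : PowerSeries ℤ)) := by
        rw [PowerSeries.coeff_zero_eq_constantCoeff_apply]
        exact PowerSeries.isUnit_iff_constantCoeff.1 E.isUnit
      exact (h2.mul_left_eq_zero).1 h1.symm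
    have hsmall : ∀ j, j < m → PowerSeries.coeff j (la E) = 0 := by
      intro j hj
      rcases Nat.eq_zero_or_pos j with h | h
      · rw [h, hl0]
      · rw [hlE j h, ← hsum j h, sub_eq_zero]
        apply Finset.sum_congr _ fun _ _ => rfl
        ext d
        simp only [Nat.mem_divisors, mem_filter, mem_Ico]
        constructor
        · rintro ⟨h1, _⟩
          have := Nat.le_of_dvd h h1
          have := Nat.pos_of_dvd_of_pos h1 h
          exact ⟨⟨by omega, by omega⟩, h1⟩
        · rintro ⟨_, h1⟩
          exact ⟨h1, by omega⟩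
    -- the coefficient of degree m
    have hE0 : IsUnit (PowerSeries.coeff 0 (E : PowerSeries ℤ)) := by
      rw [PowerSeries.coeff_zero_eq_constantCoeff_apply]
      exact PowerSeries.isUnit_iff_constantCoeff.1 E.isUnit
    have h1 := congrArg (PowerSeries.coeff m) (th_eq E)
    rw [coeff_th, PowerSeries.coeff_mul, Finset.Nat.sum_antidiagonal_eq_sum_range_succ_mk,
      Finset.sum_range_succ, Finset.sum_eq_zero, zero_add] at h1
    · simp only [Nat.sub_self] at h1
      have h2 : PowerSeries.coeff m (la E) = f m := by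
        rw [hlE m hm, ← hsum m hm]
        have e : m.divisors = insert m ((Ico 1 m).filter (fun d => d ∣ m)) := by
          ext d
          simp only [Nat.mem_divisors, mem_filter, mem_Ico, mem_insert]
          constructor
          · rintro ⟨h3, _⟩
            have := Nat.le_of_dvd hm h3
            have := Nat.pos_of_dvd_of_pos h3 hm
            by_cases h4 : d = m
            · exact Or.inl h4
            · exact Or.inr ⟨⟨by omega, by omega⟩, h3⟩
          · rintro (h3 | ⟨_, h3⟩)
            · subst h3
              exact ⟨dvd_refl _, by omega⟩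
            · exact ⟨h3, by omega⟩
        rw [e, Finset.sum_insert (by simp)]
        ring
      rw [h2] at h1
      have h3 : (m : ℤ) ∣ f m * PowerSeries.coeff 0 (E : PowerSeries ℤ) := ⟨_, h1.symm⟩
      exact (hE0.dvd_mul_right).1 h3
    · intro i hi
      simp only [hsmall i (Finset.mem_range.1 hi), zero_mul]
  refine ⟨fun d => f d / d, fun m hm => ?_⟩
  rw [← hsum m hm]
  refine Finset.sum_congr rfl fun d hd => ?_
  have hd1 : 1 ≤ d := Nat.pos_of_mem_divisors hd
  rw [mul_comm, Int.ediv_mul_cancel (key d hd1)]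

end Pool.Agent.VIR
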