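import Pool.Agent.VIR.St

/-!
# EXP: the truncated exponential
-/

set_option autoImplicit false

namespace Pool.Agent.VIR

open Finset

namespace EXP

theorem pow_le (n : ℕ) : (n : ℝ) ^ n / (n.factorial : ℝ) ≤ Real.exp n := by
  have h1 := Real.sum_le_exp_of_nonneg (x := (n : ℝ)) (Nat.cast_nonneg n) (n + 1)
  refine le_trans ?_ h1
  exact Finset.single_le_sum (f := fun i => (n : ℝ) ^ i / (i.factorial : ℝ))
    (fun i _ => by positivity) (Finset.self_mem_range_succ n)

theorem norm_exp_neg_le (u : ℂ) : ‖Complex.exp (-u)‖ ≤ Real.exp ‖u‖ := by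
  have := Complex.norm_exp_le_exp_norm (-u)
  rwa [norm_neg] at this

theorem diff_eq (I : ℕ) (u : ℂ) : ET I u * Complex.exp (-u) - 1 =
    -((Complex.exp u - ∑ m ∈ range (I + 1), u ^ m / (m.factorial : ℂ)) * Complex.exp (-u)) := by
  unfold ET
  have h : Complex.exp u * Complex.exp (-u) = 1 := by rw [← Complex.exp_add]; simp
  linear_combination h

end EXP

open EXP in
theorem t_EXP : S_EXP := by
  constructor
  · intro u I hu
    have hn : (0 : ℝ) < ((I + 1 : ℕ) : ℝ) := by positivity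
    have hu0 := norm_nonneg u
    have hu1 : ‖u‖ ≤ ((I + 1 : ℕ) : ℝ) / 8 := by
      push_cast
      linarith
    rw [diff_eq, norm_neg, norm_mul]
    have h1 := Complex.exp_bound' (x := u) (n := I + 1) (by
      rw [div_le_iff₀ (by positivity)]
      push_cast
      push_cast at hu1
      linarith)
    have h2 := norm_exp_neg_le u
    have h3 : Real.exp ‖u‖ ≤ Real.exp (1 / 8) ^ (I + 1) := by
      rw [← Real.exp_nat_mul]
      exact Real.exp_le_exp.2 (by linarith)
    have h4 : ‖u‖ ^ (I + 1) / ((I + 1).factorial : ℝ) ≤ (Real.exp 1 / 8) ^ (I + 1) := by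
      calc ‖u‖ ^ (I + 1) / ((I + 1).factorial : ℝ) ≤
          (((I + 1 : ℕ) : ℝ) / 8) ^ (I + 1) / ((I + 1).factorial : ℝ) := by gcongr
        _ = (((I + 1 : ℕ) : ℝ) ^ (I + 1) / ((I + 1).factorial : ℝ)) * (1 / 8) ^ (I + 1) := by
            rw [div_pow, one_div_pow]
            ring
        _ ≤ Real.exp ((I + 1 : ℕ) : ℝ) * (1 / 8) ^ (I + 1) := by
            gcongr
            exact pow_le (I + 1)
        _ = (Real.exp 1 / 8) ^ (I + 1) := by
            rw [← Real.exp_one_pow, ← mul_pow]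
            congr 1
            ring
    have h5 : Real.exp 1 * Real.exp (1 / 8) ≤ 4 := by
      rw [← Real.exp_add]
      have h6 : Real.exp (1 + 1 / 8) ≤ Real.exp (5 / 4) := Real.exp_le_exp.2 (by norm_num)
      have h7 : Real.exp (5 / 4) ^ 4 ≤ 4 ^ 4 := by
        rw [← Real.exp_nat_mul]
        have h8 : ((4 : ℕ) : ℝ) * (5 / 4) = ((5 : ℕ) : ℝ) := by norm_num
        rw [h8, ← Real.exp_one_pow]
        have h9 := Real.exp_one_lt_d9
        calc Real.exp 1 ^ 5 ≤ 2.7182818286 ^ 5 :=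
              pow_le_pow_left₀ (Real.exp_pos 1).le h9.le 5
          _ ≤ 4 ^ 4 := by norm_num
      have h8 : Real.exp (5 / 4) ≤ 4 := le_of_pow_le_pow_left₀ (by norm_num) (by norm_num) h7
      linarith
    calc ‖Complex.exp u - ∑ m ∈ range (I + 1), u ^ m / (m.factorial : ℂ)‖ *
          ‖Complex.exp (-u)‖ ≤
          (‖u‖ ^ (I + 1) / ((I + 1).factorial : ℝ) * 2) * Real.exp ‖u‖ := by gcongr
      _ ≤ ((Real.exp 1 / 8) ^ (I + 1) * 2) * Real.exp (1 / 8) ^ (I + 1) := by gcongr
      _ = 2 * (Real.exp 1 * Real.exp (1 / 8) / 8) ^ (I + 1) := by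
          rw [div_pow, div_pow, mul_pow]
          ring
      _ ≤ 2 * (1 / 2) ^ (I + 1) := by
          have h6 : Real.exp 1 * Real.exp (1 / 8) / 8 ≤ 1 / 2 := by linarith
          have h7 : 0 ≤ Real.exp 1 * Real.exp (1 / 8) / 8 := by positivity
          exact mul_le_mul_of_nonneg_left (pow_le_pow_left₀ h7 h6 _) (by norm_num)
      _ = (1 / 2) ^ I := by
          rw [pow_succ]
          ring
  · intro I
    refine ⟨Real.exp 1 * Real.exp 1, by positivity, fun u hu => ?_⟩
    rw [diff_eq, norm_neg, norm_mul]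
    have h1 := Complex.norm_exp_sub_sum_le_norm_mul_exp u (I + 1)
    have h2 := norm_exp_neg_le u
    have h3 : Real.exp ‖u‖ ≤ Real.exp 1 := Real.exp_le_exp.2 hu
    calc ‖Complex.exp u - ∑ m ∈ range (I + 1), u ^ m / (m.factorial : ℂ)‖ *
          ‖Complex.exp (-u)‖ ≤ (‖u‖ ^ (I + 1) * Real.exp ‖u‖) * Real.exp ‖u‖ := by gcongr
      _ ≤ (‖u‖ ^ (I + 1) * Real.exp 1) * Real.exp 1 := by gcongr
      _ = _ := by ring

end Pool.Agent.VIR
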