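import Pool.Agent.VIR.St

/-!
# Virtual curves: module FIN (existence)
-/

set_option autoImplicit false

namespace Pool.Agent.VIR

open Polynomial Finset

namespace FIN

lemma An_coeff_zero (R : ℕ) (n : ℕ → ℕ) : (An R n).coeff 0 = 1 := by
  rw [coeff_zero_eq_eval_zero]
  unfold An
  rw [eval_prod]
  apply Finset.prod_eq_one
  intro r hr
  have h1 : r ≠ 0 := by
    have := (Finset.mem_Icc.1 hr).1
    omega
  simp [h1]

lemma tr_coeff_zero (K : ℕ) (ℓ : ℕ → ℤ) : (tr K ℓ).coeff 0 = ℓ 0 := by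
  rw [coeff_zero_eq_eval_zero]
  unfold tr
  rw [eval_finset_sum, Finset.sum_range_succ']
  simp

lemma ell_zero {R K : ℕ} {n : ℕ → ℕ} {ℓ : ℕ → ℤ}
    (h : (X : ℤ[X]) ^ (K + 1) ∣ An R n * tr K ℓ - 1) : ℓ 0 = 1 := by
  have h1 : (X : ℤ[X]) ∣ An R n * tr K ℓ - 1 :=
    (dvd_pow_self X (Nat.succ_ne_zero K)).trans h
  rw [X_dvd_iff] at h1
  simp only [coeff_sub, mul_coeff_zero, An_coeff_zero, tr_coeff_zero, coeff_one_zero] at h1
  linarith

lemma HH_monic (hDIK : S_DIK) {q g K : ℕ} {ℓ : ℕ → ℤ} {low : ℤ[X]} (hK : K < g)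
    (hlow : low.degree < ((g - K : ℕ) : WithBot ℕ)) (hl : ℓ 0 = 1) :
    (HH q g K ℓ low).Monic ∧ (HH q g K ℓ low).natDegree = g := by
  have hmon : (Dk q g).Monic := (hDIK q g).2.1 (by omega)
  have hdeg : (Dk q g).natDegree = g := (hDIK q g).2.2.1
  have hdeg' : (Dk q g).degree = (g : WithBot ℕ) := by
    rw [degree_eq_natDegree hmon.ne_zero, hdeg]
  have hlow' : low.degree < (g : WithBot ℕ) :=
    lt_of_lt_of_le hlow (by exact_mod_cast Nat.sub_le g K)
  have hsum : (∑ a ∈ range K, C (ℓ (a + 1)) * Dk q (g - (a + 1))).degree < (g : WithBot ℕ) := by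
    apply lt_of_le_of_lt (degree_sum_le _ _)
    refine (Finset.sup_lt_iff (WithBot.bot_lt_coe g)).2 ?_
    intro a ha
    have ha' := Finset.mem_range.1 ha
    have h1 : (C (ℓ (a + 1)) * Dk q (g - (a + 1))).natDegree ≤ g - (a + 1) :=
      (natDegree_C_mul_le _ _).trans (hDIK q (g - (a + 1))).2.2.1.le
    have h2 : g - (a + 1) < g := by omega
    exact lt_of_le_of_lt degree_le_natDegree (WithBot.coe_lt_coe.2 (lt_of_le_of_lt h1 h2))
  have hrest : (∑ a ∈ range K, C (ℓ (a + 1)) * Dk q (g - (a + 1)) + low).degree <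
      (Dk q g).degree := by
    rw [hdeg']
    exact lt_of_le_of_lt (degree_add_le _ _) (max_lt hsum hlow')
  have hform : HH q g K ℓ low =
      Dk q g + (∑ a ∈ range K, C (ℓ (a + 1)) * Dk q (g - (a + 1)) + low) := by
    unfold HH
    rw [Finset.sum_range_succ', hl]
    simp only [map_one, one_mul, Nat.sub_zero]
    ring
  rw [hform]
  refine ⟨hmon.add_of_left hrest, ?_⟩
  rw [natDegree_add_eq_left_of_degree_lt hrest, hdeg]

lemma map_PP (hHOM : S_HOM) {q g : ℕ} {h : ℤ[X]} {y : Fin g → ℝ}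
    (hh : h.map (Int.castRingHom ℝ) = ∏ i, (X - C (y i))) :
    (PP q g h).map (Int.castRingHom ℝ) = ∏ i, (X ^ 2 - C (y i) * X + C (q : ℝ)) := by
  have h1 := hHOM g y X (X ^ 2 + C (q : ℝ))
  rw [← hh] at h1
  unfold PP
  rw [Polynomial.map_sum]
  simp only [Polynomial.map_mul, Polynomial.map_pow, Polynomial.map_add, map_X, map_C,
    coeff_map] at h1 ⊢
  simp only [eq_intCast, Int.cast_natCast] at h1 ⊢
  rw [h1]
  apply Finset.prod_congr rfl
  intro i _
  ring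

lemma map_LL (hHOM : S_HOM) {q g : ℕ} {h : ℤ[X]} {y : Fin g → ℝ}
    (hh : h.map (Int.castRingHom ℝ) = ∏ i, (X - C (y i))) :
    (LL q g h).map (Int.castRingHom ℝ) = ∏ i, (1 - C (y i) * X + C (q : ℝ) * X ^ 2) := by
  have h1 := hHOM g y X (1 + C (q : ℝ) * X ^ 2)
  rw [← hh] at h1
  unfold LL
  rw [Polynomial.map_sum]
  simp only [Polynomial.map_mul, Polynomial.map_pow, Polynomial.map_add, Polynomial.map_one,
    map_X, map_C, coeff_map] at h1 ⊢
  simp only [eq_intCast, Int.cast_natCast] at h1 ⊢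
  rw [h1]
  apply Finset.prod_congr rfl
  intro i _
  ring

end FIN

theorem t_FIN (hDIK : S_DIK) (hMAI : S_MAI) (hROO : S_ROO) (hHOM : S_HOM) (hWEI : S_WEI)
    (hCNT : S_CNT) (hORD : S_ORD) : S_FIN := by
  intro q R β hq hβ hTh
  obtain ⟨g₁, hg₁, hmain⟩ := hMAI q R β hq hβ hTh
  refine ⟨g₁, fun g hg => ?_⟩
  obtain ⟨K, ℓ, low, hRK, hKg, h20, hlow, hinv, hmod, happ⟩ := hmain g hg
  have hl : ℓ 0 = 1 := FIN.ell_zero hinv
  obtain ⟨hmon, hdeg⟩ := FIN.HH_monic hDIK hKg hlow hl (q := q)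
  have hs := one_lt_sqrt hq
  have hs0 : 0 < √(q : ℝ) := by linarith
  obtain ⟨θ, hθ⟩ := hROO q g R (nn β g) ((HH q g K ℓ low).map (Int.castRingHom ℝ)) hq
    (hmon.map _) (by rw [hmon.natDegree_map]; exact hdeg) (by
      intro t
      have h1 := happ t
      have h2 : ((HH q g K ℓ low).map (Int.castRingHom ℝ)).eval (2 * √(q : ℝ) * Real.cos t) =
          aeval (2 * √(q : ℝ) * Real.cos t) (HH q g K ℓ low) := by
        rw [eval_map, aeval_def]
        rfl
      rw [h2]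
      refine lt_of_le_of_lt h1 ?_
      have h3 : AC R (nn β g) (pt q t) ≠ 0 := by
        apply AC_ne_zero
        rw [norm_pt]
        exact inv_lt_one_of_one_lt₀ hs
      have h4 : 0 < √(q : ℝ) ^ g / ‖AC R (nn β g) (pt q t)‖ :=
        div_pos (pow_pos hs0 g) (norm_pos_iff.2 h3)
      have h5 : 2 * √(q : ℝ) ^ g / ‖AC R (nn β g) (pt q t)‖ =
          √(q : ℝ) ^ g / ‖AC R (nn β g) (pt q t)‖ + √(q : ℝ) ^ g / ‖AC R (nn β g) (pt q t)‖ := by
        ring
      rw [h5]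
      linarith)
  have hP := FIN.map_PP hHOM hθ (q := q)
  have hL := FIN.map_LL hHOM hθ (q := q)
  have hW := hWEI q g K ℓ low hKg hlow
  have hdvd : (X : ℤ[X]) ^ (K + 1) ∣ An R (nn β g) * LL q g (HH q g K ℓ low) - 1 := by
    have e : An R (nn β g) * LL q g (HH q g K ℓ low) - 1 =
        An R (nn β g) * (LL q g (HH q g K ℓ low) - tr K ℓ) +
          (An R (nn β g) * tr K ℓ - 1) := by ring
    rw [e]
    exact dvd_add (Dvd.dvd.mul_left hW _) hinv
  obtain ⟨B, hB, hcount⟩ := hCNT q g R K (nn β g) θ (LL q g (HH q g K ℓ low)) hq (by omega) hRK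
    h20 hL hdvd
  refine ⟨θ, PP q g (HH q g K ℓ low), B, hP, hcount, ?_, ?_⟩
  · have h1 := hORD q g (HH q g K ℓ low)
    have e : (PP q g (HH q g K ℓ low)).coeff g - 1 =
        ((PP q g (HH q g K ℓ low)).coeff g - (HH q g K ℓ low).coeff 0) +
          ((HH q g K ℓ low).coeff 0 - 1) := by ring
    rw [e]
    exact dvd_add h1 hmod
  · intro r hr
    have h1 := hB r hr
    have h2 : β r * g < (nn β g r : ℝ) + 1 := by
      unfold nn
      exact Nat.lt_floor_add_one _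
    have h3 : ((nn β g r + 1 : ℕ) : ℝ) ≤ B r := by exact_mod_cast h1
    push_cast at h3
    linarith

end Pool.Agent.VIR
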