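import Pool.Agent.VIR.St2
import Pool.Agent.VIR.P_FIN

/-!
# Virtual curves: module FIG (existence, with irreducible polynomials)
-/

set_option autoImplicit false

namespace Pool.Agent.VIR

open Polynomial Finset

namespace FIG

/-- Eisenstein's criterion for a monic integral polynomial. -/
lemma eis {g l : ℕ} {h : ℤ[X]} (hg : 1 ≤ g) (hl : l.Prime) (hmon : h.Monic)
    (hdeg : h.natDegree = g) (hco : ∀ i, (l : ℤ) ∣ (h - X ^ g).coeff i)
    (h0 : ¬ (l : ℤ) ^ 2 ∣ h.coeff 0) : Irreducible h := by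
  have hlp : Prime (l : ℤ) := Nat.prime_iff_prime_int.1 hl
  have hP : (Ideal.span {(l : ℤ)}).IsPrime := (Ideal.span_singleton_prime hlp.ne_zero).2 hlp
  have hd : h.degree = (g : WithBot ℕ) := by
    rw [degree_eq_natDegree hmon.ne_zero, hdeg]
  refine irreducible_of_eisenstein_criterion hP ?_ ?_ ?_ ?_ hmon.isPrimitive
  · rw [hmon.leadingCoeff]
    intro h1
    exact hP.ne_top ((Ideal.eq_top_iff_one _).2 h1)
  · intro i hi
    rw [hd] at hi
    have hi' : i < g := by exact_mod_cast hi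
    rw [Ideal.mem_span_singleton]
    have h1 := hco i
    rw [coeff_sub, coeff_X_pow, if_neg (by omega), sub_zero] at h1
    exact h1
  · rw [hd]
    exact_mod_cast hg
  · rw [Ideal.span_singleton_pow, Ideal.mem_span_singleton]
    exact h0

end FIG

theorem t_FIG (hDIK : S_DIK) (hMAG : S_MAG) (hROO : S_ROO) (hHOM : S_HOM) (hWEI : S_WEI)
    (hCNT : S_CNT) (hORD : S_ORD) (hIRP : S_IRP) : S_FIG := by
  intro q R β hq hβ hTh
  obtain ⟨g₁, hg₁, hmain⟩ := hMAG q R β hq hβ hTh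
  refine ⟨max g₁ 3, fun g hg' => ?_⟩
  have hg : g₁ ≤ g := (le_max_left _ _).trans hg'
  have hg3 : 3 ≤ g := (le_max_right _ _).trans hg'
  obtain ⟨R', K, l, n, ℓ, low, hRR, hRK, hKg, hn, h20, hlow, hinv, hmod, hlp, hco, hl2, happ⟩ :=
    hmain g hg
  have hl : ℓ 0 = 1 := FIN.ell_zero hinv
  obtain ⟨hmon, hdeg⟩ := FIN.HH_monic hDIK hKg hlow hl (q := q)
  have hs := one_lt_sqrt hq
  have hs0 : 0 < √(q : ℝ) := by linarith
  obtain ⟨θ, hθ⟩ := hROO q g R' n ((HH q g K ℓ low).map (Int.castRingHom ℝ)) hq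
    (hmon.map _) (by rw [hmon.natDegree_map]; exact hdeg) (by
      intro t
      have h1 := happ t
      have h2 : ((HH q g K ℓ low).map (Int.castRingHom ℝ)).eval (2 * √(q : ℝ) * Real.cos t) =
          aeval (2 * √(q : ℝ) * Real.cos t) (HH q g K ℓ low) := by
        rw [eval_map, aeval_def]
        rfl
      rw [h2]
      refine lt_of_le_of_lt h1 ?_
      have h3 : AC R' n (pt q t) ≠ 0 := by
        apply AC_ne_zero
        rw [norm_pt]
        exact inv_lt_one_of_one_lt₀ hs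
      have h4 : 0 < √(q : ℝ) ^ g / ‖AC R' n (pt q t)‖ :=
        div_pos (pow_pos hs0 g) (norm_pos_iff.2 h3)
      have h5 : 2 * √(q : ℝ) ^ g / ‖AC R' n (pt q t)‖ =
          √(q : ℝ) ^ g / ‖AC R' n (pt q t)‖ + √(q : ℝ) ^ g / ‖AC R' n (pt q t)‖ := by
        ring
      rw [h5]
      linarith)
  have hP := FIN.map_PP hHOM hθ (q := q)
  have hL := FIN.map_LL hHOM hθ (q := q)
  have hW := hWEI q g K ℓ low hKg hlow
  have hdvd : (X : ℤ[X]) ^ (K + 1) ∣ An R' n * LL q g (HH q g K ℓ low) - 1 := by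
    have e : An R' n * LL q g (HH q g K ℓ low) - 1 =
        An R' n * (LL q g (HH q g K ℓ low) - tr K ℓ) +
          (An R' n * tr K ℓ - 1) := by ring
    rw [e]
    exact dvd_add (Dvd.dvd.mul_left hW _) hinv
  obtain ⟨B, hB, hcount⟩ := hCNT q g R' K n θ (LL q g (HH q g K ℓ low)) hq (by omega) hRK
    h20 hL hdvd
  have hirr : Irreducible (HH q g K ℓ low) :=
    FIG.eis (by omega) hlp hmon hdeg hco hl2
  refine ⟨θ, PP q g (HH q g K ℓ low), B, ⟨hP, hcount, ?_, ?_⟩, ?_⟩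
  · exact hIRP q g (HH q g K ℓ low) θ (by omega) hg3 hirr hθ
  · have h1 := hORD q g (HH q g K ℓ low)
    have e : (PP q g (HH q g K ℓ low)).coeff g - 1 =
        ((PP q g (HH q g K ℓ low)).coeff g - (HH q g K ℓ low).coeff 0) +
          ((HH q g K ℓ low).coeff 0 - 1) := by ring
    rw [e]
    exact dvd_add h1 hmod
  · intro r hr
    have hr' := Finset.mem_Icc.1 hr
    have h1 := hB r (Finset.mem_Icc.2 ⟨hr'.1, hr'.2.trans hRR⟩)
    have h2 := hn r hr
    have h3 : ((n r + 1 : ℕ) : ℝ) ≤ B r := by exact_mod_cast h1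
    push_cast at h3
    linarith

end Pool.Agent.VIR
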