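import Pool.Agent.VIR.St

/-!
# GRO: growth of parameters
-/

set_option autoImplicit false

namespace Pool.Agent.VIR

open Finset

theorem t_GRO : S_GRO := by
  intro c₀ τ D D' ε hτ hτ1 hε
  set lt := Real.log (1 / τ) with hlt
  have hltp : 0 < lt := Real.log_pos (by rw [lt_div_iff₀ hτ]; linarith)
  set c₁ := 2 / lt with hc₁
  have hc₁p : 0 < c₁ := by positivity
  set A := |c₀| + c₁ + 2 with hA
  have hA2 : 2 ≤ A := by have := abs_nonneg c₀; linarith
  set B := |D'| * (2 * A + 1) + A + 6 with hB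
  have hB0 : 0 ≤ B := by positivity
  set c := ε / (4 * (A * B + A) + 1) with hc
  have hcp : 0 < c := by positivity
  have ho := (Real.isLittleO_pow_log_id_atTop (n := 2)).bound hcp
  rw [Filter.eventually_atTop] at ho
  obtain ⟨x₀, hx₀⟩ := ho
  refine ⟨max 3 (max ⌈x₀⌉₊ ⌈20 * |D|⌉₊), le_trans (by norm_num) (le_max_left _ _), ?_⟩
  intro g hg K hK
  have hg3 : 3 ≤ g := le_trans (le_max_left _ _) hg
  have hgx : x₀ ≤ g := le_trans (Nat.le_ceil _) (by
    exact_mod_cast le_trans (le_trans (le_max_left _ _) (le_max_right _ _)) hg)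
  have hgD : 20 * |D| ≤ g := le_trans (Nat.le_ceil _) (by
    exact_mod_cast le_trans (le_trans (le_max_right _ _) (le_max_right _ _)) hg)
  have hg3' : (3 : ℝ) ≤ g := by exact_mod_cast hg3
  have hg0 : (0 : ℝ) < g := by linarith
  set L := Real.log g with hL
  have hL1 : 1 ≤ L := by
    rw [hL, Real.le_log_iff_exp_le hg0]
    exact le_trans Real.exp_one_lt_d9.le (by linarith)
  have hLo : L ^ 2 ≤ c * g := by
    have h := hx₀ g hgx
    simpa [abs_of_pos hg0] using h
  have hKL : (K : ℝ) ≤ |c₀| * L + 1 := by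
    have : c₀ * L ≤ |c₀| * L := mul_le_mul_of_nonneg_right (le_abs_self _) (by linarith)
    linarith
  set d := K + ⌈c₁ * L⌉₊ with hd
  set N := ⌈|D'| * (2 * d + 1)⌉₊ + K + 5 with hN
  have hcL : c₁ * L ≤ ⌈c₁ * L⌉₊ := Nat.le_ceil _
  have hcL' : (⌈c₁ * L⌉₊ : ℝ) < c₁ * L + 1 := Nat.ceil_lt_add_one (by positivity)
  have hdr : (d : ℝ) = K + ⌈c₁ * L⌉₊ := by rw [hd]; push_cast; ring
  have hNr : (N : ℝ) = ⌈|D'| * (2 * d + 1)⌉₊ + K + 5 := by rw [hN]; push_cast; ring
  have hdA : (d : ℝ) ≤ A * L := by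
    rw [hdr, hA]
    nlinarith
  have hKA : (K : ℝ) ≤ A * L := by
    rw [hA]
    nlinarith
  have hNB : (N : ℝ) ≤ B * L := by
    have h1 : (⌈|D'| * (2 * d + 1)⌉₊ : ℝ) < |D'| * (2 * d + 1) + 1 :=
      Nat.ceil_lt_add_one (by positivity)
    have h2 : |D'| * (2 * d + 1) ≤ |D'| * ((2 * A + 1) * L) :=
      mul_le_mul_of_nonneg_left (by nlinarith) (abs_nonneg _)
    rw [hNr, hB]
    nlinarith
  refine ⟨d, N, by omega, by omega, ?_, ?_, ?_, ?_⟩
  · have h1 : τ ^ (d + 1) ≤ (g : ℝ)⁻¹ ^ 2 := by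
      have h2 : τ ^ (d + 1) = Real.exp (-(lt * ((d : ℝ) + 1))) := by
        have h6 : lt = -Real.log τ := by rw [hlt, one_div, Real.log_inv]
        calc τ ^ (d + 1) = Real.exp (Real.log τ) ^ (d + 1) := by rw [Real.exp_log hτ]
          _ = Real.exp (((d + 1 : ℕ) : ℝ) * Real.log τ) := (Real.exp_nat_mul _ _).symm
          _ = Real.exp (-(lt * ((d : ℝ) + 1))) := by
            rw [h6]
            congr 1
            push_cast
            ring
      have h3 : (g : ℝ)⁻¹ ^ 2 = Real.exp (-(2 * L)) := by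
        have h6 : Real.exp (-L) = (g : ℝ)⁻¹ := by rw [Real.exp_neg, hL, Real.exp_log hg0]
        rw [← h6, ← Real.exp_nat_mul]
        congr 1
        push_cast
        ring
      rw [h2, h3]
      apply Real.exp_le_exp.2
      have h4 : 2 * L ≤ lt * ((d : ℝ) + 1) := by
        have h5 : c₁ * lt = 2 := by rw [hc₁]; field_simp
        have h6 : c₁ * L ≤ (d : ℝ) + 1 := by
          rw [hdr]
          have : (0 : ℝ) ≤ K := Nat.cast_nonneg _
          linarith
        calc 2 * L = lt * (c₁ * L) := by rw [← h5]; ring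
          _ ≤ lt * ((d : ℝ) + 1) := mul_le_mul_of_nonneg_left h6 hltp.le
      linarith
    have h5 : D * g * τ ^ (d + 1) ≤ |D| * g * (g : ℝ)⁻¹ ^ 2 := by
      have h6 : D * g ≤ |D| * g := mul_le_mul_of_nonneg_right (le_abs_self _) hg0.le
      calc D * g * τ ^ (d + 1) ≤ |D| * g * τ ^ (d + 1) :=
            mul_le_mul_of_nonneg_right h6 (by positivity)
        _ ≤ |D| * g * (g : ℝ)⁻¹ ^ 2 := mul_le_mul_of_nonneg_left h1 (by positivity)
    refine h5.trans ?_
    have : |D| * g * (g : ℝ)⁻¹ ^ 2 = |D| / g := by field_simp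
    rw [this, div_le_iff₀ hg0]
    linarith
  · have h1 : D' * (2 * d + 1) ≤ |D'| * (2 * d + 1) :=
      mul_le_mul_of_nonneg_right (le_abs_self _) (by positivity)
    have h2 : |D'| * (2 * d + 1) ≤ ⌈|D'| * (2 * d + 1)⌉₊ := Nat.le_ceil _
    rw [hNr]
    have : (0 : ℝ) ≤ K := Nat.cast_nonneg _
    linarith
  · have h1 : (1 / 2 : ℝ) ^ N ≤ (1 / 2 : ℝ) ^ 5 :=
      pow_le_pow_of_le_one (by norm_num) (by norm_num) (by omega)
    refine h1.trans (by norm_num)
  · have h1 : (N : ℝ) * d + K ≤ (A * B + A) * L ^ 2 := by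
      have h2 : (N : ℝ) * d ≤ (B * L) * (A * L) :=
        mul_le_mul hNB hdA (Nat.cast_nonneg _) (by positivity)
      have h3 : A * L ≤ A * L ^ 2 := mul_le_mul_of_nonneg_left (by nlinarith) (by linarith)
      nlinarith
    have h2 : (A * B + A) * L ^ 2 ≤ (A * B + A) * (c * g) :=
      mul_le_mul_of_nonneg_left hLo (by positivity)
    have h3 : (A * B + A) * c ≤ ε := by
      rw [hc, mul_div_assoc', div_le_iff₀ (by positivity)]
      have : 0 ≤ A * B + A := by positivity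
      nlinarith
    calc (N : ℝ) * d + K ≤ (A * B + A) * (c * g) := h1.trans h2
      _ = ((A * B + A) * c) * g := by ring
      _ ≤ ε * g := mul_le_mul_of_nonneg_right h3 hg0.le

end Pool.Agent.VIR
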