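import Pool.Agent.VIR.St

/-!
# Virtual curves: module H0
-/

set_option autoImplicit false

namespace Pool.Agent.VIR

open Polynomial Finset

namespace H0

/-- the index of the Dickson polynomial -/
def ix (g a : ℕ) : ℕ := if a ≤ g then g - a else a - g

/-- the weight -/
noncomputable def wt (q g a : ℕ) : ℝ := if a ≤ g then 1 else ((q : ℝ) ^ (a - g))⁻¹

lemma eval_term {q : ℕ} (hDIK : S_DIK) (k : ℕ) (θ : ℝ) :
    ((Dk q k).map (Int.castRingHom ℝ)).eval (2 * √(q : ℝ) * Real.cos θ) =
      2 * √(q : ℝ) ^ k * Real.cos (k * θ) := by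
  have h := (hDIK q k).1 θ
  rw [← h, Polynomial.aeval_def, Polynomial.eval_map, algebraMap_int_eq]

lemma re_term (q g a : ℕ) (hq : 1 ≤ q) (θ : ℝ) :
    √(q : ℝ) ^ g * (Complex.exp (g * θ * Complex.I) * pt q θ ^ a).re =
      wt q g a * (√(q : ℝ) ^ ix g a * Real.cos (ix g a * θ)) := by
  have hq0 : (0 : ℝ) < q := by exact_mod_cast hq
  have hs : 0 < √(q : ℝ) := Real.sqrt_pos.2 hq0
  have hss : √(q : ℝ) * √(q : ℝ) = q := Real.mul_self_sqrt hq0.le
  have e1 : Complex.exp (g * θ * Complex.I) * pt q θ ^ a =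
      (((√(q : ℝ))⁻¹ ^ a : ℝ) : ℂ) * Complex.exp ((((g : ℝ) - a) * θ : ℝ) * Complex.I) := by
    unfold pt
    rw [mul_pow, ← Complex.exp_nat_mul, ← Complex.ofReal_pow, mul_left_comm, ← Complex.exp_add]
    congr 2
    push_cast
    ring
  rw [e1, Complex.re_ofReal_mul, Complex.exp_ofReal_mul_I_re]
  unfold wt ix
  by_cases h : a ≤ g
  · rw [if_pos h, if_pos h]
    have e2 : √(q : ℝ) ^ g = √(q : ℝ) ^ (g - a) * √(q : ℝ) ^ a := by
      rw [← pow_add]
      congr 1
      omega
    have e3 : ((g - a : ℕ) : ℝ) = (g : ℝ) - a := by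
      push_cast [h]
      ring
    rw [e2, e3, inv_pow, one_mul]
    field_simp
  · rw [if_neg h, if_neg h]
    push Not at h
    have e2 : √(q : ℝ) ^ a = √(q : ℝ) ^ (a - g) * √(q : ℝ) ^ g := by
      rw [← pow_add]
      congr 1
      omega
    have e3 : ((a - g : ℕ) : ℝ) = (a : ℝ) - g := by
      push_cast [h.le]
      ring
    have e4 : Real.cos (((g : ℝ) - a) * θ) = Real.cos (((a : ℝ) - g) * θ) := by
      rw [← Real.cos_neg]
      congr 1
      ring
    have e5 : (q : ℝ) ^ (a - g) = √(q : ℝ) ^ (a - g) * √(q : ℝ) ^ (a - g) := by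
      rw [← mul_pow, hss]
    rw [inv_pow, e2, e3, e4, e5]
    field_simp

end H0

open H0 in
theorem t_H0 (hDIK : S_DIK) : S_H0 := by
  intro q g K Rp hq hK hdeg
  let D : ℕ → ℝ[X] := fun k => (Dk q k).map (Int.castRingHom ℝ)
  refine ⟨∑ a ∈ range (2 * g - K), C (Rp.coeff a * wt q g a) * D (ix g a), fun θ => ?_, ?_⟩
  · rw [Polynomial.eval_finsetSum, Polynomial.aeval_eq_sum_range' (n := 2 * g - K) (by omega),
      Finset.mul_sum, Complex.re_sum, Finset.mul_sum]
    refine Finset.sum_congr rfl fun a _ => ?_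
    rw [Polynomial.eval_mul, Polynomial.eval_C]
    have e1 := eval_term (q := q) hDIK (ix g a) θ
    have e2 := re_term q g a hq θ
    have e3 : (Complex.exp (g * θ * Complex.I) * Rp.coeff a • pt q θ ^ a).re =
        Rp.coeff a * (Complex.exp (g * θ * Complex.I) * pt q θ ^ a).re := by
      rw [mul_smul_comm, Complex.smul_re, smul_eq_mul]
    rw [e3]
    show Rp.coeff a * wt q g a * ((Dk q (ix g a)).map (Int.castRingHom ℝ)).eval _ = _
    rw [e1]
    linear_combination (-2 * Rp.coeff a) * e2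
  · rw [← Finset.sum_range_add_sum_Ico _ (show K + 1 ≤ 2 * g - K by omega)]
    have h1 : ∑ a ∈ range (K + 1), C (Rp.coeff a * wt q g a) * D (ix g a) =
        ∑ a ∈ range (K + 1), C (Rp.coeff a) * (Dk q (g - a)).map (Int.castRingHom ℝ) := by
      refine Finset.sum_congr rfl fun a ha => ?_
      have ha' := Finset.mem_range.mp ha
      have hag : a ≤ g := by omega
      unfold wt ix
      rw [if_pos hag, if_pos hag, mul_one]
    rw [h1, add_sub_cancel_left, ← Polynomial.mem_degreeLT]
    refine Submodule.sum_mem _ fun a ha => ?_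
    have ha' := Finset.mem_Ico.mp ha
    rw [Polynomial.mem_degreeLT]
    have h2 : ix g a < g - K := by
      unfold ix
      split_ifs <;> omega
    have h3 : (C (Rp.coeff a * wt q g a) * D (ix g a)).natDegree ≤ ix g a := by
      refine (Polynomial.natDegree_C_mul_le _ _).trans ((Polynomial.natDegree_map_le).trans ?_)
      exact ((hDIK q (ix g a)).2.2.1).le
    refine lt_of_le_of_lt Polynomial.degree_le_natDegree ?_
    exact_mod_cast lt_of_le_of_lt h3 h2

end Pool.Agent.VIR
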