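import Pool.Agent.VIR.St

/-!
# Module HOM: homogenisation of a product
-/

set_option autoImplicit false

namespace Pool.Agent.VIR

open Polynomial Finset

theorem HOM.deg (g : ℕ) (y : Fin g → ℝ) : (∏ i, (X - C (y i))).natDegree = g := by
  rw [natDegree_prod_of_monic _ _ (fun i _ => monic_X_sub_C (y i))]
  simp

theorem t_HOM : S_HOM := by
  intro g
  induction g with
  | zero => intro y a b; simp
  | succ g ih =>
    intro y a b
    set F : ℝ[X] := ∏ i : Fin g, (X - C (y i.succ)) with hF
    have e1 : ∏ i, (X - C (y i)) = (X - C (y 0)) * F := by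
      rw [Fin.prod_univ_succ]
    have e2 : ∏ i, (b - C (y i) * a) = (b - C (y 0) * a) * ∏ i : Fin g, (b - C (y i.succ) * a) := by
      rw [Fin.prod_univ_succ]
    have ih' := ih (fun i => y i.succ) a b
    rw [← hF] at ih'
    rw [e2, ← ih', e1]
    have hdeg : F.coeff (g + 1) = 0 := by
      apply coeff_eq_zero_of_natDegree_lt
      rw [hF, HOM.deg g (fun i => y i.succ)]
      omega
    have h1 : ∀ k ∈ range (g + 1 + 1), C (((X - C (y 0)) * F).coeff k) * a ^ (g + 1 - k) * b ^ k =
        C ((X * F).coeff k) * a ^ (g + 1 - k) * b ^ k -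
          C (y 0) * (C (F.coeff k) * a ^ (g + 1 - k) * b ^ k) := by
      intro k _
      rw [sub_mul, coeff_sub, coeff_C_mul, C_sub, C_mul]
      ring
    rw [Finset.sum_congr rfl h1, Finset.sum_sub_distrib, ← Finset.mul_sum]
    have h2 : ∑ k ∈ range (g + 1 + 1), C ((X * F).coeff k) * a ^ (g + 1 - k) * b ^ k =
        b * ∑ k ∈ range (g + 1), C (F.coeff k) * a ^ (g - k) * b ^ k := by
      rw [Finset.sum_range_succ', Finset.mul_sum]
      simp only [coeff_X_mul, coeff_X_mul_zero, C_0, zero_mul, add_zero]
      apply Finset.sum_congr rfl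
      intro k _
      rw [Nat.add_sub_add_right, pow_succ]
      ring
    have h3 : ∑ k ∈ range (g + 1 + 1), C (F.coeff k) * a ^ (g + 1 - k) * b ^ k =
        a * ∑ k ∈ range (g + 1), C (F.coeff k) * a ^ (g - k) * b ^ k := by
      rw [Finset.sum_range_succ, hdeg, C_0, zero_mul, zero_mul, add_zero, Finset.mul_sum]
      apply Finset.sum_congr rfl
      intro k hk
      have : g + 1 - k = (g - k) + 1 := by
        have := Finset.mem_range.1 hk
        omega
      rw [this, pow_succ]
      ring
    rw [h2, h3]
    ring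

end Pool.Agent.VIR
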