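import Pool.Agent.VIR.St

/-!
# Virtual curves: the inverse of `An` modulo `X^(K+1)`
-/

set_option autoImplicit false

namespace Pool.Agent.VIR

open Polynomial Finset

namespace INV

theorem coeff_tr (K : ℕ) (ℓ : ℕ → ℤ) {j : ℕ} (hj : j ≤ K) : (tr K ℓ).coeff j = ℓ j := by
  unfold tr
  rw [finsetSum_coeff]
  simp only [coeff_C_mul, coeff_X_pow]
  rw [sum_eq_single j]
  · simp
  · intro b _ hb
    rw [if_neg (Ne.symm hb), mul_zero]
  · intro h
    exact absurd (mem_range.2 (by omega)) h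

theorem coeff_zero_An (R : ℕ) (n : ℕ → ℕ) : (An R n).coeff 0 = 1 := by
  rw [coeff_zero_eq_eval_zero]
  unfold An
  rw [eval_prod]
  refine prod_eq_one fun r hr => ?_
  have hr' := (mem_Icc.1 hr).1
  rw [eval_pow, eval_sub, eval_one, eval_pow, eval_X, zero_pow (by omega), sub_zero, one_pow]

end INV

open INV in
theorem t_INV : S_INV := by
  intro R n
  have hc : PowerSeries.constantCoeff ((An R n : ℤ[X]) : PowerSeries ℤ) = ((1 : ℤˣ) : ℤ) := by
    rw [← PowerSeries.coeff_zero_eq_constantCoeff_apply, Polynomial.coeff_coe, coeff_zero_An]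
    rfl
  have hG := PowerSeries.mul_invOfUnit ((An R n : ℤ[X]) : PowerSeries ℤ) 1 hc
  set G := PowerSeries.invOfUnit ((An R n : ℤ[X]) : PowerSeries ℤ) 1 with hGd
  refine ⟨fun a => PowerSeries.coeff a G, fun K => ?_⟩
  rw [X_pow_dvd_iff]
  intro d hd
  rw [coeff_sub, coeff_mul, sub_eq_zero]
  have h1 := congrArg (PowerSeries.coeff d) hG
  rw [PowerSeries.coeff_mul, PowerSeries.coeff_one] at h1
  rw [coeff_one]
  refine Eq.trans (sum_congr rfl fun x hx => ?_) (h1.trans ?_)
  · have hx' := mem_antidiagonal.1 hx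
    rw [Polynomial.coeff_coe, coeff_tr K _ (by omega)]
  · rfl

end Pool.Agent.VIR
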