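import Pool.Agent.VIR.St

/-!
# Virtual curves: the logarithm of `AC`
-/

set_option autoImplicit false

namespace Pool.Agent.VIR

open Polynomial Finset

namespace LGA

theorem hasSum_one {r : ℕ} (hr : 1 ≤ r) (m : ℕ) {T : ℂ} (hT : ‖T‖ < 1) :
    HasSum (fun j : ℕ => if r ∣ j then ((r * m : ℕ) : ℂ) / j * T ^ j else 0)
      (-(m : ℂ) * Complex.log (1 - T ^ r)) := by
  have hr0 : (r : ℂ) ≠ 0 := by
    have : r ≠ 0 := by omega
    exact_mod_cast this
  have hz : ‖T ^ r‖ < 1 := by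
    rw [norm_pow]
    exact pow_lt_one₀ (norm_nonneg _) hT (by omega)
  have h1 := (Complex.hasSum_taylorSeries_neg_log hz).mul_left (m : ℂ)
  have hinj : Function.Injective (fun k : ℕ => r * k) := fun a b h =>
    Nat.eq_of_mul_eq_mul_left (by omega) h
  rw [← hinj.hasSum_iff]
  · have h2 : (m : ℂ) * -Complex.log (1 - T ^ r) = -(m : ℂ) * Complex.log (1 - T ^ r) := by ring
    rw [h2] at h1
    refine h1.congr_fun ?_ |> fun h => h
    intro k
    simp only [Function.comp, dvd_mul_right, if_true]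
    rcases Nat.eq_zero_or_pos k with rfl | hk
    · simp
    · have hk0 : (k : ℂ) ≠ 0 := by exact_mod_cast (by omega : k ≠ 0)
      push_cast
      rw [← pow_mul]
      field_simp
  · intro x hx
    rw [if_neg]
    rintro ⟨k, rfl⟩
    exact hx ⟨k, rfl⟩

theorem hasSum_all (R : ℕ) (n : ℕ → ℕ) {T : ℂ} (hT : ‖T‖ < 1) :
    HasSum (fun j : ℕ => ((sg R n j : ℂ) / j) * T ^ j)
      (∑ r ∈ Icc 1 R, -(n r : ℂ) * Complex.log (1 - T ^ r)) := by
  have h := hasSum_sum (s := Icc 1 R) (fun r hr => hasSum_one (Finset.mem_Icc.1 hr).1 (n r) hT)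
  convert h using 2 with j
  rw [← Finset.sum_filter, ← Finset.sum_mul, ← Finset.sum_div]
  unfold sg
  push_cast
  rfl

end LGA

theorem t_LGA : S_LGA := by
  intro R n T hT
  have h := LGA.hasSum_all R n hT
  refine ⟨h.summable.norm, ?_⟩
  rw [h.tsum_eq, Complex.exp_sum]
  unfold AC
  rw [← Finset.prod_mul_distrib]
  apply Finset.prod_eq_one
  intro r hr
  have hz : ‖T ^ r‖ < 1 := by
    rw [norm_pow]
    exact pow_lt_one₀ (norm_nonneg _) hT (by have := (Finset.mem_Icc.1 hr).1; omega)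
  have hne : (1 : ℂ) - T ^ r ≠ 0 := by
    intro h0
    have h1 : T ^ r = 1 := (sub_eq_zero.1 h0).symm
    rw [h1, norm_one] at hz
    exact lt_irrefl _ hz
  have h2 : -(n r : ℂ) * Complex.log (1 - T ^ r) = -((n r : ℂ) * Complex.log (1 - T ^ r)) := by ring
  rw [h2, Complex.exp_neg, Complex.exp_nat_mul, Complex.exp_log hne]
  exact mul_inv_cancel₀ (pow_ne_zero _ hne)

end Pool.Agent.VIR
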