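import Pool.Agent.VIR.St

/-!
# Module LGM: the logarithm of `Rm`
-/

set_option autoImplicit false

namespace Pool.Agent.VIR

open Polynomial Finset

namespace LGM

theorem exp_neg_log {w : ℂ} (hw : ‖w‖ < 1) : (1 - w) * Complex.exp (-Complex.log (1 - w)) = 1 := by
  have h : (1 : ℂ) - w ≠ 0 := by
    intro h
    have h1 : w = 1 := (sub_eq_zero.1 h).symm
    rw [h1, norm_one] at hw
    exact lt_irrefl _ hw
  rw [Complex.exp_neg, Complex.exp_log h, mul_inv_cancel₀ h]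

/-- the point `e^(iφ)` -/
noncomputable def ep (φ : ℝ) : ℂ := Complex.exp (φ * Complex.I)

theorem norm_ep (φ : ℝ) : ‖ep φ‖ = 1 := by
  unfold ep
  exact Complex.norm_exp_ofReal_mul_I φ

theorem ep_pow (φ : ℝ) (j : ℕ) : ep φ ^ j = ep (j * φ) := by
  unfold ep
  rw [← Complex.exp_nat_mul]
  congr 1
  push_cast
  ring

theorem ep_add_neg (φ : ℝ) : ep φ + ep (-φ) = ((2 * Real.cos φ : ℝ) : ℂ) := by
  unfold ep
  push_cast
  rw [Complex.two_cos]

theorem ep_mul_neg (φ : ℝ) : ep φ * ep (-φ) = 1 := by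
  unfold ep
  rw [← Complex.exp_add]
  have : (φ : ℂ) * Complex.I + ((-φ : ℝ) : ℂ) * Complex.I = 0 := by
    push_cast
    ring
  rw [this, Complex.exp_zero]

theorem factor (φ : ℝ) (y : ℂ) : 1 - ((2 * Real.cos φ : ℝ) : ℂ) * y + y ^ 2 =
    (1 - ep φ * y) * (1 - ep (-φ) * y) := by
  rw [← ep_add_neg]
  linear_combination (-y ^ 2) * ep_mul_neg φ

/-- the sum of the two logarithms -/
noncomputable def L2 (φ : ℝ) (y : ℂ) : ℂ :=
  -Complex.log (1 - ep φ * y) + -Complex.log (1 - ep (-φ) * y)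

theorem hasSum_L2 (φ : ℝ) {y : ℂ} (hy : ‖y‖ < 1) :
    HasSum (fun j : ℕ => ((2 * Real.cos (j * φ) : ℝ) : ℂ) / j * y ^ j) (L2 φ y) := by
  have h1 : ‖ep φ * y‖ < 1 := by rw [norm_mul, norm_ep, one_mul]; exact hy
  have h2 : ‖ep (-φ) * y‖ < 1 := by rw [norm_mul, norm_ep, one_mul]; exact hy
  have h3 := (Complex.hasSum_taylorSeries_neg_log h1).add
    (Complex.hasSum_taylorSeries_neg_log h2)
  have e : (fun j : ℕ => ((2 * Real.cos (j * φ) : ℝ) : ℂ) / j * y ^ j) =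
      fun j : ℕ => (ep φ * y) ^ j / (j : ℂ) + (ep (-φ) * y) ^ j / (j : ℂ) := by
    funext j
    rw [← ep_add_neg, mul_pow, mul_pow, ep_pow, ep_pow]
    have : (j : ℝ) * -φ = -(j * φ) := by ring
    rw [this]
    ring
  rw [e]
  exact h3

theorem exp_L2 (φ : ℝ) {y : ℂ} (hy : ‖y‖ < 1) :
    (1 - ((2 * Real.cos φ : ℝ) : ℂ) * y + y ^ 2) * Complex.exp (L2 φ y) = 1 := by
  have h1 : ‖ep φ * y‖ < 1 := by rw [norm_mul, norm_ep, one_mul]; exact hy
  have h2 : ‖ep (-φ) * y‖ < 1 := by rw [norm_mul, norm_ep, one_mul]; exact hy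
  rw [factor, L2, Complex.exp_add]
  calc _ = ((1 - ep φ * y) * Complex.exp (-Complex.log (1 - ep φ * y))) *
        ((1 - ep (-φ) * y) * Complex.exp (-Complex.log (1 - ep (-φ) * y))) := by ring
    _ = 1 := by rw [exp_neg_log h1, exp_neg_log h2, one_mul]

/-- the angle -/
noncomputable def an (M i : ℕ) : ℝ := 2 * Real.pi * i / (2 * M + 1)

/-- the total logarithm -/
noncomputable def LL' (M : ℕ) (m : ℕ → ℕ) (y : ℂ) : ℂ :=
  (m 0 : ℂ) * -Complex.log (1 - y) + ∑ i ∈ Icc 1 M, (m i : ℂ) * L2 (an M i) y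

theorem mu_eq (M : ℕ) (m : ℕ → ℕ) (j : ℕ) :
    mu M m j = m 0 + ∑ i ∈ Icc 1 M, (m i : ℝ) * (2 * Real.cos (j * an M i)) := by
  unfold mu an
  congr 1
  refine Finset.sum_congr rfl fun i _ => ?_
  have : 2 * Real.pi * i * j / (2 * M + 1) = j * (2 * Real.pi * i / (2 * M + 1)) := by ring
  rw [this]
  ring

theorem hasSum_total (M : ℕ) (m : ℕ → ℕ) {y : ℂ} (hy : ‖y‖ < 1) :
    HasSum (fun j : ℕ => ((mu M m j : ℂ) / j) * y ^ j) (LL' M m y) := by
  have h1 := (Complex.hasSum_taylorSeries_neg_log hy).mul_left (m 0 : ℂ)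
  have h2 : HasSum (fun j : ℕ => ∑ i ∈ Icc 1 M,
      (m i : ℂ) * (((2 * Real.cos (j * an M i) : ℝ) : ℂ) / j * y ^ j))
      (∑ i ∈ Icc 1 M, (m i : ℂ) * L2 (an M i) y) :=
    hasSum_sum fun i _ => (hasSum_L2 (an M i) hy).mul_left (m i : ℂ)
  have e : (fun j : ℕ => ((mu M m j : ℂ) / j) * y ^ j) =
      fun j : ℕ => (m 0 : ℂ) * (y ^ j / (j : ℂ)) + ∑ i ∈ Icc 1 M,
        (m i : ℂ) * (((2 * Real.cos (j * an M i) : ℝ) : ℂ) / j * y ^ j) := by
    funext j
    rw [mu_eq]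
    push_cast
    rw [add_div, add_mul, Finset.sum_div, Finset.sum_mul]
    congr 1
    · ring
    · refine Finset.sum_congr rfl fun i _ => ?_
      ring
  rw [e]
  exact h1.add h2

theorem exp_total (M : ℕ) (m : ℕ → ℕ) {y : ℂ} (hy : ‖y‖ < 1) :
    ((1 - y) ^ m 0 * ∏ i ∈ Icc 1 M,
      (1 - ((2 * Real.cos (an M i) : ℝ) : ℂ) * y + y ^ 2) ^ m i) *
      Complex.exp (LL' M m y) = 1 := by
  unfold LL'
  rw [Complex.exp_add, Complex.exp_sum, Complex.exp_nat_mul]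
  have h1 : ∏ i ∈ Icc 1 M, Complex.exp ((m i : ℂ) * L2 (an M i) y) =
      ∏ i ∈ Icc 1 M, Complex.exp (L2 (an M i) y) ^ m i :=
    Finset.prod_congr rfl fun i _ => Complex.exp_nat_mul _ _
  rw [h1]
  calc _ = ((1 - y) * Complex.exp (-Complex.log (1 - y))) ^ m 0 *
        ∏ i ∈ Icc 1 M, ((1 - ((2 * Real.cos (an M i) : ℝ) : ℂ) * y + y ^ 2) *
          Complex.exp (L2 (an M i) y)) ^ m i := by
        rw [mul_pow, Finset.prod_congr rfl fun i _ => mul_pow _ _ (m i),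
          Finset.prod_mul_distrib]
        ring
    _ = 1 := by
        rw [exp_neg_log hy, one_pow, one_mul]
        refine Finset.prod_eq_one fun i _ => ?_
        rw [exp_L2 _ hy, one_pow]

theorem abs_mu_le (M : ℕ) (m : ℕ → ℕ) (j : ℕ) :
    |mu M m j| ≤ m 0 + ∑ i ∈ Icc 1 M, (m i : ℝ) * 2 := by
  rw [mu_eq]
  refine (abs_add_le _ _).trans ?_
  rw [abs_of_nonneg (Nat.cast_nonneg (m 0))]
  refine add_le_add le_rfl ((Finset.abs_sum_le_sum_abs _ _).trans ?_)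
  refine Finset.sum_le_sum fun i _ => ?_
  rw [abs_mul, abs_of_nonneg (Nat.cast_nonneg (m i)), abs_mul, abs_two]
  have := Real.abs_cos_le_one (j * an M i)
  have h : (0 : ℝ) ≤ m i := Nat.cast_nonneg _
  nlinarith

theorem deg (ρ : ℝ) (M : ℕ) (m : ℕ → ℕ) :
    (Rm ρ M m).natDegree ≤ m 0 + 2 * ∑ i ∈ Icc 1 M, m i := by
  unfold Rm
  refine natDegree_mul_le.trans (add_le_add ?_ ?_)
  · refine natDegree_pow_le.trans ?_
    have h : (1 - C ρ⁻¹ * X : ℝ[X]).natDegree ≤ 1 := by compute_degree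
    calc m 0 * (1 - C ρ⁻¹ * X : ℝ[X]).natDegree ≤ m 0 * 1 := Nat.mul_le_mul_left _ h
      _ = m 0 := mul_one _
  · refine (natDegree_prod_le _ _).trans ?_
    rw [Finset.mul_sum]
    refine Finset.sum_le_sum fun i _ => ?_
    refine natDegree_pow_le.trans ?_
    have h : (1 - C (2 * Real.cos (2 * Real.pi * i / (2 * M + 1)) * ρ⁻¹) * X +
        C (ρ⁻¹ ^ 2) * X ^ 2 : ℝ[X]).natDegree ≤ 2 := by compute_degree
    calc _ ≤ m i * 2 := Nat.mul_le_mul_left _ h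
      _ = 2 * m i := mul_comm _ _

theorem aeval_Rm (ρ : ℝ) (M : ℕ) (m : ℕ → ℕ) (T : ℂ) :
    aeval T (Rm ρ M m) = (1 - T / ρ) ^ m 0 * ∏ i ∈ Icc 1 M,
      (1 - ((2 * Real.cos (an M i) : ℝ) : ℂ) * (T / ρ) + (T / ρ) ^ 2) ^ m i := by
  unfold Rm an
  simp only [map_mul, map_pow, map_sub, map_one, map_prod, map_add, aeval_C, aeval_X,
    Complex.coe_algebraMap]
  congr 1
  · congr 1
    push_cast
    ring
  · refine Finset.prod_congr rfl fun i _ => ?_
    congr 1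
    push_cast
    ring

end LGM

open LGM

theorem t_LGM : S_LGM := by
  intro ρ M m hρ
  refine ⟨deg ρ M m, fun T hT => ?_⟩
  have hy : ‖T / (ρ : ℂ)‖ < 1 := by
    rw [norm_div, Complex.norm_real, Real.norm_eq_abs, abs_of_pos hρ, div_lt_one hρ]
    exact hT
  have hs := hasSum_total M m hy
  refine ⟨?_, ?_⟩
  · have hg : Summable (fun j : ℕ => (m 0 + ∑ i ∈ Icc 1 M, (m i : ℝ) * 2) *
        ‖T / (ρ : ℂ)‖ ^ j) :=
      (summable_geometric_of_lt_one (norm_nonneg _) hy).mul_left _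
    refine Summable.of_nonneg_of_le (fun _ => norm_nonneg _) (fun j => ?_) hg
    rw [norm_mul, norm_pow, norm_div, Complex.norm_real, Real.norm_eq_abs, Complex.norm_natCast]
    refine mul_le_mul_of_nonneg_right ?_ (by positivity)
    refine le_trans ?_ (abs_mu_le M m j)
    rcases Nat.eq_zero_or_pos j with rfl | hj
    · simp
    · exact div_le_self (abs_nonneg _) (by exact_mod_cast hj)
  · rw [hs.tsum_eq, aeval_Rm]
    exact exp_total M m hy

end Pool.Agent.VIR
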