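import Pool.Agent.VIR.St2

/-!
# Virtual curves: module LIM (diagonal argument)
-/

set_option autoImplicit false

namespace Pool.Agent.VIR

open Polynomial Finset

theorem t_LIM (hSTP : S_STP) : S_LIM := by
  classical
  intro q β hq hβ hTh
  have hS := hSTP q β hq hβ hTh
  set s : ℝ := √(q : ℝ) with hs
  let Q : ℕ → ℕ → Prop := fun g R => 1 ≤ R ∧ ∃ (θ : Fin g → ℝ) (P : ℤ[X]) (B : ℕ → ℕ),
    VC q g θ P B ∧ ∀ r ∈ Icc 1 R, |(B r : ℝ) - β r * g| ≤ (β r + 2 * s ^ r) / R * g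
  have hQ : ∀ R : ℕ, 1 ≤ R → ∃ g₀ : ℕ, ∀ g : ℕ, g₀ ≤ g → Q g R := by
    intro R hR
    obtain ⟨g₀, h⟩ := hS R hR
    exact ⟨g₀, fun g hg => ⟨hR, h g hg⟩⟩
  let Rg : ℕ → ℕ := fun g => Nat.findGreatest (Q g) g
  obtain ⟨a, ha⟩ := hQ 1 le_rfl
  have hspec : ∀ g : ℕ, max a 1 ≤ g → Q g (Rg g) := by
    intro g hg
    exact Nat.findGreatest_spec (P := Q g) (m := 1) ((le_max_right _ _).trans hg)
      (ha g ((le_max_left _ _).trans hg))
  have hlim : Filter.Tendsto Rg Filter.atTop Filter.atTop := by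
    rw [Filter.tendsto_atTop]
    intro R
    obtain ⟨b, hb⟩ := hQ (R + 1) (by omega)
    filter_upwards [Filter.eventually_ge_atTop (max b (R + 1))] with g hg
    have h1 : R + 1 ≤ Rg g := Nat.le_findGreatest ((le_max_right _ _).trans hg)
      (hb g ((le_max_left _ _).trans hg))
    omega
  have hex : ∀ g : ℕ, ∃ p : (Fin g → ℝ) × ℤ[X] × (ℕ → ℕ), max a 1 ≤ g →
      VC q g p.1 p.2.1 p.2.2 ∧
      ∀ r ∈ Icc 1 (Rg g), |(p.2.2 r : ℝ) - β r * g| ≤ (β r + 2 * s ^ r) / (Rg g : ℕ) * g := by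
    intro g
    by_cases hg : max a 1 ≤ g
    · obtain ⟨-, θ, P, B, h1, h2⟩ := hspec g hg
      exact ⟨(θ, P, B), fun _ => ⟨h1, h2⟩⟩
    · exact ⟨(fun _ => 0, 0, fun _ => 0), fun h => absurd h hg⟩
  choose p hp using hex
  refine ⟨max a 1, fun g => (p g).1, fun g => (p g).2.1, fun g => (p g).2.2,
    fun g hg => (hp g hg).1, ?_⟩
  intro r hr
  rw [tendsto_iff_dist_tendsto_zero]
  have hz : Filter.Tendsto (fun g : ℕ => (β r + 2 * s ^ r) / ((Rg g : ℕ) : ℝ)) Filter.atTop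
      (nhds 0) :=
    Filter.Tendsto.div_atTop tendsto_const_nhds (tendsto_natCast_atTop_atTop.comp hlim)
  refine squeeze_zero' (Filter.Eventually.of_forall fun g => dist_nonneg) ?_ hz
  filter_upwards [Filter.eventually_ge_atTop (max a 1), hlim.eventually_ge_atTop r] with g hg hr2
  have hg1 : (0 : ℝ) < g := by
    have : 1 ≤ g := (le_max_right _ _).trans hg
    exact_mod_cast this
  have h1 := (hp g hg).2 r (Finset.mem_Icc.2 ⟨hr, hr2⟩)
  rw [Real.dist_eq]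
  have e : ((p g).2.2 r : ℝ) / g - β r = (((p g).2.2 r : ℝ) - β r * g) / g := by
    field_simp
  show |((p g).2.2 r : ℝ) / g - β r| ≤ _
  rw [e, abs_div, abs_of_pos hg1, div_le_iff₀ hg1]
  exact h1

end Pool.Agent.VIR
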