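import Pool.Agent.VIR.St

/-!
# MAI: the main construction
-/

set_option autoImplicit false

namespace Pool.Agent.VIR

open Polynomial Finset

namespace MAI

theorem coeff_tr (K : ℕ) (ℓ : ℕ → ℤ) {a : ℕ} (ha : a ≤ K) : (tr K ℓ).coeff a = ℓ a := by
  unfold tr
  rw [finsetSum_coeff]
  simp only [coeff_C_mul_X_pow]
  rw [Finset.sum_ite_eq (range (K + 1)) a]
  rw [if_pos (mem_range.2 (by omega))]

/-- two inverses of `An` modulo `X^(K+1)` have the same coefficients -/
theorem coeff_eq {K : ℕ} {A : ℤ[X]} {ℓ : ℕ → ℤ} {Rp : ℝ[X]}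
    (h1 : (X : ℝ[X]) ^ (K + 1) ∣ A.map (Int.castRingHom ℝ) * Rp - 1)
    (h2 : (X : ℤ[X]) ^ (K + 1) ∣ A * tr K ℓ - 1) {a : ℕ} (ha : a ≤ K) :
    Rp.coeff a = (ℓ a : ℝ) := by
  have h3 : (X : ℝ[X]) ^ (K + 1) ∣ A.map (Int.castRingHom ℝ) * (tr K ℓ).map (Int.castRingHom ℝ) - 1 := by
    have := Polynomial.map_dvd (Int.castRingHom ℝ) h2
    simpa using this
  have h4 : Rp - (tr K ℓ).map (Int.castRingHom ℝ) =
      - (Rp * (A.map (Int.castRingHom ℝ) * (tr K ℓ).map (Int.castRingHom ℝ) - 1)) +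
        (A.map (Int.castRingHom ℝ) * Rp - 1) * (tr K ℓ).map (Int.castRingHom ℝ) := by ring
  have h5 : (X : ℝ[X]) ^ (K + 1) ∣ Rp - (tr K ℓ).map (Int.castRingHom ℝ) := by
    rw [h4]
    exact dvd_add ((dvd_mul_of_dvd_right h3 _).neg_right) (dvd_mul_of_dvd_left h1 _)
  rw [X_pow_dvd_iff] at h5
  have h6 := h5 a (by omega)
  rw [coeff_sub, coeff_map, coeff_tr K ℓ ha] at h6
  simpa [sub_eq_zero] using h6

theorem geom {y : ℝ} (h0 : 0 < y) (h1 : y < 1) (m : ℕ) :
    ∑ j ∈ range m, y ^ (m - j) ≤ 1 / (1 - y) := by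
  have h2 : ∑ j ∈ range m, y ^ (m - j) = ∑ j ∈ range m, y ^ (j + 1) := by
    rw [← Finset.sum_range_reflect]
    apply Finset.sum_congr rfl
    intro j hj
    congr 1
    have := mem_range.1 hj
    omega
  rw [h2]
  have h3 : ∑ j ∈ range m, y ^ (j + 1) ≤ ∑' j : ℕ, y ^ j := by
    calc ∑ j ∈ range m, y ^ (j + 1) ≤ ∑ j ∈ range m, y ^ j :=
          Finset.sum_le_sum fun j _ => pow_le_pow_of_le_one h0.le h1.le (by omega)
      _ ≤ ∑' j : ℕ, y ^ j := (summable_geometric_of_lt_one h0.le h1).sum_le_tsum _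
          (fun j _ => by positivity)
  rw [tsum_geometric_of_lt_one h0.le h1] at h3
  simpa using h3

/-- the growth conditions -/
theorem large (s c D : ℝ) (q R : ℕ) (hs : 1 < s) (hc : 0 < c) (g₁ : ℕ) :
    ∃ g₂ : ℕ, 1 ≤ g₂ ∧ ∀ g : ℕ, g₂ ≤ g → g₁ ≤ g ∧ R ≤ ⌈2 / Real.log s * Real.log g⌉₊ ∧
      ⌈2 / Real.log s * Real.log g⌉₊ < g ∧ 20 * (g : ℝ) ≤ s ^ ⌈2 / Real.log s * Real.log g⌉₊ ∧
      D * Real.exp (-c) ^ ⌈2 / Real.log s * Real.log g⌉₊ / (1 - Real.exp (-c)) ≤ 1 / 4 ∧
      4 * q * D ≤ Real.exp (c * g) := by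
  have hls : 0 < Real.log s := Real.log_pos hs
  have hlog : Filter.Tendsto (fun g : ℕ => Real.log (g : ℝ)) Filter.atTop Filter.atTop :=
    Real.tendsto_log_atTop.comp tendsto_natCast_atTop_atTop
  have hlog' : Filter.Tendsto (fun g : ℕ => 2 / Real.log s * Real.log (g : ℝ)) Filter.atTop
      Filter.atTop := hlog.const_mul_atTop (by positivity)
  have hK : Filter.Tendsto (fun g : ℕ => ⌈2 / Real.log s * Real.log (g : ℝ)⌉₊) Filter.atTop
      Filter.atTop := tendsto_nat_ceil_atTop.comp hlog'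
  have e1 : ∀ᶠ g : ℕ in Filter.atTop, g₁ ≤ g := Filter.eventually_ge_atTop g₁
  have e2 : ∀ᶠ g : ℕ in Filter.atTop, R ≤ ⌈2 / Real.log s * Real.log (g : ℝ)⌉₊ :=
    hK.eventually_ge_atTop R
  have e3 : ∀ᶠ g : ℕ in Filter.atTop, 2 / Real.log s * Real.log (g : ℝ) + 1 < g := by
    have h1 : (fun x : ℝ => Real.log x) =o[Filter.atTop] (fun x : ℝ => x) := Real.isLittleO_log_id_atTop
    have h2 : ∀ᶠ x : ℝ in Filter.atTop, ‖Real.log x‖ ≤ (Real.log s / 4) * ‖x‖ :=
      h1.def (by positivity)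
    have h3 : ∀ᶠ g : ℕ in Filter.atTop, ‖Real.log (g : ℝ)‖ ≤ (Real.log s / 4) * ‖(g : ℝ)‖ :=
      tendsto_natCast_atTop_atTop.eventually h2
    filter_upwards [h3, Filter.eventually_ge_atTop 3] with g hg hg3
    rw [Real.norm_eq_abs, Real.norm_eq_abs, abs_of_nonneg (by positivity : (0 : ℝ) ≤ g)] at hg
    have hg3' : (3 : ℝ) ≤ g := by exact_mod_cast hg3
    have h4 : Real.log g ≤ Real.log s / 4 * g := (le_abs_self _).trans hg
    have h5 : 2 / Real.log s * Real.log g ≤ 2 / Real.log s * (Real.log s / 4 * g) :=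
      mul_le_mul_of_nonneg_left h4 (by positivity)
    have h6 : 2 / Real.log s * (Real.log s / 4 * g) = g / 2 := by
      field_simp
      norm_num
    linarith
  have e4 : ∀ᶠ g : ℕ in Filter.atTop, 20 ≤ g := Filter.eventually_ge_atTop 20
  have e5 : ∀ᶠ g : ℕ in Filter.atTop,
      D * Real.exp (-c) ^ ⌈2 / Real.log s * Real.log (g : ℝ)⌉₊ / (1 - Real.exp (-c)) ≤ 1 / 4 := by
    have hy : Real.exp (-c) < 1 := by
      rw [Real.exp_lt_one_iff]
      linarith
    have h1 : Filter.Tendsto (fun k : ℕ => D * Real.exp (-c) ^ k / (1 - Real.exp (-c))) Filter.atTop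
        (nhds (D * 0 / (1 - Real.exp (-c)))) :=
      ((tendsto_pow_atTop_nhds_zero_of_lt_one (Real.exp_pos _).le hy).const_mul D).div_const _
    have h2 : Filter.Tendsto (fun g : ℕ =>
        D * Real.exp (-c) ^ ⌈2 / Real.log s * Real.log (g : ℝ)⌉₊ / (1 - Real.exp (-c))) Filter.atTop
        (nhds (D * 0 / (1 - Real.exp (-c)))) := h1.comp hK
    have h3 : D * 0 / (1 - Real.exp (-c)) < 1 / 4 := by
      rw [mul_zero, zero_div]
      norm_num
    filter_upwards [h2.eventually_lt_const h3] with g hg using hg.le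
  have e6 : ∀ᶠ g : ℕ in Filter.atTop, 4 * q * D ≤ Real.exp (c * g) := by
    have h1 : Filter.Tendsto (fun g : ℕ => Real.exp (c * (g : ℝ))) Filter.atTop Filter.atTop :=
      Real.tendsto_exp_atTop.comp (tendsto_natCast_atTop_atTop.const_mul_atTop hc)
    exact h1.eventually_ge_atTop _
  obtain ⟨g₂, hg₂⟩ := Filter.eventually_atTop.1
    (e1.and (e2.and (e3.and (e4.and (e5.and e6)))))
  refine ⟨max g₂ 1, le_max_right _ _, fun g hg => ?_⟩
  obtain ⟨f1, f2, f3, f4, f5, f6⟩ := hg₂ g ((le_max_left _ _).trans hg)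
  have hg20 : (20 : ℝ) ≤ g := by exact_mod_cast f4
  have hlg : 0 ≤ Real.log g := Real.log_nonneg (by linarith)
  refine ⟨f1, f2, ?_, ?_, f5, f6⟩
  · have h1 := Nat.ceil_lt_add_one (a := 2 / Real.log s * Real.log (g : ℝ)) (by positivity)
    have h2 : ((⌈2 / Real.log s * Real.log (g : ℝ)⌉₊ : ℕ) : ℝ) < g := by linarith
    exact_mod_cast h2
  · have h1 : (g : ℝ) ^ 2 ≤ s ^ ⌈2 / Real.log s * Real.log (g : ℝ)⌉₊ := by
      rw [← Real.rpow_natCast s, Real.rpow_def_of_pos (by linarith)]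
      have h2 : (g : ℝ) ^ 2 = Real.exp (2 * Real.log g) := by
        rw [mul_comm, Real.exp_mul, Real.exp_log (by linarith)]
        norm_num
      rw [h2, Real.exp_le_exp]
      have h3 := Nat.le_ceil (2 / Real.log s * Real.log (g : ℝ))
      calc 2 * Real.log g = Real.log s * (2 / Real.log s * Real.log g) := by
            field_simp
        _ ≤ Real.log s * ⌈2 / Real.log s * Real.log (g : ℝ)⌉₊ :=
            mul_le_mul_of_nonneg_left h3 hls.le
    nlinarith

end MAI

theorem t_MAI (hLOW : S_LOW) (hAPX : S_APX) (hH0 : S_H0) (hRND : S_RND) (hINV : S_INV) : S_MAI := by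
  intro q R β hq hβ hTh
  have hs : 1 < √(q : ℝ) := one_lt_sqrt hq
  have hs0 : 0 < √(q : ℝ) := by linarith
  have hls : 0 < Real.log (√(q : ℝ)) := Real.log_pos hs
  obtain ⟨D, c, hD, hc, hlow⟩ := hLOW q R β hq hβ hTh
  obtain ⟨g₁, hg₁, happ⟩ := hAPX q R β (2 / Real.log (√(q : ℝ))) hq hβ hTh
  obtain ⟨g₂, hg₂, hlarge⟩ := MAI.large (√(q : ℝ)) c D q R hs hc g₁
  refine ⟨g₂, hg₂, fun g hg => ?_⟩
  obtain ⟨hgg₁, hRK, hKg, h20, hDK, hqD⟩ := hlarge g hg
  have hg1 : 1 ≤ g := hg₂.trans hg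
  have hlg : 0 ≤ Real.log (g : ℝ) := Real.log_nonneg (by exact_mod_cast hg1)
  have hKc : ((⌈2 / Real.log (√(q : ℝ)) * Real.log (g : ℝ)⌉₊ : ℕ) : ℝ) ≤
      2 / Real.log (√(q : ℝ)) * Real.log g + 1 := (Nat.ceil_lt_add_one (by positivity)).le
  generalize ⌈2 / Real.log (√(q : ℝ)) * Real.log (g : ℝ)⌉₊ = K at hRK hKg h20 hDK hKc
  obtain ⟨Rp, hRdeg, hRdvd, hRapp⟩ := happ g hgg₁ K hKc
  obtain ⟨h₀, hh₀, hh₀deg⟩ := hH0 q g K Rp (by omega) hKg hRdeg
  obtain ⟨ℓ, hℓ⟩ := hINV R (nn β g)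
  have hcoef : ∀ a ∈ range (K + 1), C (Rp.coeff a) * (Dk q (g - a)).map (Int.castRingHom ℝ) =
      C (ℓ a : ℝ) * (Dk q (g - a)).map (Int.castRingHom ℝ) := fun a ha => by
    rw [MAI.coeff_eq hRdvd (hℓ K) (Nat.lt_succ_iff.1 (mem_range.1 ha))]
  rw [Finset.sum_congr rfl hcoef] at hh₀deg
  choose! p hpm hpd hpb using (fun j => hlow g j)
  obtain ⟨δ, z, hδ, hzdeg, hz⟩ := hRND (g - K) p _
    (fun j hj => ⟨hpm j (by omega), hpd j (by omega)⟩) hh₀deg
  refine ⟨K, ℓ, z + C ((1 - (HH q g K ℓ z).coeff 0) % q), hRK, hKg, h20, ?_, hℓ K, ?_, ?_⟩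
  · refine (degree_add_le _ _).trans_lt (max_lt hzdeg (degree_C_le.trans_lt ?_))
    have : 0 < g - K := by omega
    exact_mod_cast this
  · have h1 : (HH q g K ℓ (z + C ((1 - (HH q g K ℓ z).coeff 0) % q))).coeff 0 =
        (HH q g K ℓ z).coeff 0 + (1 - (HH q g K ℓ z).coeff 0) % q := by
      unfold HH
      simp only [coeff_add, coeff_C_zero]
      ring
    rw [h1]
    refine ⟨-((1 - (HH q g K ℓ z).coeff 0) / q), ?_⟩
    have h2 := Int.emod_add_mul_ediv (1 - (HH q g K ℓ z).coeff 0) q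
    linear_combination h2
  · intro θ
    have ht : |(((1 - (HH q g K ℓ z).coeff 0) % q : ℤ) : ℝ)| ≤ q := by
      have h1 : 0 ≤ (1 - (HH q g K ℓ z).coeff 0) % q := Int.emod_nonneg _ (by omega)
      have h2 : (1 - (HH q g K ℓ z).coeff 0) % q < q := Int.emod_lt_of_pos _ (by omega)
      rw [abs_of_nonneg (by exact_mod_cast h1)]
      exact_mod_cast h2.le
    generalize (1 - (HH q g K ℓ z).coeff 0) % (q : ℤ) = t at ht ⊢
    have hpt : ‖pt q θ‖ < 1 := by
      rw [norm_pt]
      exact inv_lt_one_of_one_lt₀ hs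
    have hA0 : AC R (nn β g) (pt q θ) ≠ 0 := AC_ne_zero R _ hpt
    have hA : 0 < ‖AC R (nn β g) (pt q θ)‖ := norm_pos_iff.2 hA0
    have hsg : 0 < √(q : ℝ) ^ g := by positivity
    -- the value of the polynomial
    have hval : aeval (2 * √(q : ℝ) * Real.cos θ) (HH q g K ℓ (z + C t)) =
        2 * √(q : ℝ) ^ g * (Complex.exp (g * θ * Complex.I) * aeval (pt q θ) Rp).re -
          ∑ j ∈ range (g - K), δ j * (p j).eval (2 * √(q : ℝ) * Real.cos θ) + t := by
      have h1 := congrArg (Polynomial.eval (2 * √(q : ℝ) * Real.cos θ)) hz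
      rw [eval_sub, eval_sub, hh₀ θ, eval_finsetSum, eval_finsetSum] at h1
      simp only [eval_mul, eval_C] at h1
      have h2 : aeval (2 * √(q : ℝ) * Real.cos θ) (HH q g K ℓ (z + C t)) =
          ∑ a ∈ range (K + 1), (ℓ a : ℝ) *
            eval (2 * √(q : ℝ) * Real.cos θ) ((Dk q (g - a)).map (Int.castRingHom ℝ)) +
          eval (2 * √(q : ℝ) * Real.cos θ) (z.map (Int.castRingHom ℝ)) + t := by
        have h3 : ∀ F : ℤ[X], aeval (2 * √(q : ℝ) * Real.cos θ) F =
            eval (2 * √(q : ℝ) * Real.cos θ) (F.map (Int.castRingHom ℝ)) := fun F => by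
          rw [aeval_def, eval₂_eq_eval_map]
          rfl
        rw [h3]
        unfold HH
        rw [Polynomial.map_add, Polynomial.map_add, Polynomial.map_sum, eval_add, eval_add,
          eval_finsetSum, Polynomial.map_C, eval_C]
        simp only [Polynomial.map_mul, Polynomial.map_C, eval_mul, eval_C, Int.coe_castRingHom]
        ring
      rw [h2]
      linear_combination -h1
    -- the three bounds
    have b1 : |2 * √(q : ℝ) ^ g * (Complex.exp (g * θ * Complex.I) * aeval (pt q θ) Rp).re -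
        2 * √(q : ℝ) ^ g * (Complex.exp (g * θ * Complex.I) / AC R (nn β g) (pt q θ)).re| *
          ‖AC R (nn β g) (pt q θ)‖ ≤ √(q : ℝ) ^ g / 4 := by
      rw [← mul_sub, ← Complex.sub_re, abs_mul, abs_of_pos (by positivity)]
      have h1 : Complex.exp (g * θ * Complex.I) * aeval (pt q θ) Rp -
          Complex.exp (g * θ * Complex.I) / AC R (nn β g) (pt q θ) =
          Complex.exp (g * θ * Complex.I) *
            ((AC R (nn β g) (pt q θ) * aeval (pt q θ) Rp - 1) / AC R (nn β g) (pt q θ)) := by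
        field_simp
      have h2 : ‖Complex.exp (g * θ * Complex.I)‖ = 1 := by
        have : (g : ℂ) * θ * Complex.I = ((g * θ : ℝ) : ℂ) * Complex.I := by push_cast; ring
        rw [this, Complex.norm_exp_ofReal_mul_I]
      have h3 : |(Complex.exp (g * θ * Complex.I) * aeval (pt q θ) Rp -
          Complex.exp (g * θ * Complex.I) / AC R (nn β g) (pt q θ)).re| *
          ‖AC R (nn β g) (pt q θ)‖ ≤ 1 / 8 := by
        refine (mul_le_mul_of_nonneg_right (Complex.abs_re_le_norm _) hA.le).trans ?_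
        rw [h1, norm_mul, h2, one_mul, norm_div, div_mul_cancel₀ _ hA.ne']
        exact hRapp _ (norm_pt q θ)
      calc _ = 2 * √(q : ℝ) ^ g * (|(Complex.exp (g * θ * Complex.I) * aeval (pt q θ) Rp -
          Complex.exp (g * θ * Complex.I) / AC R (nn β g) (pt q θ)).re| *
          ‖AC R (nn β g) (pt q θ)‖) := by ring
        _ ≤ 2 * √(q : ℝ) ^ g * (1 / 8) := mul_le_mul_of_nonneg_left h3 (by positivity)
        _ = √(q : ℝ) ^ g / 4 := by ring
    have b2 : |∑ j ∈ range (g - K), δ j * (p j).eval (2 * √(q : ℝ) * Real.cos θ)| *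
        ‖AC R (nn β g) (pt q θ)‖ ≤ √(q : ℝ) ^ g / 8 := by
      have hy0 : 0 < Real.exp (-c) := Real.exp_pos _
      have hy1 : Real.exp (-c) < 1 := by
        rw [Real.exp_lt_one_iff]
        linarith
      calc |∑ j ∈ range (g - K), δ j * (p j).eval (2 * √(q : ℝ) * Real.cos θ)| *
            ‖AC R (nn β g) (pt q θ)‖ 
          ≤ (∑ j ∈ range (g - K), |δ j * (p j).eval (2 * √(q : ℝ) * Real.cos θ)|) *
            ‖AC R (nn β g) (pt q θ)‖ :=
            mul_le_mul_of_nonneg_right (Finset.abs_sum_le_sum_abs _ _) hA.le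
        _ = ∑ j ∈ range (g - K), |δ j| * (|(p j).eval (2 * √(q : ℝ) * Real.cos θ)| *
            ‖AC R (nn β g) (pt q θ)‖) := by
            rw [Finset.sum_mul]
            refine Finset.sum_congr rfl fun j _ => ?_
            rw [abs_mul, mul_assoc]
        _ ≤ ∑ j ∈ range (g - K), 1 / 2 * (D * √(q : ℝ) ^ g * (Real.exp (-c) ^ K *
            Real.exp (-c) ^ (g - K - j))) := by
            refine Finset.sum_le_sum fun j hj => ?_
            have hjg : j < g := by
              have := mem_range.1 hj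
              omega
            refine mul_le_mul (hδ j) ?_ (by positivity) (by norm_num)
            refine (hpb j hjg θ).trans (le_of_eq ?_)
            congr 1
            rw [← pow_add, ← Real.exp_nat_mul]
            congr 1
            have h5 : K + (g - K - j) = g - j := by
              have := mem_range.1 hj
              omega
            rw [h5, Nat.cast_sub hjg.le]
            ring
        _ = √(q : ℝ) ^ g / 2 * (D * Real.exp (-c) ^ K *
            ∑ j ∈ range (g - K), Real.exp (-c) ^ (g - K - j)) := by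
            rw [Finset.mul_sum, Finset.mul_sum]
            refine Finset.sum_congr rfl fun j _ => ?_
            ring
        _ ≤ √(q : ℝ) ^ g / 2 * (D * Real.exp (-c) ^ K * (1 / (1 - Real.exp (-c)))) := by
            refine mul_le_mul_of_nonneg_left (mul_le_mul_of_nonneg_left
              (MAI.geom hy0 hy1 _) (by positivity)) (by positivity)
        _ = √(q : ℝ) ^ g / 2 * (D * Real.exp (-c) ^ K / (1 - Real.exp (-c))) := by
            rw [mul_one_div]
        _ ≤ √(q : ℝ) ^ g / 2 * (1 / 4) := mul_le_mul_of_nonneg_left hDK (by positivity)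
        _ = √(q : ℝ) ^ g / 8 := by ring
    have b3 : |(t : ℝ)| * ‖AC R (nn β g) (pt q θ)‖ ≤ √(q : ℝ) ^ g / 4 := by
      have h1 := hpb 0 (by omega) θ
      have h2 : p 0 = 1 := by
        have h3 := eq_C_of_natDegree_eq_zero (hpd 0 (by omega))
        have h4 : (p 0).coeff 0 = 1 := by
          have := hpm 0 (by omega)
          rw [Monic, leadingCoeff, hpd 0 (by omega)] at this
          exact this
        rw [h3, h4, C_1]
      rw [h2, eval_one, abs_one, one_mul, Nat.cast_zero, sub_zero] at h1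
      calc |(t : ℝ)| * ‖AC R (nn β g) (pt q θ)‖ 
          ≤ q * (D * √(q : ℝ) ^ g * Real.exp (-c * g)) :=
            mul_le_mul ht h1 hA.le (by positivity)
        _ = √(q : ℝ) ^ g / 4 * (4 * q * D * Real.exp (-c * g)) := by ring
        _ ≤ √(q : ℝ) ^ g / 4 * (Real.exp (c * g) * Real.exp (-c * g)) :=
            mul_le_mul_of_nonneg_left (mul_le_mul_of_nonneg_right hqD (Real.exp_pos _).le)
              (by positivity)
        _ = √(q : ℝ) ^ g / 4 := by
            rw [← Real.exp_add]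
            have : c * g + -c * g = 0 := by ring
            rw [this, Real.exp_zero, mul_one]
    rw [le_div_iff₀ hA, hval]
    have h7 : 2 * √(q : ℝ) ^ g * (Complex.exp (g * θ * Complex.I) * aeval (pt q θ) Rp).re -
          ∑ j ∈ range (g - K), δ j * (p j).eval (2 * √(q : ℝ) * Real.cos θ) + t -
        2 * √(q : ℝ) ^ g * (Complex.exp (g * θ * Complex.I) / AC R (nn β g) (pt q θ)).re =
        (2 * √(q : ℝ) ^ g * (Complex.exp (g * θ * Complex.I) * aeval (pt q θ) Rp).re -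
          2 * √(q : ℝ) ^ g * (Complex.exp (g * θ * Complex.I) / AC R (nn β g) (pt q θ)).re) +
        (-(∑ j ∈ range (g - K), δ j * (p j).eval (2 * √(q : ℝ) * Real.cos θ)) + t) := by ring
    rw [h7]
    have h8 := abs_add_le (2 * √(q : ℝ) ^ g * (Complex.exp (g * θ * Complex.I) * aeval (pt q θ) Rp).re -
          2 * √(q : ℝ) ^ g * (Complex.exp (g * θ * Complex.I) / AC R (nn β g) (pt q θ)).re)
      (-(∑ j ∈ range (g - K), δ j * (p j).eval (2 * √(q : ℝ) * Real.cos θ)) + t)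
    have h9 := abs_add_le (-(∑ j ∈ range (g - K), δ j * (p j).eval (2 * √(q : ℝ) * Real.cos θ))) (t : ℝ)
    rw [abs_neg] at h9
    have h10 := mul_le_mul_of_nonneg_right (h8.trans (add_le_add_right h9 _)) hA.le
    have h11 : √(q : ℝ) ^ g / 4 + √(q : ℝ) ^ g / 8 + √(q : ℝ) ^ g / 4 ≤ √(q : ℝ) ^ g := by
      linarith
    refine (h10.trans (le_of_eq ?_)).trans ((add_le_add (add_le_add b1 b2) b3).trans h11)
    ring

end Pool.Agent.VIR
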