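import Pool.Agent.VIR.St2
import Pool.Agent.VIR.P_MAI

/-!
# MAG: the main construction with an Eisenstein polynomial
-/

set_option autoImplicit false

namespace Pool.Agent.VIR

open Polynomial Finset

namespace MAG

theorem HH_add (q g K : ℕ) (ℓ : ℕ → ℤ) (a b : ℤ[X]) : HH q g K ℓ (a + b) = HH q g K ℓ a + b := by
  unfold HH
  ring

theorem crt (q l : ℕ) (hl : l.Prime) (hlq : l ∣ q + 1) :
    ∃ u : ℤ, (q : ℤ) ∣ u - 1 ∧ (l : ℤ) ^ 2 ∣ u - l := by
  have h1 : Nat.Coprime q l := by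
    rw [Nat.coprime_comm, hl.coprime_iff_not_dvd]
    intro h
    have h2 : l ∣ 1 := (Nat.dvd_add_right h).1 hlq
    exact hl.one_lt.ne' (Nat.dvd_one.1 h2)
  have h2 : IsCoprime (q : ℤ) ((l : ℤ) ^ 2) := by
    have := h1.pow_right 2
    have h3 := Nat.isCoprime_iff_coprime.2 this
    push_cast at h3
    exact h3
  obtain ⟨a, b, hab⟩ := h2
  refine ⟨l * (a * q) + b * (l : ℤ) ^ 2, ⟨l * a - a, ?_⟩, ⟨b - l * b, ?_⟩⟩
  · linear_combination hab
  · linear_combination (l : ℤ) * hab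

/-- powers of `l` just above `K` -/
theorem pow_above (K l : ℕ) (hl : 2 ≤ l) (hK : 1 ≤ K) : ∃ k : ℕ, K < l ^ k ∧ l ^ k ≤ l * K := by
  refine ⟨Nat.log l K + 1, Nat.lt_pow_succ_log_self (by omega) K, ?_⟩
  rw [pow_succ, mul_comm]
  exact Nat.mul_le_mul_left _ (Nat.pow_log_le_self l (by omega))

end MAG

theorem t_MAG (hLOG : S_LOG) (hAPG : S_APG) (hH0 : S_H0) (hRND : S_RND) (hINV : S_INV)
    (hSEL : S_SEL) (hCNG : S_CNG) (hEIS : S_EIS) : S_MAG := by
  intro q R β hq hβ hTh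
  have hs : 1 < √(q : ℝ) := one_lt_sqrt hq
  have hs0 : 0 < √(q : ℝ) := by linarith
  have hls : 0 < Real.log (√(q : ℝ)) := Real.log_pos hs
  obtain ⟨R', β', hRR', hR2, hβ', hTh', hsel⟩ := hSEL q R β hq hβ hTh
  obtain ⟨l, hl, hlq⟩ : ∃ l : ℕ, l.Prime ∧ l ∣ q + 1 := Nat.exists_prime_and_dvd (by omega)
  have hl1 : (1 : ℝ) ≤ l := by exact_mod_cast hl.one_lt.le
  obtain ⟨D, c, hD, hc, hlow⟩ := hLOG q R' β' hq hβ' hTh'
  obtain ⟨g₁, hg₁, happ⟩ := hAPG q R' β' (2 / Real.log (√(q : ℝ))) hq hβ' hTh'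
  obtain ⟨g₃, hsel⟩ := hsel (l * (2 / Real.log (√(q : ℝ)) + 2))
  obtain ⟨g₂, hg₂, hlarge⟩ := MAI.large (√(q : ℝ)) c (D * (l : ℝ) ^ 2) q R' hs hc (max g₁ g₃)
  refine ⟨g₂, hg₂, fun g hg => ?_⟩
  obtain ⟨hgg, hRK, hKg, h20, hDK, hqD⟩ := hlarge g hg
  have hg1 : 1 ≤ g := hg₂.trans hg
  have hlg : 0 ≤ Real.log (g : ℝ) := Real.log_nonneg (by exact_mod_cast hg1)
  have hKc : ((⌈2 / Real.log (√(q : ℝ)) * Real.log (g : ℝ)⌉₊ : ℕ) : ℝ) ≤
      2 / Real.log (√(q : ℝ)) * Real.log g + 1 := (Nat.ceil_lt_add_one (by positivity)).le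
  generalize ⌈2 / Real.log (√(q : ℝ)) * Real.log (g : ℝ)⌉₊ = K at hRK hKg h20 hDK hKc
  obtain ⟨k, hk1, hk2⟩ := MAG.pow_above K l hl.two_le (by omega)
  have hN : ((l ^ k : ℕ) : ℝ) ≤ l * (2 / Real.log (√(q : ℝ)) + 2) * (Real.log g + 1) := by
    have h1 : ((l ^ k : ℕ) : ℝ) ≤ l * K := by exact_mod_cast hk2
    have h2 : (l : ℝ) * K ≤ l * (2 / Real.log (√(q : ℝ)) * Real.log g + 1) :=
      mul_le_mul_of_nonneg_left hKc (by positivity)
    have h3 : (0 : ℝ) ≤ 2 / Real.log (√(q : ℝ)) := by positivity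
    refine (h1.trans h2).trans ?_
    rw [mul_assoc]
    refine mul_le_mul_of_nonneg_left ?_ (by positivity)
    nlinarith [mul_nonneg h3 hlg]
  obtain ⟨n, hnβ', hnβ, hn2, hnr⟩ := hsel g ((le_max_right _ _).trans hgg) (l ^ k)
    (Nat.one_le_pow _ _ hl.pos) hN
  obtain ⟨Rp, hRdeg, hRdvd, hRapp⟩ := happ g ((le_max_left _ _).trans hgg) n hnβ' K hKc
  obtain ⟨h₀, hh₀, hh₀deg⟩ := hH0 q g K Rp (by omega) hKg hRdeg
  obtain ⟨ℓ, hℓ⟩ := hINV R' n
  have hcoef : ∀ a ∈ range (K + 1), C (Rp.coeff a) * (Dk q (g - a)).map (Int.castRingHom ℝ) =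
      C (ℓ a : ℝ) * (Dk q (g - a)).map (Int.castRingHom ℝ) := fun a ha => by
    rw [MAI.coeff_eq hRdvd (hℓ K) (Nat.lt_succ_iff.1 (mem_range.1 ha))]
  rw [Finset.sum_congr rfl hcoef] at hh₀deg
  obtain ⟨w, hwdeg, hw⟩ := hEIS q g K l ℓ hl hKg
    (hCNG q g R' K l k n ℓ hl hlq hR2 hk1 hn2 hnr (hℓ K))
  choose! p hpm hpd hpb using (fun j => hlow g n hnβ' j)
  have hl0 : (l : ℝ) ≠ 0 := by positivity
  have hf'deg : (C ((l : ℝ)⁻¹) * ((h₀ - ∑ a ∈ range (K + 1), C (ℓ a : ℝ) *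
      (Dk q (g - a)).map (Int.castRingHom ℝ)) - w.map (Int.castRingHom ℝ))).degree <
      ((g - K : ℕ) : WithBot ℕ) := by
    rw [degree_C_mul (inv_ne_zero hl0)]
    refine (degree_sub_le _ _).trans_lt (max_lt hh₀deg ?_)
    exact degree_map_le.trans_lt hwdeg
  obtain ⟨δ, z', hδ, hz'deg, hz'⟩ := hRND (g - K) p _
    (fun j hj => ⟨hpm j (by omega), hpd j (by omega)⟩) hf'deg
  have hzdeg : (w + C (l : ℤ) * z').degree < ((g - K : ℕ) : WithBot ℕ) := by
    refine (degree_add_le _ _).trans_lt (max_lt hwdeg ?_)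
    rwa [degree_C_mul (by exact_mod_cast hl.ne_zero : (l : ℤ) ≠ 0)]
  have hz : (h₀ - ∑ a ∈ range (K + 1), C (ℓ a : ℝ) * (Dk q (g - a)).map (Int.castRingHom ℝ)) -
      ∑ j ∈ range (g - K), C (l * δ j) * p j = (w + C (l : ℤ) * z').map (Int.castRingHom ℝ) := by
    have h1 : (w + C (l : ℤ) * z').map (Int.castRingHom ℝ) =
        w.map (Int.castRingHom ℝ) + C (l : ℝ) * z'.map (Int.castRingHom ℝ) := by
      simp [Polynomial.map_add, Polynomial.map_mul]
    rw [h1, ← hz', mul_sub, ← mul_assoc, ← C_mul, mul_inv_cancel₀ hl0, C_1, one_mul,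
      Finset.mul_sum]
    have h2 : ∑ j ∈ range (g - K), C (l : ℝ) * (C (δ j) * p j) =
        ∑ j ∈ range (g - K), C (l * δ j) * p j := by
      refine Finset.sum_congr rfl fun j _ => ?_
      rw [← mul_assoc, ← C_mul]
    rw [h2]
    ring
  have hzw : ∀ i, (l : ℤ) ∣ (HH q g K ℓ (w + C (l : ℤ) * z') - X ^ g).coeff i := fun i => by
    rw [MAG.HH_add]
    have h1 : HH q g K ℓ w + C (l : ℤ) * z' - X ^ g = (HH q g K ℓ w - X ^ g) + C (l : ℤ) * z' := by
      ring
    rw [h1, coeff_add, coeff_C_mul]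
    exact dvd_add (hw i) (dvd_mul_right _ _)
  generalize w + C (l : ℤ) * z' = z at hzdeg hz hzw
  obtain ⟨u, hu1, hu2⟩ := MAG.crt q l hl hlq
  have hM : (0 : ℤ) < (q : ℤ) * (l : ℤ) ^ 2 := by
    have h1 : (0 : ℤ) < q := by omega
    have h2 : (0 : ℤ) < l := by exact_mod_cast hl.pos
    positivity
  have htdef := Int.emod_add_mul_ediv (u - (HH q g K ℓ z).coeff 0) ((q : ℤ) * (l : ℤ) ^ 2)
  have ht0 : 0 ≤ (u - (HH q g K ℓ z).coeff 0) % ((q : ℤ) * (l : ℤ) ^ 2) := Int.emod_nonneg _ hM.ne'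
  have ht1 : (u - (HH q g K ℓ z).coeff 0) % ((q : ℤ) * (l : ℤ) ^ 2) < (q : ℤ) * (l : ℤ) ^ 2 :=
    Int.emod_lt_of_pos _ hM
  generalize (u - (HH q g K ℓ z).coeff 0) % ((q : ℤ) * (l : ℤ) ^ 2) = t at htdef ht0 ht1
  generalize (u - (HH q g K ℓ z).coeff 0) / ((q : ℤ) * (l : ℤ) ^ 2) = v at htdef
  have hc0 : (HH q g K ℓ (z + C t)).coeff 0 = u - (q : ℤ) * (l : ℤ) ^ 2 * v := by
    rw [MAG.HH_add, coeff_add, coeff_C_zero]
    linear_combination htdef
  have hlz : (l : ℤ) ∣ (HH q g K ℓ z).coeff 0 := by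
    have h1 := hzw 0
    rw [coeff_sub, coeff_X_pow, if_neg (by omega), sub_zero] at h1
    exact h1
  have hlu : (l : ℤ) ∣ u := by
    have h1 : (l : ℤ) ∣ u - l := (dvd_pow_self _ two_ne_zero).trans hu2
    have h2 := dvd_add h1 (dvd_refl (l : ℤ))
    rwa [sub_add_cancel] at h2
  have hlt : (l : ℤ) ∣ t := by
    have h1 : t = u - (HH q g K ℓ z).coeff 0 - (l : ℤ) * (l * q * v) := by
      linear_combination htdef
    rw [h1]
    exact dvd_sub (dvd_sub hlu hlz) (dvd_mul_right _ _)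
  refine ⟨R', K, l, n, ℓ, z + C t, hRR', hRK, hKg, hnβ, h20, ?_, hℓ K, ?_, hl, ?_, ?_, ?_⟩
  · refine (degree_add_le _ _).trans_lt (max_lt hzdeg (degree_C_le.trans_lt ?_))
    have : 0 < g - K := by omega
    exact_mod_cast this
  · rw [hc0]
    have h1 : u - (q : ℤ) * (l : ℤ) ^ 2 * v - 1 = (u - 1) - (q : ℤ) * ((l : ℤ) ^ 2 * v) := by ring
    rw [h1]
    exact dvd_sub hu1 (dvd_mul_right _ _)
  · intro i
    rw [MAG.HH_add]
    have h1 : HH q g K ℓ z + C t - X ^ g = (HH q g K ℓ z - X ^ g) + C t := by ring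
    rw [h1, coeff_add, coeff_C]
    refine dvd_add (hzw i) ?_
    split_ifs
    · exact hlt
    · exact dvd_zero _
  · rw [hc0]
    intro h
    have h1 : (l : ℤ) ^ 2 ∣ l := by
      have h2 : (u - (q : ℤ) * (l : ℤ) ^ 2 * v) - (u - l) + (l : ℤ) ^ 2 * (q * v) = l := by ring
      have h3 := dvd_add (dvd_sub h hu2) (dvd_mul_right ((l : ℤ) ^ 2) (q * v))
      rwa [h2] at h3
    have h2 : l ^ 2 ∣ l := by exact_mod_cast h1
    have h3 := Nat.le_of_dvd hl.pos h2
    nlinarith [hl.two_le]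
  · intro θ
    have ht : |(t : ℝ)| ≤ q * (l : ℝ) ^ 2 := by
      rw [abs_of_nonneg (by exact_mod_cast ht0)]
      exact_mod_cast ht1.le
    have hpt : ‖pt q θ‖ < 1 := by
      rw [norm_pt]
      exact inv_lt_one_of_one_lt₀ hs
    have hA0 : AC R' n (pt q θ) ≠ 0 := AC_ne_zero R' _ hpt
    have hA : 0 < ‖AC R' n (pt q θ)‖ := norm_pos_iff.2 hA0
    have hsg : 0 < √(q : ℝ) ^ g := by positivity
    -- the value of the polynomial
    have hval : aeval (2 * √(q : ℝ) * Real.cos θ) (HH q g K ℓ (z + C t)) =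
        2 * √(q : ℝ) ^ g * (Complex.exp (g * θ * Complex.I) * aeval (pt q θ) Rp).re -
          ∑ j ∈ range (g - K), l * δ j * (p j).eval (2 * √(q : ℝ) * Real.cos θ) + t := by
      have h1 := congrArg (Polynomial.eval (2 * √(q : ℝ) * Real.cos θ)) hz
      rw [eval_sub, eval_sub, hh₀ θ, eval_finsetSum, eval_finsetSum] at h1
      simp only [eval_mul, eval_C] at h1
      have h2 : aeval (2 * √(q : ℝ) * Real.cos θ) (HH q g K ℓ (z + C t)) =
          ∑ a ∈ range (K + 1), (ℓ a : ℝ) *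
            eval (2 * √(q : ℝ) * Real.cos θ) ((Dk q (g - a)).map (Int.castRingHom ℝ)) +
          eval (2 * √(q : ℝ) * Real.cos θ) (z.map (Int.castRingHom ℝ)) + t := by
        have h3 : ∀ F : ℤ[X], aeval (2 * √(q : ℝ) * Real.cos θ) F =
            eval (2 * √(q : ℝ) * Real.cos θ) (F.map (Int.castRingHom ℝ)) := fun F => by
          rw [aeval_def, eval₂_eq_eval_map]
          rfl
        rw [h3]
        unfold HH
        rw [Polynomial.map_add, Polynomial.map_add, Polynomial.map_sum, eval_add, eval_add,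
          eval_finsetSum, Polynomial.map_C, eval_C]
        simp only [Polynomial.map_mul, Polynomial.map_C, eval_mul, eval_C, Int.coe_castRingHom]
        ring
      rw [h2]
      linear_combination -h1
    -- the three bounds
    have b1 : |2 * √(q : ℝ) ^ g * (Complex.exp (g * θ * Complex.I) * aeval (pt q θ) Rp).re -
        2 * √(q : ℝ) ^ g * (Complex.exp (g * θ * Complex.I) / AC R' n (pt q θ)).re| *
          ‖AC R' n (pt q θ)‖ ≤ √(q : ℝ) ^ g / 4 := by
      rw [← mul_sub, ← Complex.sub_re, abs_mul, abs_of_pos (by positivity)]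
      have h1 : Complex.exp (g * θ * Complex.I) * aeval (pt q θ) Rp -
          Complex.exp (g * θ * Complex.I) / AC R' n (pt q θ) =
          Complex.exp (g * θ * Complex.I) *
            ((AC R' n (pt q θ) * aeval (pt q θ) Rp - 1) / AC R' n (pt q θ)) := by
        field_simp
      have h2 : ‖Complex.exp (g * θ * Complex.I)‖ = 1 := by
        have : (g : ℂ) * θ * Complex.I = ((g * θ : ℝ) : ℂ) * Complex.I := by push_cast; ring
        rw [this, Complex.norm_exp_ofReal_mul_I]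
      have h3 : |(Complex.exp (g * θ * Complex.I) * aeval (pt q θ) Rp -
          Complex.exp (g * θ * Complex.I) / AC R' n (pt q θ)).re| *
          ‖AC R' n (pt q θ)‖ ≤ 1 / 8 := by
        refine (mul_le_mul_of_nonneg_right (Complex.abs_re_le_norm _) hA.le).trans ?_
        rw [h1, norm_mul, h2, one_mul, norm_div, div_mul_cancel₀ _ hA.ne']
        exact hRapp _ (norm_pt q θ)
      calc _ = 2 * √(q : ℝ) ^ g * (|(Complex.exp (g * θ * Complex.I) * aeval (pt q θ) Rp -
          Complex.exp (g * θ * Complex.I) / AC R' n (pt q θ)).re| *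
          ‖AC R' n (pt q θ)‖) := by ring
        _ ≤ 2 * √(q : ℝ) ^ g * (1 / 8) := mul_le_mul_of_nonneg_left h3 (by positivity)
        _ = √(q : ℝ) ^ g / 4 := by ring
    have b2 : |∑ j ∈ range (g - K), l * δ j * (p j).eval (2 * √(q : ℝ) * Real.cos θ)| *
        ‖AC R' n (pt q θ)‖ ≤ √(q : ℝ) ^ g / 8 := by
      have hy0 : 0 < Real.exp (-c) := Real.exp_pos _
      have hy1 : Real.exp (-c) < 1 := by
        rw [Real.exp_lt_one_iff]
        linarith
      calc |∑ j ∈ range (g - K), l * δ j * (p j).eval (2 * √(q : ℝ) * Real.cos θ)| *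
            ‖AC R' n (pt q θ)‖
          ≤ (∑ j ∈ range (g - K), |l * δ j * (p j).eval (2 * √(q : ℝ) * Real.cos θ)|) *
            ‖AC R' n (pt q θ)‖ :=
            mul_le_mul_of_nonneg_right (Finset.abs_sum_le_sum_abs _ _) hA.le
        _ = ∑ j ∈ range (g - K), (l : ℝ) * (|δ j| * (|(p j).eval (2 * √(q : ℝ) * Real.cos θ)| *
            ‖AC R' n (pt q θ)‖)) := by
            rw [Finset.sum_mul]
            refine Finset.sum_congr rfl fun j _ => ?_
            rw [abs_mul, abs_mul, abs_of_pos (by positivity : (0 : ℝ) < l)]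
            ring
        _ ≤ ∑ j ∈ range (g - K), (l : ℝ) * (1 / 2 * (D * √(q : ℝ) ^ g * (Real.exp (-c) ^ K *
            Real.exp (-c) ^ (g - K - j)))) := by
            refine Finset.sum_le_sum fun j hj => mul_le_mul_of_nonneg_left ?_ (by positivity)
            have hjg : j < g := by
              have := mem_range.1 hj
              omega
            refine mul_le_mul (hδ j) ?_ (by positivity) (by norm_num)
            refine (hpb j hjg θ).trans (le_of_eq ?_)
            congr 1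
            rw [← pow_add, ← Real.exp_nat_mul]
            congr 1
            have h5 : K + (g - K - j) = g - j := by
              have := mem_range.1 hj
              omega
            rw [h5, Nat.cast_sub hjg.le]
            ring
        _ = √(q : ℝ) ^ g / 2 * (D * l * Real.exp (-c) ^ K *
            ∑ j ∈ range (g - K), Real.exp (-c) ^ (g - K - j)) := by
            rw [Finset.mul_sum, Finset.mul_sum]
            refine Finset.sum_congr rfl fun j _ => ?_
            ring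
        _ ≤ √(q : ℝ) ^ g / 2 * (D * (l : ℝ) ^ 2 * Real.exp (-c) ^ K *
            (1 / (1 - Real.exp (-c)))) := by
            refine mul_le_mul_of_nonneg_left (mul_le_mul ?_ (MAI.geom hy0 hy1 _)
              (Finset.sum_nonneg fun j _ => by positivity) (by positivity)) (by positivity)
            refine mul_le_mul_of_nonneg_right (mul_le_mul_of_nonneg_left ?_ hD.le) (by positivity)
            nlinarith
        _ = √(q : ℝ) ^ g / 2 * (D * (l : ℝ) ^ 2 * Real.exp (-c) ^ K / (1 - Real.exp (-c))) := by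
            rw [mul_one_div]
        _ ≤ √(q : ℝ) ^ g / 2 * (1 / 4) := mul_le_mul_of_nonneg_left hDK (by positivity)
        _ = √(q : ℝ) ^ g / 8 := by ring
    have b3 : |(t : ℝ)| * ‖AC R' n (pt q θ)‖ ≤ √(q : ℝ) ^ g / 4 := by
      have h1 := hpb 0 (by omega) θ
      have h2 : p 0 = 1 := by
        have h3 := eq_C_of_natDegree_eq_zero (hpd 0 (by omega))
        have h4 : (p 0).coeff 0 = 1 := by
          have := hpm 0 (by omega)
          rw [Monic, leadingCoeff, hpd 0 (by omega)] at this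
          exact this
        rw [h3, h4, C_1]
      rw [h2, eval_one, abs_one, one_mul, Nat.cast_zero, sub_zero] at h1
      calc |(t : ℝ)| * ‖AC R' n (pt q θ)‖
          ≤ q * (l : ℝ) ^ 2 * (D * √(q : ℝ) ^ g * Real.exp (-c * g)) :=
            mul_le_mul ht h1 hA.le (by positivity)
        _ = √(q : ℝ) ^ g / 4 * (4 * q * (D * (l : ℝ) ^ 2) * Real.exp (-c * g)) := by ring
        _ ≤ √(q : ℝ) ^ g / 4 * (Real.exp (c * g) * Real.exp (-c * g)) :=
            mul_le_mul_of_nonneg_left (mul_le_mul_of_nonneg_right hqD (Real.exp_pos _).le)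
              (by positivity)
        _ = √(q : ℝ) ^ g / 4 := by
            rw [← Real.exp_add]
            have : c * g + -c * g = 0 := by ring
            rw [this, Real.exp_zero, mul_one]
    rw [le_div_iff₀ hA, hval]
    have h7 : 2 * √(q : ℝ) ^ g * (Complex.exp (g * θ * Complex.I) * aeval (pt q θ) Rp).re -
          ∑ j ∈ range (g - K), l * δ j * (p j).eval (2 * √(q : ℝ) * Real.cos θ) + t -
        2 * √(q : ℝ) ^ g * (Complex.exp (g * θ * Complex.I) / AC R' n (pt q θ)).re =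
        (2 * √(q : ℝ) ^ g * (Complex.exp (g * θ * Complex.I) * aeval (pt q θ) Rp).re -
          2 * √(q : ℝ) ^ g * (Complex.exp (g * θ * Complex.I) / AC R' n (pt q θ)).re) +
        (-(∑ j ∈ range (g - K), l * δ j * (p j).eval (2 * √(q : ℝ) * Real.cos θ)) + t) := by ring
    rw [h7]
    have h8 := abs_add_le (2 * √(q : ℝ) ^ g * (Complex.exp (g * θ * Complex.I) * aeval (pt q θ) Rp).re -
          2 * √(q : ℝ) ^ g * (Complex.exp (g * θ * Complex.I) / AC R' n (pt q θ)).re)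
      (-(∑ j ∈ range (g - K), l * δ j * (p j).eval (2 * √(q : ℝ) * Real.cos θ)) + t)
    have h9 := abs_add_le (-(∑ j ∈ range (g - K), l * δ j * (p j).eval (2 * √(q : ℝ) * Real.cos θ))) (t : ℝ)
    rw [abs_neg] at h9
    have h10 := mul_le_mul_of_nonneg_right (h8.trans (add_le_add_right h9 _)) hA.le
    have h11 : √(q : ℝ) ^ g / 4 + √(q : ℝ) ^ g / 8 + √(q : ℝ) ^ g / 4 ≤ √(q : ℝ) ^ g := by
      linarith
    refine (h10.trans (le_of_eq ?_)).trans ((add_le_add (add_le_add b1 b2) b3).trans h11)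
    ring

end Pool.Agent.VIR
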