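import Pool.Agent.VIR.St

/-!
# Virtual curves, module NEC: necklace numbers
-/

set_option autoImplicit false

namespace Pool.Agent.VIR

namespace NEC

open Finset

/-- positivity of the necklace numbers -/
theorem pos (q : ℕ) (hq : 2 ≤ q) (b : ℕ → ℤ)
    (hb : ∀ m : ℕ, 1 ≤ m → (q : ℤ) ^ m = ∑ d ∈ m.divisors, (d : ℤ) * b d) :
    ∀ m : ℕ, 1 ≤ m → 1 ≤ b m := by
  intro m
  induction m using Nat.strong_induction_on with
  | _ m ih =>
    intro hm
    have hq0 : (0 : ℤ) < q := by exact_mod_cast (by omega : 0 < q)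
    have hle : ∀ d, 1 ≤ d → d < m → (d : ℤ) * b d ≤ (q : ℤ) ^ d := by
      intro d hd1 hdm
      rw [hb d hd1]
      refine Finset.single_le_sum (f := fun e : ℕ => (e : ℤ) * b e) (fun e he => ?_)
        (Nat.mem_divisors.2 ⟨dvd_rfl, by omega⟩)
      have he1 : 1 ≤ e := Nat.pos_of_mem_divisors he
      have he2 : e ≤ d := Nat.divisor_le he
      have := ih e (by omega) he1
      positivity
    have h1 := hb m hm
    rw [← Nat.insert_self_properDivisors (by omega), Finset.sum_insert
      Nat.self_notMem_properDivisors] at h1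
    have h2 : ∑ d ∈ m.properDivisors, (d : ℤ) * b d ≤ ∑ d ∈ m.properDivisors, (q : ℤ) ^ d := by
      refine Finset.sum_le_sum fun d hd => ?_
      have hd' := Nat.mem_properDivisors.1 hd
      exact hle d (Nat.pos_of_dvd_of_pos hd'.1 (by omega)) hd'.2
    have h3 : ∑ d ∈ m.properDivisors, (q : ℤ) ^ d ≤ ∑ d ∈ range m, (q : ℤ) ^ d := by
      refine Finset.sum_le_sum_of_subset_of_nonneg ?_ (fun d _ _ => by positivity)
      intro d hd
      exact mem_range.2 (Nat.mem_properDivisors.1 hd).2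
    have h4 : ∑ d ∈ range m, (q : ℤ) ^ d < (q : ℤ) ^ m := by
      have h5 : (∑ d ∈ range m, (q : ℤ) ^ d) * ((q : ℤ) - 1) = (q : ℤ) ^ m - 1 :=
        geom_sum_mul (q : ℤ) m
      have h6 : (0 : ℤ) ≤ ∑ d ∈ range m, (q : ℤ) ^ d :=
        Finset.sum_nonneg fun d _ => by positivity
      have h7 : (2 : ℤ) ≤ q := by exact_mod_cast hq
      nlinarith
    have h8 : 0 < (m : ℤ) * b m := by linarith
    have h9 : (0 : ℤ) < m := by exact_mod_cast (by omega : 0 < m)
    have h10 : 0 < b m := by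
      by_contra hcon
      push Not at hcon
      nlinarith
    omega

end NEC

open Finset in
theorem t_NEC (hEUL : S_EUL) : S_NEC := by
  intro q hq
  obtain ⟨b, hb⟩ := hEUL (fun m => (q : ℤ) ^ m) (fun m => (q : ℤ) ^ m) (by simp) (by
    intro m hm
    have h1 : ∀ i ∈ Icc 1 m, (q : ℤ) ^ i * (q : ℤ) ^ (m - i) = (q : ℤ) ^ m := by
      intro i hi
      have hi' := (mem_Icc.1 hi).2
      rw [← pow_add]
      congr 1
      omega
    rw [Finset.sum_congr rfl h1]
    simp)
  have hpos := NEC.pos q hq b hb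
  refine ⟨fun m => (b m).toNat, fun m hm => ⟨?_, ?_⟩⟩
  · have := hpos m hm
    show 1 ≤ (b m).toNat
    omega
  · have h1 : ((∑ d ∈ m.divisors, d * (b d).toNat : ℕ) : ℤ) = ((q ^ m : ℕ) : ℤ) := by
      push_cast
      rw [hb m hm]
      refine Finset.sum_congr rfl fun d hd => ?_
      have := hpos d (Nat.pos_of_mem_divisors hd)
      rw [Int.toNat_of_nonneg (by omega)]
    exact_mod_cast h1

end Pool.Agent.VIR
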