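import Pool.Agent.VIR.St

/-!
# Virtual curves, module NPR: Newton's relation of a product
-/

set_option autoImplicit false

namespace Pool.Agent.VIR

open Finset

namespace NPR

/-- the power series of the power sums, without constant term -/
noncomputable def ps (p : ℕ → ℝ) : PowerSeries ℝ := PowerSeries.mk fun m => if m = 0 then 0 else p m

theorem coeff_ps_mul (F p : ℕ → ℝ) (m : ℕ) :
    PowerSeries.coeff m (ps p * PowerSeries.mk F) = ∑ i ∈ Icc 1 m, p i * F (m - i) := by
  rw [PowerSeries.coeff_mul, Finset.Nat.sum_antidiagonal_eq_sum_range_succ_mk]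
  rw [Finset.range_eq_Ico, Finset.sum_eq_sum_Ico_succ_bot (Nat.succ_pos m)]
  have h0 : PowerSeries.coeff 0 (ps p) = 0 := by
    rw [ps, PowerSeries.coeff_mk, if_pos rfl]
  rw [h0, zero_mul, zero_add]
  apply Finset.sum_congr
  · ext i
    simp only [Finset.mem_Ico, Finset.mem_Icc]
    omega
  · intro i hi
    have h1 : 1 ≤ i := (Finset.mem_Icc.1 hi).1
    rw [ps, PowerSeries.coeff_mk, PowerSeries.coeff_mk, if_neg (by omega)]

theorem nw_iff (F p : ℕ → ℝ) :
    NW F p ↔ PowerSeries.X * PowerSeries.derivative ℝ (PowerSeries.mk F) =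
      -(ps p * PowerSeries.mk F) := by
  constructor
  · intro h
    ext m
    rw [map_neg, coeff_ps_mul]
    cases m with
    | zero => simp
    | succ n =>
      rw [PowerSeries.coeff_succ_X_mul, PowerSeries.coeff_derivative,
        PowerSeries.coeff_mk, ← h (n + 1) (Nat.succ_pos n)]
      push_cast
      ring
  · intro h m hm
    have h1 := congrArg (PowerSeries.coeff m) h
    rw [map_neg, coeff_ps_mul] at h1
    rw [← h1]
    obtain ⟨n, rfl⟩ : ∃ n, m = n + 1 := ⟨m - 1, by omega⟩
    rw [PowerSeries.coeff_succ_X_mul, PowerSeries.coeff_derivative,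
      PowerSeries.coeff_mk]
    push_cast
    ring

end NPR

open NPR in
/-- NPR -/
theorem t_NPR : S_NPR := by
  intro F G p p' hF hG
  rw [nw_iff] at hF hG ⊢
  have e1 : (PowerSeries.mk fun m => ∑ i ∈ range (m + 1), F i * G (m - i)) =
      PowerSeries.mk F * PowerSeries.mk G := by
    ext m
    rw [PowerSeries.coeff_mk, PowerSeries.coeff_mul,
      Finset.Nat.sum_antidiagonal_eq_sum_range_succ_mk]
    simp only [PowerSeries.coeff_mk]
  have e2 : ps (fun m => p m + p' m) = ps p + ps p' := by
    ext m
    rw [map_add, ps, ps, ps, PowerSeries.coeff_mk, PowerSeries.coeff_mk, PowerSeries.coeff_mk]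
    by_cases hm : m = 0
    · simp [hm]
    · simp [hm]
  rw [e1, e2, Derivation.leibniz, smul_eq_mul, smul_eq_mul]
  linear_combination (PowerSeries.mk G) * hF + (PowerSeries.mk F) * hG

end Pool.Agent.VIR
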