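import Pool.Agent.VIR.St
import Pool.Agent.VIR.P_NPR

/-!
# Virtual curves, module NWA: Newton's relation of `An R n`
-/

set_option autoImplicit false

namespace Pool.Agent.VIR

open Polynomial Finset

namespace NWA

theorem nw_mul {f g : ℝ[X]} {p p' : ℕ → ℝ} (hf : NW (fun m => f.coeff m) p)
    (hg : NW (fun m => g.coeff m) p') : NW (fun m => (f * g).coeff m) (fun m => p m + p' m) := by
  have h := t_NPR _ _ _ _ hf hg
  have e : (fun m => ∑ i ∈ range (m + 1), (fun m => f.coeff m) i * (fun m => g.coeff m) (m - i)) =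
      fun m => (f * g).coeff m := by
    funext m
    rw [coeff_mul, Finset.Nat.sum_antidiagonal_eq_sum_range_succ_mk]
  rw [e] at h
  exact h

theorem nw_one : NW (fun m => (1 : ℝ[X]).coeff m) (fun _ => 0) := by
  intro m hm
  have h1 : m ≠ 0 := by omega
  simp [coeff_one, h1]

theorem cf (r m : ℕ) : (1 - X ^ r : ℝ[X]).coeff m =
    (if m = 0 then 1 else 0) - (if m = r then 1 else 0) := by
  rw [coeff_sub, coeff_one, coeff_X_pow]

theorem nw_factor {r : ℕ} (hr : 1 ≤ r) : NW (fun m => (1 - X ^ r : ℝ[X]).coeff m)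
    (fun m => if r ∣ m then (r : ℝ) else 0) := by
  intro m hm
  simp only [cf]
  have h1 : ∑ i ∈ Icc 1 m, (if r ∣ i then (r : ℝ) else 0) *
      ((if m - i = 0 then 1 else 0) - (if m - i = r then 1 else 0)) =
      (if r ∣ m then (r : ℝ) else 0) -
        (if r + 1 ≤ m then (if r ∣ m - r then (r : ℝ) else 0) else 0) := by
    simp only [mul_sub]
    rw [Finset.sum_sub_distrib]
    congr 1
    · rw [Finset.sum_eq_single m]
      · rw [Nat.sub_self, if_pos rfl, mul_one]
      · intro i hi hne
        rw [Finset.mem_Icc] at hi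
        rw [if_neg (by omega : ¬ (m - i = 0)), mul_zero]
      · intro h
        exact absurd (Finset.mem_Icc.2 ⟨hm, le_rfl⟩) h
    · by_cases h : r + 1 ≤ m
      · rw [if_pos h, Finset.sum_eq_single (m - r)]
        · rw [if_pos (by omega : m - (m - r) = r), mul_one]
        · intro i hi hne
          rw [Finset.mem_Icc] at hi
          rw [if_neg (by omega : ¬ (m - i = r)), mul_zero]
        · intro h'
          exact absurd (Finset.mem_Icc.2 ⟨by omega, by omega⟩) h'
      · rw [if_neg h]
        refine Finset.sum_eq_zero fun i hi => ?_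
        rw [Finset.mem_Icc] at hi
        rw [if_neg (by omega : ¬ (m - i = r)), mul_zero]
  rw [h1, if_neg (by omega)]
  rcases lt_trichotomy m r with h | h | h
  · have h2 : ¬ r ∣ m := fun hd => by
      have := Nat.le_of_dvd (by omega) hd
      omega
    rw [if_neg h2, if_neg (by omega), if_neg (by omega)]
    ring
  · subst h
    rw [if_pos rfl, if_pos dvd_rfl, if_neg (by omega)]
    ring
  · have h2 : r ∣ m - r ↔ r ∣ m := Nat.dvd_sub_self_right.trans
      ⟨fun h' => h'.elim id (fun h'' => by omega), Or.inl⟩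
    rw [if_neg (by omega), if_pos (by omega : r + 1 ≤ m)]
    by_cases h3 : r ∣ m
    · rw [if_pos h3, if_pos (h2.2 h3)]
      ring
    · rw [if_neg h3, if_neg (fun h4 => h3 (h2.1 h4))]
      ring

theorem nw_pow {f : ℝ[X]} {p : ℕ → ℝ} (hf : NW (fun m => f.coeff m) p) (k : ℕ) :
    NW (fun m => (f ^ k).coeff m) (fun m => k * p m) := by
  induction k with
  | zero =>
    have e : (fun m => ((0 : ℕ) : ℝ) * p m) = fun _ => 0 := by
      funext m
      rw [Nat.cast_zero, zero_mul]
    rw [e]
    simp only [pow_zero]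
    exact nw_one
  | succ k ih =>
    have h := nw_mul ih hf
    have e : (fun m => (k : ℝ) * p m + p m) = fun m => ((k + 1 : ℕ) : ℝ) * p m := by
      funext m
      push_cast
      ring
    rw [e] at h
    simp only [pow_succ]
    exact h

theorem nw_prod (R : ℕ) (n : ℕ → ℕ) :
    NW (fun m => (∏ r ∈ Icc 1 R, (1 - X ^ r : ℝ[X]) ^ n r).coeff m) (fun m => (sg R n m : ℝ)) := by
  induction R with
  | zero =>
    have e : (fun m => ((sg 0 n m : ℕ) : ℝ)) = fun _ => 0 := by
      funext m
      simp [sg]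
    rw [e]
    simp only [Finset.Icc_eq_empty (by omega : ¬ (1 ≤ 0)), Finset.prod_empty]
    exact nw_one
  | succ R ih =>
    have h := nw_mul ih (nw_pow (nw_factor (by omega : 1 ≤ R + 1)) (n (R + 1)))
    have e : (fun m => (sg R n m : ℝ) + (n (R + 1) : ℝ) *
        (if (R + 1) ∣ m then ((R + 1 : ℕ) : ℝ) else 0)) = fun m => (sg (R + 1) n m : ℝ) := by
      funext m
      unfold sg
      rw [← Finset.insert_Icc_right_eq_Icc_add_one (by omega : 1 ≤ R + 1), Finset.filter_insert]
      by_cases h1 : (R + 1) ∣ m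
      · rw [if_pos h1, if_pos h1, Finset.sum_insert (by simp)]
        push_cast
        ring
      · rw [if_neg h1, if_neg h1]
        ring
    rw [e] at h
    have e2 : ∏ r ∈ Icc 1 (R + 1), (1 - X ^ r : ℝ[X]) ^ n r =
        (∏ r ∈ Icc 1 R, (1 - X ^ r : ℝ[X]) ^ n r) * (1 - X ^ (R + 1)) ^ n (R + 1) :=
      Finset.prod_Icc_succ_top (by omega) _
    rw [e2]
    exact h

end NWA

/-- NWA -/
theorem t_NWA : S_NWA := by
  intro R n
  have e : (fun m => ((An R n).coeff m : ℝ)) =
      fun m => (∏ r ∈ Icc 1 R, (1 - X ^ r : ℝ[X]) ^ n r).coeff m := by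
    funext m
    have h1 : (An R n).map (Int.castRingHom ℝ) = ∏ r ∈ Icc 1 R, (1 - X ^ r : ℝ[X]) ^ n r := by
      unfold An
      rw [Polynomial.map_prod]
      simp
    rw [← h1, coeff_map]
    simp
  rw [e]
  exact NWA.nw_prod R n

end Pool.Agent.VIR
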