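import Pool.Agent.VIR.St

/-!
Module NWT: Newton relation of the product (uses NPR).
-/

set_option autoImplicit false

namespace Pool.Agent.VIR

open Polynomial Finset

namespace NWT

theorem cf (a b : ℝ) (j : ℕ) : (1 - C a * X + C b * X ^ 2 : ℝ[X]).coeff j =
    (if j = 0 then 1 else 0) - (if j = 1 then a else 0) + (if j = 2 then b else 0) := by
  rw [coeff_add, coeff_sub, coeff_one, coeff_C_mul, coeff_C_mul, coeff_X, coeff_X_pow]
  simp only [mul_ite, mul_one, mul_zero]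
  congr 2
  by_cases h : j = 1
  · rw [if_pos h, if_pos h.symm]
  · rw [if_neg h, if_neg (fun e => h e.symm)]

theorem cos_rec (φ : ℝ) (n : ℕ) : Real.cos (((n + 3 : ℕ) : ℝ) * φ) =
    2 * Real.cos φ * Real.cos (((n + 2 : ℕ) : ℝ) * φ) - Real.cos (((n + 1 : ℕ) : ℝ) * φ) := by
  have h1 : ((n + 3 : ℕ) : ℝ) * φ = ((n + 2 : ℕ) : ℝ) * φ + φ := by push_cast; ring
  have h2 : ((n + 1 : ℕ) : ℝ) * φ = ((n + 2 : ℕ) : ℝ) * φ - φ := by push_cast; ring
  rw [h1, h2, Real.cos_add, Real.cos_sub]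
  ring

theorem factor' (s φ : ℝ) :
    NW (fun m => (1 - C (2 * s * Real.cos φ) * X + C (s * s) * X ^ 2 : ℝ[X]).coeff m)
      (fun m => 2 * s ^ m * Real.cos (m * φ)) := by
  intro m hm
  simp only [cf]
  match m, hm with
  | 1, _ =>
    simp
  | 2, _ =>
    rw [Finset.sum_Icc_succ_top (by norm_num), Finset.Icc_self, Finset.sum_singleton]
    simp
    rw [Real.cos_two_mul]
    ring
  | n + 3, _ =>
    rw [Finset.sum_Icc_succ_top (by omega), Finset.sum_Icc_succ_top (by omega),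
      Finset.sum_Icc_succ_top (by omega)]
    have h0 : ∑ i ∈ Finset.Icc 1 n, 2 * s ^ i * Real.cos (i * φ) *
        ((if n + 3 - i = 0 then (1 : ℝ) else 0) -
          (if n + 3 - i = 1 then 2 * s * Real.cos φ else 0) +
          (if n + 3 - i = 2 then s * s else 0)) = 0 := by
      apply Finset.sum_eq_zero
      intro i hi
      rw [Finset.mem_Icc] at hi
      rw [if_neg (by omega), if_neg (by omega), if_neg (by omega)]
      ring
    have e1 : n + 3 - (n + 1) = 2 := by omega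
    have e2' : n + 3 - (n + 1 + 1) = 1 := by omega
    have e3 : n + 3 - (n + 2 + 1) = 0 := by omega
    rw [h0, e1, e2', e3]
    have h3 : (n : ℕ) + 3 ≠ 0 := by omega
    have h4 : (n : ℕ) + 3 ≠ 1 := by omega
    have h5 : (n : ℕ) + 3 ≠ 2 := by omega
    rw [if_neg h3, if_neg h4, if_neg h5]
    have hc := cos_rec φ n
    have e4 : ((n + 2 + 1 : ℕ) : ℝ) = ((n + 3 : ℕ) : ℝ) := rfl
    have e5 : ((n + 1 + 1 : ℕ) : ℝ) = ((n + 2 : ℕ) : ℝ) := rfl
    rw [e4, e5, hc]
    norm_num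
    ring

theorem factor (q : ℕ) (φ : ℝ) :
    NW (fun m => (1 - C (2 * √(q : ℝ) * Real.cos φ) * X + C (q : ℝ) * X ^ 2 : ℝ[X]).coeff m)
      (fun m => 2 * √(q : ℝ) ^ m * Real.cos (m * φ)) := by
  have hs : √(q : ℝ) * √(q : ℝ) = q := Real.mul_self_sqrt (Nat.cast_nonneg q)
  have h := factor' (√(q : ℝ)) φ
  rw [hs] at h
  exact h

end NWT

/-- Module NWT (uses NPR). -/
theorem t_NWT (hP : S_NPR) : S_NWT := by
  intro q g
  induction g with
  | zero =>
    intro θ m hm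
    have h1 : m ≠ 0 := by omega
    simp [coeff_one, h1]
  | succ g ih =>
    intro θ
    have h1 := hP _ _ _ _ (NWT.factor q (θ 0)) (ih (fun i => θ i.succ))
    have e1 : (fun m => ∑ i ∈ range (m + 1),
        (fun m => (1 - C (2 * √(q : ℝ) * Real.cos (θ 0)) * X + C (q : ℝ) * X ^ 2 : ℝ[X]).coeff m) i *
        (fun m => (∏ i : Fin g, (1 - C (2 * √(q : ℝ) * Real.cos (θ i.succ)) * X +
          C (q : ℝ) * X ^ 2) : ℝ[X]).coeff m) (m - i)) =
        fun m => (∏ i, (1 - C (2 * √(q : ℝ) * Real.cos (θ i)) * X +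
          C (q : ℝ) * X ^ 2) : ℝ[X]).coeff m := by
      funext m
      rw [Fin.prod_univ_succ, coeff_mul, Finset.Nat.sum_antidiagonal_eq_sum_range_succ_mk]
    have e2 : (fun m : ℕ => (fun m : ℕ => 2 * √(q : ℝ) ^ m * Real.cos (m * θ 0)) m +
        (fun m : ℕ => ∑ i : Fin g, 2 * √(q : ℝ) ^ m * Real.cos (m * θ i.succ)) m) =
        fun m : ℕ => ∑ i, 2 * √(q : ℝ) ^ m * Real.cos (m * θ i) := by
      funext m
      rw [Fin.sum_univ_succ]
    rw [e1, e2] at h1
    exact h1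

end Pool.Agent.VIR
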