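import Pool.Agent.VIR.St

/-!
# Module ORD: middle coefficient modulo q
-/

set_option autoImplicit false

namespace Pool.Agent.VIR

open Polynomial

namespace ORD

lemma dvd_sub (q g : ℕ) (h : ℤ[X]) :
    (C (q : ℤ) : ℤ[X]) ∣ PP q g h -
      ∑ k ∈ Finset.range (g + 1), C (h.coeff k) * X ^ (g - k) * (X ^ 2) ^ k := by
  unfold PP
  rw [← Finset.sum_sub_distrib]
  refine Finset.dvd_sum fun k _ => ?_
  rw [← mul_sub]
  refine Dvd.dvd.mul_left ?_ _
  have h1 := sub_dvd_pow_sub_pow ((X : ℤ[X]) ^ 2 + C (q : ℤ)) ((X : ℤ[X]) ^ 2) k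
  rwa [add_sub_cancel_left] at h1

lemma coeff_main (g : ℕ) (h : ℤ[X]) :
    (∑ k ∈ Finset.range (g + 1), C (h.coeff k) * X ^ (g - k) * ((X : ℤ[X]) ^ 2) ^ k).coeff g =
      h.coeff 0 := by
  rw [finset_sum_coeff, Finset.sum_eq_single 0]
  · simp
  · intro k hk hk0
    rw [Finset.mem_range] at hk
    rw [mul_assoc, ← pow_mul, ← pow_add, coeff_C_mul, coeff_X_pow, if_neg (by omega), mul_zero]
  · intro h0
    exact absurd (Finset.mem_range.2 (Nat.succ_pos g)) h0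

end ORD

open ORD

theorem t_ORD : S_ORD := by
  intro q g h
  obtain ⟨r, hr⟩ := dvd_sub q g h
  have h1 : PP q g h = C (q : ℤ) * r +
      ∑ k ∈ Finset.range (g + 1), C (h.coeff k) * X ^ (g - k) * (X ^ 2) ^ k := by
    rw [← hr, sub_add_cancel]
  rw [h1, coeff_add, coeff_main, coeff_C_mul, add_sub_cancel_right]
  exact Dvd.intro _ rfl

end Pool.Agent.VIR
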