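import Pool.Agent.VIR.St

/-!
# POS: positivity for large degree
-/

set_option autoImplicit false

namespace Pool.Agent.VIR

open Polynomial Finset

namespace POS

theorem geom (q : ℝ) (hq : 2 ≤ q) (D : ℕ) : ∑ d ∈ Icc 1 D, q ^ d ≤ 2 * q ^ D := by
  induction D with
  | zero => simp
  | succ D ih =>
    rw [sum_Icc_succ_top (by omega)]
    have h1 : 0 ≤ q ^ D := by positivity
    have h2 : q ^ (D + 1) = q * q ^ D := pow_succ' q D
    rw [h2]
    nlinarith

end POS

open POS in
theorem t_POS : S_POS := by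
  intro q g K b p hq hg hK hp hN hb m
  induction m using Nat.strong_induction_on with
  | _ m ih =>
  intro hm
  rcases le_or_gt m K with hmK | hmK
  · exact hb m hm hmK
  set s : ℝ := √(q : ℝ) with hs
  have hq2 : (2 : ℝ) ≤ q := by exact_mod_cast hq
  have hss : s ^ 2 = q := Real.sq_sqrt (by positivity)
  have hs1 : 1 < s := one_lt_sqrt hq
  have hs0 : 0 < s := by linarith
  have hg1 : (1 : ℝ) ≤ g := by exact_mod_cast hg
  have hsm : 20 * (g : ℝ) ≤ s ^ m := hK.trans (pow_le_pow_right₀ hs1.le hmK.le)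
  have hqs : ∀ d : ℕ, (q : ℝ) ^ d = s ^ (2 * d) := by
    intro d
    rw [← hss, ← pow_mul]
  -- bound for one divisor
  have h1 : ∀ d ∈ m.properDivisors, (d : ℝ) * (b d : ℝ) ≤ (2 + 2 * g) * (q : ℝ) ^ d := by
    intro d hd
    obtain ⟨hd1, hd2⟩ := Nat.mem_properDivisors.1 hd
    have hd0 : 1 ≤ d := Nat.pos_of_dvd_of_pos hd1 hm
    have h2 := hN d hd0
    have h3 : (d : ℝ) * (b d : ℝ) ≤ ∑ e ∈ d.divisors, (e : ℝ) * (b e : ℝ) := by
      refine single_le_sum (f := fun e : ℕ => (e : ℝ) * (b e : ℝ)) ?_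
        (Nat.mem_divisors_self d (by omega))
      intro e he
      have he1 : 1 ≤ e := Nat.pos_of_mem_divisors he
      have he2 : e < m := (Nat.divisor_le he).trans_lt hd2
      have h4 : (0 : ℝ) ≤ b e := by exact_mod_cast ih e he2 he1
      positivity
    have h5 : 1 ≤ (q : ℝ) ^ d := one_le_pow₀ (by linarith)
    have h6 : s ^ d ≤ (q : ℝ) ^ d := by
      rw [hqs]
      exact pow_le_pow_right₀ hs1.le (by omega)
    have h7 := (abs_le.1 (hp d)).1
    have h8 : 2 * (g : ℝ) * s ^ d ≤ 2 * g * (q : ℝ) ^ d :=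
      mul_le_mul_of_nonneg_left h6 (by positivity)
    rw [h2] at h3
    linarith
  have h2 : ∑ d ∈ m.properDivisors, (d : ℝ) * (b d : ℝ) ≤ (4 + 4 * g) * s ^ m := by
    have h3 : m.properDivisors ⊆ Icc 1 (m / 2) := by
      intro d hd
      obtain ⟨⟨k, hk⟩, hd2⟩ := Nat.mem_properDivisors.1 hd
      have hd0 : 1 ≤ d := by
        rcases Nat.eq_zero_or_pos d with h | h
        · rw [h, zero_mul] at hk
          omega
        · exact h
      have hk2 : 2 ≤ k := by
        by_contra hk2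
        have h4 : k = 0 ∨ k = 1 := by omega
        rcases h4 with h4 | h4
        · rw [h4, mul_zero] at hk
          omega
        · rw [h4, mul_one] at hk
          omega
      rw [mem_Icc]
      refine ⟨hd0, ?_⟩
      rw [Nat.le_div_iff_mul_le (by norm_num)]
      calc d * 2 ≤ d * k := Nat.mul_le_mul_left d hk2
        _ = m := hk.symm
    calc ∑ d ∈ m.properDivisors, (d : ℝ) * (b d : ℝ)
        ≤ ∑ d ∈ m.properDivisors, (2 + 2 * g) * (q : ℝ) ^ d := sum_le_sum h1
      _ ≤ ∑ d ∈ Icc 1 (m / 2), (2 + 2 * g) * (q : ℝ) ^ d :=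
          sum_le_sum_of_subset_of_nonneg h3 fun d _ _ => by positivity
      _ = (2 + 2 * g) * ∑ d ∈ Icc 1 (m / 2), (q : ℝ) ^ d := (mul_sum _ _ _).symm
      _ ≤ (2 + 2 * g) * (2 * (q : ℝ) ^ (m / 2)) :=
          mul_le_mul_of_nonneg_left (geom q hq2 _) (by positivity)
      _ ≤ (2 + 2 * g) * (2 * s ^ m) := by
          refine mul_le_mul_of_nonneg_left ?_ (by positivity)
          rw [hqs]
          have h4 : s ^ (2 * (m / 2)) ≤ s ^ m := pow_le_pow_right₀ hs1.le (Nat.mul_div_le m 2)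
          linarith
      _ = (4 + 4 * g) * s ^ m := by ring
  have h3 := hN m hm
  rw [← Nat.insert_self_properDivisors (by omega), sum_insert Nat.self_notMem_properDivisors] at h3
  have h4 := (abs_le.1 (hp m)).2
  have h5 : (q : ℝ) ^ m = s ^ m * s ^ m := by
    rw [hqs, two_mul, pow_add]
  have h6 : 0 < s ^ m := by positivity
  have h7 : 20 * (g : ℝ) * s ^ m ≤ s ^ m * s ^ m := mul_le_mul_of_nonneg_right hsm h6.le
  have h8 : (4 : ℝ) * s ^ m ≤ 4 * g * s ^ m := by
    have := mul_le_mul_of_nonneg_right hg1 h6.le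
    linarith
  have h9 : 0 < (g : ℝ) * s ^ m := by positivity
  have h10 : 0 < (m : ℝ) * (b m : ℝ) := by
    have e1 : (4 + 4 * (g : ℝ)) * s ^ m = 4 * s ^ m + 4 * g * s ^ m := by ring
    rw [h5] at h3
    rw [e1] at h2
    linarith
  have hm0 : (0 : ℝ) < m := by exact_mod_cast hm
  have h11 : (0 : ℝ) < b m := (mul_pos_iff_of_pos_left hm0).1 h10
  have h12 : (0 : ℤ) < b m := by exact_mod_cast h11
  exact h12.le

end Pool.Agent.VIR
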