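import Pool.Agent.VIR.St

/-!
# RND: triangular rounding
-/

set_option autoImplicit false

namespace Pool.Agent.VIR

open Polynomial Finset

theorem t_RND : S_RND := by
  intro n
  induction n with
  | zero =>
    intro p f _ hf
    have hf0 : f = 0 := by
      ext m
      rw [coeff_zero]
      exact (Polynomial.degree_lt_iff_coeff_zero f 0).1 hf m (Nat.zero_le m)
    exact ⟨fun _ => 0, 0, by simp, by simp, by simp [hf0]⟩
  | succ n ih =>
    intro p f hp hf
    obtain ⟨hmon, hdeg⟩ := hp n (Nat.lt_succ_self n)
    set c : ℝ := f.coeff n with hc
    set f' : ℝ[X] := f - C (c - round c) * p n - C ((round c : ℤ) : ℝ) * X ^ n with hf'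
    have hlt : f'.degree < (n : WithBot ℕ) := by
      rw [Polynomial.degree_lt_iff_coeff_zero]
      intro m hm
      rw [hf', coeff_sub, coeff_sub, coeff_C_mul, coeff_C_mul, coeff_X_pow]
      rcases Nat.eq_or_lt_of_le hm with rfl | hm
      · have h1 : (p n).coeff n = 1 := by
          have := hmon.coeff_natDegree
          rwa [hdeg] at this
        rw [h1, if_pos rfl, ← hc]
        ring
      · have h1 : f.coeff m = 0 := (Polynomial.degree_lt_iff_coeff_zero f (n + 1)).1 (by
          exact_mod_cast hf) m hm
        have h2 : (p n).coeff m = 0 := coeff_eq_zero_of_natDegree_lt (by rw [hdeg]; exact hm)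
        rw [h1, h2, if_neg (by omega)]
        ring
    obtain ⟨δ, z, hδ, hz, hfz⟩ := ih p f' (fun j hj => hp j (Nat.lt_succ_of_lt hj)) hlt
    refine ⟨Function.update δ n (c - round c), z + C (round c) * X ^ n, ?_, ?_, ?_⟩
    · intro j
      by_cases hj : j = n
      · subst hj
        rw [Function.update_self]
        exact abs_sub_round c
      · rw [Function.update_of_ne hj]
        exact hδ j
    · rw [Polynomial.degree_lt_iff_coeff_zero]
      intro m hm
      have h1 : z.coeff m = 0 := (Polynomial.degree_lt_iff_coeff_zero z n).1 hz m (by omega)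
      rw [coeff_add, coeff_C_mul, coeff_X_pow, h1, if_neg (by omega)]
      ring
    · rw [sum_range_succ, Function.update_self]
      have h1 : ∑ j ∈ range n, C (Function.update δ n (c - round c) j) * p j =
          ∑ j ∈ range n, C (δ j) * p j := by
        refine sum_congr rfl fun j hj => ?_
        rw [Function.update_of_ne (by
          have := mem_range.1 hj
          omega)]
      rw [h1, Polynomial.map_add, ← hfz, hf', Polynomial.map_mul, Polynomial.map_pow, map_X,
        map_C]
      simp only [eq_intCast]
      ring

end Pool.Agent.VIR
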