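import Pool.Agent.VIR.St

/-!
# Virtual curves, module ROO: real roots by the phase
-/

set_option autoImplicit false

namespace Pool.Agent.VIR

open Polynomial Finset

namespace ROO

/-- the phase of `AC R n T` -/
noncomputable def ph (R : ℕ) (n : ℕ → ℕ) (T : ℂ) : ℝ :=
  ∑ r ∈ Icc 1 R, (n r : ℝ) * Complex.arg (1 - T ^ r)

theorem polar (R : ℕ) (n : ℕ → ℕ) (T : ℂ) :
    AC R n T = (‖AC R n T‖ : ℂ) * Complex.exp ((ph R n T : ℂ) * Complex.I) := by
  have h1 : (‖AC R n T‖ : ℂ) = ∏ r ∈ Icc 1 R, (‖1 - T ^ r‖ : ℂ) ^ n r := by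
    unfold AC
    rw [norm_prod]
    push_cast
    exact prod_congr rfl fun r _ => by rw [norm_pow]; push_cast; rfl
  rw [h1]
  unfold ph AC
  push_cast
  rw [Finset.sum_mul, Complex.exp_sum, ← Finset.prod_mul_distrib]
  refine prod_congr rfl fun r _ => ?_
  rw [mul_assoc, Complex.exp_nat_mul, ← mul_pow, Complex.norm_mul_exp_arg_mul_I]

theorem re_pos {T : ℂ} (hT : ‖T‖ < 1) {r : ℕ} (hr : 1 ≤ r) : 0 < (1 - T ^ r).re := by
  have h1 : ‖T ^ r‖ < 1 := by
    rw [norm_pow]
    exact pow_lt_one₀ (norm_nonneg _) hT (by omega)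
  have h2 := Complex.re_le_norm (T ^ r)
  rw [Complex.sub_re, Complex.one_re]
  linarith

theorem ph_real (R : ℕ) (n : ℕ → ℕ) {y : ℝ} (hy : |y| < 1) : ph R n (y : ℂ) = 0 := by
  unfold ph
  refine sum_eq_zero fun r hr => ?_
  have hr1 := (mem_Icc.1 hr).1
  have h1 : 1 - (y : ℂ) ^ r = ((1 - y ^ r : ℝ) : ℂ) := by push_cast; rfl
  have h2 : 0 ≤ 1 - y ^ r := by
    have h3 : ‖(y : ℂ)‖ < 1 := by rwa [Complex.norm_real]
    have h4 := re_pos h3 hr1
    rw [h1, Complex.ofReal_re] at h4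
    exact h4.le
  rw [h1, Complex.arg_ofReal_of_nonneg h2, mul_zero]

theorem continuous_pt (q : ℕ) : Continuous (pt q) := by
  unfold pt
  fun_prop

theorem continuous_ph {q : ℕ} (hq : 2 ≤ q) (R : ℕ) (n : ℕ → ℕ) :
    Continuous fun θ : ℝ => ph R n (pt q θ) := by
  unfold ph
  refine continuous_finsetSum _ fun r hr => ?_
  refine continuous_const.mul ?_
  rw [continuous_iff_continuousAt]
  intro θ
  have hlt : ‖pt q θ‖ < 1 := by
    rw [norm_pt]
    exact inv_lt_one_of_one_lt₀ (one_lt_sqrt hq)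
  have h1 : (1 - pt q θ ^ r) ∈ Complex.slitPlane :=
    Complex.mem_slitPlane_iff.2 (Or.inl (re_pos hlt (mem_Icc.1 hr).1))
  have h2 : ContinuousAt (fun θ : ℝ => 1 - pt q θ ^ r) θ :=
    (continuous_const.sub ((continuous_pt q).pow r)).continuousAt
  exact ContinuousAt.comp (f := fun θ : ℝ => 1 - pt q θ ^ r) (g := Complex.arg)
    (Complex.continuousAt_arg h1) h2

/-- an increasing sequence of points with prescribed values -/
theorem points (ψ : ℝ → ℝ) (hψ : Continuous ψ) (g : ℕ) (h0 : ψ 0 = 0)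
    (h1 : ψ Real.pi = g * Real.pi) : ∀ m : ℕ, m ≤ g → ∃ f : ℕ → ℝ,
      (∀ k ≤ m, 0 ≤ f k ∧ f k ≤ Real.pi ∧ ψ (f k) = k * Real.pi) ∧ ∀ k < m, f k < f (k + 1) := by
  intro m
  induction m with
  | zero =>
    intro _
    refine ⟨fun _ => 0, fun k hk => ?_, fun k hk => absurd hk (by omega)⟩
    have : k = 0 := by omega
    subst this
    exact ⟨le_rfl, Real.pi_pos.le, by rw [h0]; simp⟩
  | succ m ih =>
    intro hm
    obtain ⟨f, hf, hf'⟩ := ih (by omega)
    obtain ⟨a1, a2, a3⟩ := hf m le_rfl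
    have hmg : ((m : ℝ) + 1) ≤ g := by exact_mod_cast hm
    have hpi := Real.pi_pos
    have himg : ((m : ℝ) + 1) * Real.pi ∈ Set.Icc (ψ (f m)) (ψ Real.pi) := by
      rw [a3, h1]
      constructor
      · nlinarith
      · nlinarith
    obtain ⟨z, hz, hz'⟩ := intermediate_value_Icc a2 hψ.continuousOn himg
    refine ⟨Function.update f (m + 1) z, fun k hk => ?_, fun k hk => ?_⟩
    · rcases Nat.lt_or_ge k (m + 1) with hlt | hge
      · rw [Function.update_of_ne (by omega)]
        exact hf k (by omega)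
      · have : k = m + 1 := by omega
        subst this
        rw [Function.update_self]
        refine ⟨a1.trans hz.1, hz.2, ?_⟩
        rw [hz']
        push_cast
        ring
    · rcases Nat.lt_or_ge k m with hlt | hge
      · rw [Function.update_of_ne (by omega), Function.update_of_ne (by omega)]
        exact hf' k hlt
      · have : k = m := by omega
        subst this
        rw [Function.update_of_ne (by omega), Function.update_self]
        refine lt_of_le_of_ne hz.1 ?_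
        intro he
        rw [← he, a3] at hz'
        nlinarith

theorem prod_roots (g : ℕ) (h : ℝ[X]) (hm : h.Monic) (hd : h.natDegree = g) (y : Fin g → ℝ)
    (hy : Function.Injective y) (h0 : ∀ i, h.eval (y i) = 0) : h = ∏ i, (X - C (y i)) := by
  have h1 : (∏ i, (X - C (y i))) ∣ h := by
    apply Finset.prod_dvd_of_coprime
    · intro i _ j _ hij
      exact Polynomial.pairwise_coprime_X_sub_C hy hij
    · intro i _
      exact Polynomial.dvd_iff_isRoot.2 (h0 i)
  have h2 : (∏ i, (X - C (y i))).Monic := Polynomial.monic_prod_of_monic _ _ fun i _ =>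
    Polynomial.monic_X_sub_C _
  refine Polynomial.eq_of_monic_of_dvd_of_natDegree_le h2 hm h1 ?_
  rw [hd, Polynomial.natDegree_prod_of_monic _ _ fun i _ => Polynomial.monic_X_sub_C _]
  simp

end ROO

/-- Module ROO. -/
theorem t_ROO : S_ROO := by
  intro q g R n h hq hm hd hθ
  have hs := one_lt_sqrt hq
  have hs0 : 0 < √(q : ℝ) := by linarith
  have hx0 : 0 < (√(q : ℝ))⁻¹ := inv_pos.2 hs0
  have hx1 : (√(q : ℝ))⁻¹ < 1 := inv_lt_one_of_one_lt₀ hs
  set ψ : ℝ → ℝ := fun θ => g * θ - ROO.ph R n (pt q θ) with hψ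
  have hψc : Continuous ψ :=
    (continuous_const.mul continuous_id).sub (ROO.continuous_ph hq R n)
  have hψ0 : ψ 0 = 0 := by
    have e1 : pt q 0 = (((√(q : ℝ))⁻¹ : ℝ) : ℂ) := by
      unfold pt
      simp
    show (g : ℝ) * 0 - ROO.ph R n (pt q 0) = 0
    rw [e1, ROO.ph_real R n (by rw [abs_of_pos hx0]; exact hx1)]
    simp
  have hψπ : ψ Real.pi = g * Real.pi := by
    have e1 : pt q Real.pi = ((-(√(q : ℝ))⁻¹ : ℝ) : ℂ) := by
      unfold pt
      rw [Complex.exp_neg, Complex.exp_pi_mul_I]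
      push_cast
      norm_num
    show (g : ℝ) * Real.pi - ROO.ph R n (pt q Real.pi) = g * Real.pi
    rw [e1, ROO.ph_real R n (by rw [abs_neg, abs_of_pos hx0]; exact hx1)]
    simp
  obtain ⟨f, hf, hf'⟩ := ROO.points ψ hψc g hψ0 hψπ g le_rfl
  set H : ℝ → ℝ := fun θ => h.eval (2 * √(q : ℝ) * Real.cos θ) with hH
  have hHc : Continuous H :=
    h.continuous.comp (continuous_const.mul Real.continuous_cos)
  -- the signs
  have hsign : ∀ k ≤ g, 0 < (-1 : ℝ) ^ k * H (f k) := by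
    intro k hk
    obtain ⟨a1, a2, a3⟩ := hf k hk
    have hlt : ‖pt q (f k)‖ < 1 := by rw [norm_pt]; exact hx1
    have hne : AC R n (pt q (f k)) ≠ 0 := AC_ne_zero R n hlt
    have hnp : 0 < ‖AC R n (pt q (f k))‖ := norm_pos_iff.2 hne
    have e1 : Complex.exp (g * (f k : ℝ) * Complex.I) / AC R n (pt q (f k)) =
        (((-1 : ℝ) ^ k / ‖AC R n (pt q (f k))‖ : ℝ) : ℂ) := by
      have e2 := ROO.polar R n (pt q (f k))
      have e3 : Complex.exp (g * (f k : ℝ) * Complex.I) =
          Complex.exp ((ψ (f k) : ℂ) * Complex.I) *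
            Complex.exp ((ROO.ph R n (pt q (f k)) : ℂ) * Complex.I) := by
        rw [← Complex.exp_add]
        congr 1
        rw [hψ]
        push_cast
        ring
      have e4 : Complex.exp ((ψ (f k) : ℂ) * Complex.I) = (-1) ^ k := by
        rw [a3]
        push_cast
        rw [mul_assoc, Complex.exp_nat_mul, Complex.exp_pi_mul_I]
      rw [e3, e4]
      have hexp : Complex.exp ((ROO.ph R n (pt q (f k)) : ℂ) * Complex.I) ≠ 0 :=
        Complex.exp_ne_zero _
      have hnc : (‖AC R n (pt q (f k))‖ : ℂ) ≠ 0 := by exact_mod_cast hnp.ne'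
      rw [div_eq_iff hne]
      rw [show AC R n (pt q (f k)) = (‖AC R n (pt q (f k))‖ : ℂ) *
        Complex.exp ((ROO.ph R n (pt q (f k)) : ℂ) * Complex.I) from e2]
      rw [← e2]
      push_cast
      field_simp
      conv_rhs => rw [e2]
      ring
    have h1 := hθ (f k)
    rw [e1, Complex.ofReal_re] at h1
    have hsg : 0 < √(q : ℝ) ^ g := by positivity
    have h2 : (-1 : ℝ) ^ k * (-1 : ℝ) ^ k = 1 := by
      rw [← mul_pow]; norm_num
    have h3 : |(-1 : ℝ) ^ k * (H (f k) - 2 * √(q : ℝ) ^ g *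
        ((-1 : ℝ) ^ k / ‖AC R n (pt q (f k))‖))| < 2 * √(q : ℝ) ^ g / ‖AC R n (pt q (f k))‖ := by
      rw [abs_mul, abs_pow, abs_neg, abs_one, one_pow, one_mul]
      exact h1
    have h4 : (-1 : ℝ) ^ k * (H (f k) - 2 * √(q : ℝ) ^ g *
        ((-1 : ℝ) ^ k / ‖AC R n (pt q (f k))‖)) =
        (-1 : ℝ) ^ k * H (f k) - 2 * √(q : ℝ) ^ g / ‖AC R n (pt q (f k))‖ := by
      calc (-1 : ℝ) ^ k * (H (f k) - 2 * √(q : ℝ) ^ g * ((-1 : ℝ) ^ k / ‖AC R n (pt q (f k))‖))
          = (-1 : ℝ) ^ k * H (f k) - ((-1 : ℝ) ^ k * (-1 : ℝ) ^ k) *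
            (2 * √(q : ℝ) ^ g / ‖AC R n (pt q (f k))‖) := by ring
        _ = _ := by rw [h2, one_mul]
    rw [h4] at h3
    have h5 := (abs_lt.1 h3).1
    linarith
  -- the zeros
  have hz : ∀ k : ℕ, k < g → ∃ z : ℝ, f k ≤ z ∧ z ≤ f (k + 1) ∧ H z = 0 := by
    intro k hk
    have s1 := hsign k hk.le
    have s2 := hsign (k + 1) hk
    have hc : ContinuousOn (fun θ => (-1 : ℝ) ^ k * H θ) (Set.Icc (f k) (f (k + 1))) :=
      (continuous_const.mul hHc).continuousOn
    have hmem : (0 : ℝ) ∈ Set.Icc ((-1 : ℝ) ^ k * H (f (k + 1))) ((-1 : ℝ) ^ k * H (f k)) := by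
      constructor
      · rw [pow_succ] at s2
        linarith
      · exact s1.le
    obtain ⟨z, hz1, hz2⟩ := intermediate_value_Icc' (hf' k hk).le hc hmem
    refine ⟨z, hz1.1, hz1.2, ?_⟩
    have h3 : (-1 : ℝ) ^ k ≠ 0 := by positivity
    exact (mul_eq_zero.1 hz2).resolve_left h3
  have hfne : ∀ k ≤ g, H (f k) ≠ 0 := by
    intro k hk h0
    have := hsign k hk
    rw [h0, mul_zero] at this
    exact lt_irrefl _ this
  choose! z hz1 hz2 hz3 using hz
  have hlt1 : ∀ k, k < g → f k < z k := fun k hk => lt_of_le_of_ne (hz1 k hk) fun he =>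
    hfne k hk.le (by rw [he]; exact hz3 k hk)
  have hlt2 : ∀ k, k < g → z k < f (k + 1) := fun k hk => lt_of_le_of_ne (hz2 k hk) fun he =>
    hfne (k + 1) hk (by rw [← he]; exact hz3 k hk)
  have hfmono : ∀ j k : ℕ, j ≤ k → k ≤ g → f j ≤ f k := by
    intro j k hjk
    induction k, hjk using Nat.le_induction with
    | base => intro _; exact le_rfl
    | succ k hk ih => intro hkg; exact (ih (by omega)).trans (hf' k (by omega)).le
  have hzmono : ∀ j k : ℕ, j < k → k < g → z j < z k := by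
    intro j k hjk hk
    exact (hlt2 j (by omega)).trans_le ((hfmono (j + 1) k hjk hk.le).trans (hlt1 k hk).le)
  have hzmem : ∀ k < g, z k ∈ Set.Icc 0 Real.pi := by
    intro k hk
    exact ⟨(hf k hk.le).1.trans (hz1 k hk), (hz2 k hk).trans (hf (k + 1) hk).2.1⟩
  refine ⟨fun i => z i, ?_⟩
  apply ROO.prod_roots g h hm hd (fun i : Fin g => 2 * √(q : ℝ) * Real.cos (z i))
  · intro i j hij
    have h1 : Real.cos (z i) = Real.cos (z j) := by
      have h2 : 2 * √(q : ℝ) ≠ 0 := by positivity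
      exact mul_left_cancel₀ h2 hij
    have h3 := Real.injOn_cos (hzmem i i.2) (hzmem j j.2) h1
    rcases lt_trichotomy (i : ℕ) (j : ℕ) with h4 | h4 | h4
    · exact absurd h3 (hzmono i j h4 j.2).ne
    · exact Fin.ext h4
    · exact absurd h3.symm (hzmono j i h4 i.2).ne
  · intro i
    exact hz3 i i.2

end Pool.Agent.VIR
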