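import Pool.Agent.VIR.St2

set_option autoImplicit false

namespace Pool.Agent.VIR

open Polynomial Finset

namespace SEL

theorem ceil_lo (y : ℝ) (N : ℕ) (hN : 1 ≤ N) : y ≤ ((N * ⌈y / N⌉₊ : ℕ) : ℝ) := by
  have hN' : (0 : ℝ) < N := by exact_mod_cast hN
  push_cast
  have h := Nat.le_ceil (y / N)
  rw [div_le_iff₀ hN'] at h
  linarith

theorem ceil_hi (y : ℝ) (hy : 0 ≤ y) (N : ℕ) (hN : 1 ≤ N) :
    ((N * ⌈y / N⌉₊ : ℕ) : ℝ) ≤ y + N := by
  have hN' : (0 : ℝ) < N := by exact_mod_cast hN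
  push_cast
  have h := Nat.ceil_lt_add_one (show 0 ≤ y / N by positivity)
  have h2 := mul_le_mul_of_nonneg_left h.le hN'.le
  have h3 : (N : ℝ) * (y / N + 1) = y + N := by field_simp
  linarith

theorem log_small (c₀ δ : ℝ) (hδ : 0 < δ) :
    ∃ g₁ : ℕ, ∀ g : ℕ, g₁ ≤ g → c₀ * (Real.log g + 1) ≤ δ * g := by
  have h1 : (fun x : ℝ => c₀ * (Real.log x + 1)) =o[Filter.atTop] (fun x : ℝ => x) := by
    apply Asymptotics.IsLittleO.const_mul_left
    apply Asymptotics.IsLittleO.add Real.isLittleO_log_id_atTop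
    exact Asymptotics.isLittleO_const_id_atTop 1
  have h2 := h1.bound hδ
  rw [Filter.eventually_atTop] at h2
  obtain ⟨a, ha⟩ := h2
  refine ⟨⌈a⌉₊, fun g hg => ?_⟩
  have h3 := ha g ((Nat.le_ceil a).trans (by exact_mod_cast hg))
  rw [Real.norm_of_nonneg (Nat.cast_nonneg g)] at h3
  exact (Real.le_norm_self _).trans h3

end SEL

open SEL in
theorem t_SEL : S_SEL := by
  intro q R β hq hβ hT
  have hs : 1 < √(q : ℝ) := one_lt_sqrt hq
  have hpos : ∀ r ∈ Icc 1 (max R 2), 0 < √(q : ℝ) ^ r - 1 := by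
    intro r hr
    have h1 : 1 < √(q : ℝ) ^ r := one_lt_pow₀ hs (by
      have := (Finset.mem_Icc.1 hr).1
      omega)
    linarith
  obtain ⟨W, hW⟩ : ∃ W : ℝ, W = ∑ r ∈ Icc 1 (max R 2), (r : ℝ) / (√(q : ℝ) ^ r - 1) := ⟨_, rfl⟩
  have hW0 : 0 ≤ W := by
    rw [hW]
    apply Finset.sum_nonneg
    intro r hr
    exact div_nonneg (Nat.cast_nonneg r) (hpos r hr).le
  obtain ⟨δ, hδ⟩ : ∃ δ : ℝ, δ = (1 - Th q R β) / (2 * (W + 1)) := ⟨_, rfl⟩
  have hδ0 : 0 < δ := by
    rw [hδ]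
    apply div_pos <;> linarith
  obtain ⟨b, hb⟩ : ∃ b : ℕ → ℝ, b = fun r => if r ≤ R then β r else 0 := ⟨_, rfl⟩
  have hb0 : ∀ r, 0 ≤ b r := by
    intro r
    rw [hb]
    dsimp only
    split_ifs
    · exact hβ r
    · exact le_rfl
  have hbR : ∀ r, r ≤ R → b r = β r := by
    intro r hr
    rw [hb]
    dsimp only
    rw [if_pos hr]
  have hbR' : ∀ r, ¬ r ≤ R → b r = 0 := by
    intro r hr
    rw [hb]
    dsimp only
    rw [if_neg hr]
  have hTh : Th q (max R 2) (fun r => b r + δ) = Th q R β + δ * W := by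
    have h1 : Th q (max R 2) (fun r => b r + δ) =
        ∑ r ∈ Icc 1 (max R 2), (r * b r / (√(q : ℝ) ^ r - 1)) +
          ∑ r ∈ Icc 1 (max R 2), δ * ((r : ℝ) / (√(q : ℝ) ^ r - 1)) := by
      unfold Th
      rw [← Finset.sum_add_distrib]
      apply Finset.sum_congr rfl
      intro r hr
      ring
    rw [h1, ← Finset.mul_sum, ← hW]
    congr 1
    unfold Th
    symm
    have h2 : ∑ r ∈ Icc 1 R, r * β r / (√(q : ℝ) ^ r - 1) =
        ∑ r ∈ Icc 1 R, r * b r / (√(q : ℝ) ^ r - 1) := by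
      apply Finset.sum_congr rfl
      intro r hr
      rw [hbR r (Finset.mem_Icc.1 hr).2]
    rw [h2]
    apply Finset.sum_subset
    · apply Finset.Icc_subset_Icc_right
      exact le_max_left _ _
    · intro r hr hr'
      rw [hbR' r]
      · simp
      · intro h
        apply hr'
        rw [Finset.mem_Icc]
        exact ⟨(Finset.mem_Icc.1 hr).1, h⟩
  refine ⟨max R 2, fun r => b r + δ, le_max_left _ _, le_max_right _ _, ?_, ?_, ?_⟩
  · intro r
    have := hb0 r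
    dsimp only
    linarith
  · rw [hTh]
    have h1 : δ * (2 * (W + 1)) = 1 - Th q R β := by
      rw [hδ]
      field_simp
    nlinarith
  · intro c₀
    obtain ⟨g₁, hg₁⟩ := log_small c₀ δ hδ0
    refine ⟨g₁, fun g hg N hN hNg => ?_⟩
    have hNδ : (N : ℝ) ≤ δ * g := hNg.trans (hg₁ g hg)
    have hg0 : (0 : ℝ) ≤ g := Nat.cast_nonneg g
    have hbg : ∀ r, 0 ≤ b r * g := fun r => mul_nonneg (hb0 r) hg0
    have h2lo := ceil_lo (b 2 * g + g) N hN
    have h2hi := ceil_hi (b 2 * g + g) (by have := hbg 2; linarith) N hN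
    have h2g : g ≤ N * ⌈(b 2 * g + g) / (N : ℝ)⌉₊ := by
      have h3 : (g : ℝ) ≤ ((N * ⌈(b 2 * g + g) / (N : ℝ)⌉₊ : ℕ) : ℝ) := by
        have := hbg 2
        linarith
      exact_mod_cast h3
    obtain ⟨m2, hm2⟩ : ∃ m2 : ℕ, m2 = N * ⌈(b 2 * g + g) / (N : ℝ)⌉₊ := ⟨_, rfl⟩
    rw [← hm2] at h2lo h2hi h2g
    have hcast : ((m2 - g : ℕ) : ℝ) = m2 - g := by
      rw [Nat.cast_sub h2g]
    refine ⟨fun r => if r = 2 then m2 - g else N * ⌈b r * g / (N : ℝ)⌉₊, ?_, ?_, ?_, ?_⟩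
    · intro r hr
      dsimp only
      split_ifs with h2
      · subst h2
        rw [hcast]
        linarith
      · have := ceil_hi (b r * g) (hbg r) N hN
        linarith
    · intro r hr
      dsimp only
      rw [← hbR r (Finset.mem_Icc.1 hr).2]
      split_ifs with h2
      · subst h2
        rw [hcast]
        linarith
      · exact ceil_lo (b r * g) N hN
    · dsimp only
      rw [if_pos rfl, Nat.sub_add_cancel h2g, hm2]
      exact Nat.dvd_mul_right _ _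
    · intro r hr h2
      dsimp only
      rw [if_neg h2]
      exact Nat.dvd_mul_right _ _

end Pool.Agent.VIR
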