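import Pool.Agent.VIR.St2

/-!
# Module STP: two-sided bounds
-/

set_option autoImplicit false

namespace Pool.Agent.VIR

open Polynomial Finset

namespace STP

/-- the modified exponents -/
noncomputable def be (q R : ℕ) (c : ℝ) (β : ℕ → ℝ) (r : ℕ) : ℝ :=
  if r ≤ R then c * β r else c * (1 - Th q R β) * (√(q : ℝ) ^ r - 1) / r

theorem pow_sub_pos {q : ℕ} (hq : 2 ≤ q) {r : ℕ} (hr : 1 ≤ r) : 0 < √(q : ℝ) ^ r - 1 := by
  have := one_lt_pow₀ (one_lt_sqrt hq) (by omega : r ≠ 0)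
  linarith

theorem be_nonneg {q R : ℕ} {c : ℝ} {β : ℕ → ℝ} (hq : 2 ≤ q) (hc : 0 ≤ c) (hβ : ∀ r, 0 ≤ β r)
    (hTh : Th q R β ≤ 1) (r : ℕ) : 0 ≤ be q R c β r := by
  unfold be
  split_ifs with h
  · exact mul_nonneg hc (hβ r)
  · have h1 := pow_sub_pos hq (by omega : 1 ≤ r)
    have h2 : 0 ≤ 1 - Th q R β := by linarith
    positivity

theorem be_eq {q R : ℕ} {c : ℝ} {β : ℕ → ℝ} {r : ℕ} (hr : r ≤ R) : be q R c β r = c * β r := by
  unfold be
  rw [if_pos hr]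

theorem Th_be {q R : ℕ} {c : ℝ} {β : ℕ → ℝ} (hq : 2 ≤ q) : Th q (R + 1) (be q R c β) = c := by
  unfold Th
  rw [sum_Icc_succ_top (by omega)]
  have h1 : ∑ r ∈ Icc 1 R, (r : ℝ) * be q R c β r / (√(q : ℝ) ^ r - 1) = c * Th q R β := by
    unfold Th
    rw [mul_sum]
    refine sum_congr rfl fun r hr => ?_
    rw [be_eq (mem_Icc.1 hr).2]
    ring
  have h2 : ((R + 1 : ℕ) : ℝ) * be q R c β (R + 1) / (√(q : ℝ) ^ (R + 1) - 1) =
      c * (1 - Th q R β) := by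
    have h3 := (pow_sub_pos hq (by omega : 1 ≤ R + 1)).ne'
    have h4 : ((R + 1 : ℕ) : ℝ) ≠ 0 := by
      exact_mod_cast Nat.succ_ne_zero R
    unfold be
    rw [if_neg (by omega), mul_div_cancel₀ _ h4, mul_div_cancel_right₀ _ h3]
  rw [h1, h2]
  ring

end STP

open STP in
theorem t_STP (hFIG : S_FIG) (hUPL : S_UPL) : S_STP := by
  intro q β hq hβ hTh R hR
  have hR0 : (0 : ℝ) < R := by exact_mod_cast hR
  have hR1 : (1 : ℝ) ≤ R := by exact_mod_cast hR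
  obtain ⟨c, hc⟩ : ∃ c : ℝ, c = 1 - 1 / R := ⟨_, rfl⟩
  have hRi : 0 < 1 / (R : ℝ) := by positivity
  have hRi1 : 1 / (R : ℝ) ≤ 1 := by
    rw [div_le_one hR0]
    exact hR1
  have hc0 : 0 ≤ c := by linarith
  have hc1 : c < 1 := by linarith
  obtain ⟨g₁, hg₁⟩ := hFIG q (R + 1) (be q R c β) hq (be_nonneg hq hc0 hβ (hTh R))
    (by rw [Th_be hq]; exact hc1)
  obtain ⟨g₂, hg₂⟩ := hUPL q (R + 1) (1 / R) hq hRi
  refine ⟨max g₁ g₂, fun g hg => ?_⟩
  obtain ⟨θ, P, B, hVC, hB⟩ := hg₁ g ((le_max_left _ _).trans hg)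
  refine ⟨θ, P, B, hVC, ?_⟩
  have h1 := hg₂ g ((le_max_right _ _).trans hg) θ B hVC.2.1
  have h2 : ∑ r ∈ Icc 1 (R + 1), (r : ℝ) * (B r - be q R c β r * g) / (√(q : ℝ) ^ r - 1) ≤
      2 / R * g := by
    have h3 : ∑ r ∈ Icc 1 (R + 1), (r : ℝ) * (B r - be q R c β r * g) / (√(q : ℝ) ^ r - 1) =
        ∑ r ∈ Icc 1 (R + 1), (r : ℝ) * B r / (√(q : ℝ) ^ r - 1) - c * g := by
      have h4 : c * g = ∑ r ∈ Icc 1 (R + 1), (r : ℝ) * be q R c β r / (√(q : ℝ) ^ r - 1) * g := by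
        rw [← sum_mul]
        congr 1
        exact (Th_be hq).symm
      rw [h4, ← sum_sub_distrib]
      refine sum_congr rfl fun r _ => ?_
      ring
    rw [h3]
    have h5 : (1 + 1 / (R : ℝ)) * g - c * g = 2 / R * g := by
      rw [hc]
      ring
    linarith
  have h3 : ∀ r ∈ Icc 1 (R + 1),
      0 ≤ (r : ℝ) * (B r - be q R c β r * g) / (√(q : ℝ) ^ r - 1) := by
    intro r hr
    have h4 := pow_sub_pos hq (mem_Icc.1 hr).1
    have h5 := hB r hr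
    have h6 : (0 : ℝ) ≤ r := Nat.cast_nonneg r
    exact div_nonneg (mul_nonneg h6 (by linarith)) h4.le
  intro r hr
  have hr' : r ∈ Icc 1 (R + 1) := by
    rw [mem_Icc] at hr ⊢
    omega
  have h4 := (single_le_sum h3 hr').trans h2
  have h5 := hB r hr'
  rw [be_eq (mem_Icc.1 hr).2] at h4 h5
  have h6 := pow_sub_pos hq (mem_Icc.1 hr).1
  have h7 : (1 : ℝ) ≤ r := by exact_mod_cast (mem_Icc.1 hr).1
  have hg0 : (0 : ℝ) ≤ g := Nat.cast_nonneg g
  have h8 : 0 ≤ (B r : ℝ) - c * β r * g := by linarith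
  rw [div_le_iff₀ h6] at h4
  have h9 : (B r : ℝ) - c * β r * g ≤ 2 / R * g * √(q : ℝ) ^ r := by
    have h10 : (B r : ℝ) - c * β r * g ≤ r * (B r - c * β r * g) := by nlinarith
    have h11 : 2 / R * g * (√(q : ℝ) ^ r - 1) ≤ 2 / R * g * √(q : ℝ) ^ r :=
      mul_le_mul_of_nonneg_left (by linarith) (by positivity)
    linarith
  have h12 : c * β r * g = β r * g - β r / R * g := by
    rw [hc]
    ring
  have h13 : 0 ≤ β r / R * g := mul_nonneg (div_nonneg (hβ r) hR0.le) hg0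
  have h14 : (β r + 2 * √(q : ℝ) ^ r) / R * g = β r / R * g + 2 / R * g * √(q : ℝ) ^ r := by
    ring
  have h15 : 0 ≤ 2 / R * g * √(q : ℝ) ^ r := by positivity
  rw [h14, abs_le]
  constructor <;> linarith

end Pool.Agent.VIR
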