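import Pool.Agent.VIR.St

/-!
# Virtual curves: limit form of the upper bound
-/

set_option autoImplicit false

namespace Pool.Agent.VIR

open Polynomial Finset Filter Topology

namespace UPL

/-- the weight of `r` -/
noncomputable def W (s : ℝ) (r M : ℕ) : ℝ :=
  ∑ k ∈ Icc 1 (M / r), (1 - (k : ℝ) * r / (M + 1)) / s ^ (k * r)

lemma sum_Icc_geom {s : ℝ} (hs : 1 < s) {r : ℕ} (hr : 1 ≤ r) :
    Tendsto (fun K : ℕ => ∑ k ∈ Icc 1 K, (1 : ℝ) / s ^ (k * r)) atTop (𝓝 (1 / (s ^ r - 1))) := by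
  have hs0 : 0 < s := by linarith
  have hy : 1 < s ^ r := one_lt_pow₀ hs (by omega)
  have hy0 : 0 < s ^ r := by linarith
  have hx0 : 0 ≤ (s ^ r)⁻¹ := by positivity
  have hx1 : (s ^ r)⁻¹ < 1 := inv_lt_one_of_one_lt₀ hy
  have h1 := (hasSum_geometric_of_lt_one hx0 hx1).tendsto_sum_nat
  have h2 : Tendsto (fun K : ℕ => ∑ i ∈ range (K + 1), ((s ^ r)⁻¹) ^ i - 1) atTop
      (𝓝 ((1 - (s ^ r)⁻¹)⁻¹ - 1)) := (h1.comp (tendsto_add_atTop_nat 1)).sub_const 1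
  have h3 : (1 - (s ^ r)⁻¹)⁻¹ - 1 = 1 / (s ^ r - 1) := by
    have h4 : s ^ r - 1 ≠ 0 := by linarith
    have h5 : 1 - (s ^ r)⁻¹ ≠ 0 := by linarith
    field_simp
    ring
  rw [h3] at h2
  refine h2.congr fun K => ?_
  rw [sum_range_succ', pow_zero, add_sub_cancel_right]
  have h6 : ∑ k ∈ Icc 1 K, (1 : ℝ) / s ^ (k * r) = ∑ k ∈ range K, (1 : ℝ) / s ^ ((k + 1) * r) := by
    rw [range_eq_Ico, sum_Ico_add' (fun k => (1 : ℝ) / s ^ (k * r)) 0 K 1]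
    rfl
  rw [h6]
  apply sum_congr rfl
  intro i _
  rw [inv_pow, ← pow_mul, one_div, mul_comm r (i + 1)]

lemma eventually_W {s : ℝ} (hs : 1 < s) {r : ℕ} (hr : 1 ≤ r) {c : ℝ} (hc : c < 1 / (s ^ r - 1)) :
    ∀ᶠ M : ℕ in atTop, c ≤ W s r M := by
  have hs0 : 0 < s := by linarith
  obtain ⟨K, hK⟩ := ((sum_Icc_geom hs hr).eventually_const_lt hc).exists
  have h1 : Tendsto (fun M : ℕ => ∑ k ∈ Icc 1 K, (1 - (k : ℝ) * r / (M + 1)) / s ^ (k * r)) atTop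
      (𝓝 (∑ k ∈ Icc 1 K, (1 - 0) / s ^ (k * r))) := by
    apply tendsto_finsetSum
    intro k _
    apply Tendsto.div_const
    apply Tendsto.const_sub
    have h2 : Tendsto (fun M : ℕ => (M : ℝ) + 1) atTop atTop :=
      tendsto_atTop_add_const_right _ _ tendsto_natCast_atTop_atTop
    exact h2.const_div_atTop _
  rw [sub_zero] at h1
  filter_upwards [h1.eventually_const_lt hK, eventually_ge_atTop (K * r)] with M hM1 hM2
  refine hM1.le.trans ?_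
  unfold W
  apply sum_le_sum_of_subset_of_nonneg
  · intro k hk
    rw [mem_Icc] at hk ⊢
    exact ⟨hk.1, hk.2.trans ((Nat.le_div_iff_mul_le (by omega)).2 hM2)⟩
  · intro k hk _
    rw [mem_Icc, Nat.le_div_iff_mul_le (by omega)] at hk
    have h3 : (k : ℝ) * r ≤ M := by exact_mod_cast hk.2
    have h4 : (k : ℝ) * r / (M + 1) ≤ 1 := by
      rw [div_le_one (by positivity)]
      linarith
    exact div_nonneg (by linarith) (by positivity)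

end UPL

theorem t_UPL (hUPP : S_UPP) : S_UPL := by
  intro q R ε hq hε
  have hs := one_lt_sqrt hq
  have hev : ∀ᶠ M : ℕ in atTop, ∀ r ∈ Icc 1 R,
      (1 + ε / 2)⁻¹ * (1 / (√(q : ℝ) ^ r - 1)) ≤ UPL.W (√(q : ℝ)) r M := by
    rw [Filter.eventually_all_finset]
    intro r hr
    have hr1 := (mem_Icc.1 hr).1
    apply UPL.eventually_W hs hr1
    have hy : 1 < √(q : ℝ) ^ r := one_lt_pow₀ hs (by omega)
    have h1 : 0 < 1 / (√(q : ℝ) ^ r - 1) := one_div_pos.2 (by linarith)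
    have h2 : (1 + ε / 2)⁻¹ < 1 := inv_lt_one_of_one_lt₀ (by linarith)
    calc (1 + ε / 2)⁻¹ * (1 / (√(q : ℝ) ^ r - 1)) < 1 * (1 / (√(q : ℝ) ^ r - 1)) :=
          mul_lt_mul_of_pos_right h2 h1
      _ = _ := one_mul _
  obtain ⟨M, hM, hM1⟩ := (hev.and (eventually_ge_atTop 1)).exists
  obtain ⟨g₀, hg₀⟩ := exists_nat_ge
    ((1 + ε / 2) * (∑ m ∈ Icc 1 M, (√(q : ℝ) ^ m + (√(q : ℝ))⁻¹ ^ m)) / (ε / 2))
  refine ⟨g₀, fun g hg θ B hB => ?_⟩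
  have h1 := hUPP q g R M θ B hq hM1 hB
  have h2 : ∑ r ∈ Icc 1 R, (r : ℝ) * B r / (√(q : ℝ) ^ r - 1) ≤
      (1 + ε / 2) * ∑ r ∈ Icc 1 R, (r : ℝ) * B r * UPL.W (√(q : ℝ)) r M := by
    rw [mul_sum]
    apply sum_le_sum
    intro r hr
    have h3 := hM r hr
    have h4 : 0 ≤ (r : ℝ) * B r := by positivity
    have h5 := mul_le_mul_of_nonneg_left h3 h4
    have h6 : (0 : ℝ) < 1 + ε / 2 := by linarith
    have h7 : (r : ℝ) * B r / (√(q : ℝ) ^ r - 1) =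
        (1 + ε / 2) * ((r : ℝ) * B r * ((1 + ε / 2)⁻¹ * (1 / (√(q : ℝ) ^ r - 1)))) := by
      field_simp
    rw [h7]
    exact mul_le_mul_of_nonneg_left h5 h6.le
  have h8 : (1 + ε / 2) * (∑ m ∈ Icc 1 M, (√(q : ℝ) ^ m + (√(q : ℝ))⁻¹ ^ m)) ≤ ε / 2 * g := by
    rw [div_le_iff₀ (by linarith)] at hg₀
    have h9 : (g₀ : ℝ) ≤ g := by exact_mod_cast hg
    nlinarith
  have h10 : (1 + ε / 2) * ∑ r ∈ Icc 1 R, (r : ℝ) * B r * UPL.W (√(q : ℝ)) r M ≤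
      (1 + ε / 2) * (g + ∑ m ∈ Icc 1 M, (√(q : ℝ) ^ m + (√(q : ℝ))⁻¹ ^ m)) :=
    mul_le_mul_of_nonneg_left h1 (by linarith)
  linarith

end Pool.Agent.VIR
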