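import Pool.Agent.VIR.St

/-!
# Virtual curves: module UPP, the explicit formula inequality
-/

set_option autoImplicit false

namespace Pool.Agent.VIR

open Polynomial Finset

namespace UPP

/-- the Fejer kernel is a sum of squares -/
lemma fejer (θ : ℝ) (M : ℕ) :
    (∑ a ∈ range (M + 1), Real.cos (a * θ)) ^ 2 + (∑ a ∈ range (M + 1), Real.sin (a * θ)) ^ 2 =
      (M + 1) + 2 * ∑ m ∈ range M, ((M : ℝ) - m) * Real.cos (((m + 1 : ℕ) : ℝ) * θ) := by
  induction M with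
  | zero => simp
  | succ M ih =>
    rw [Finset.sum_range_succ _ (M + 1), Finset.sum_range_succ (fun a : ℕ => Real.sin (a * θ)) (M + 1)]
    have h1 : Real.cos (((M + 1 : ℕ) : ℝ) * θ) * (∑ a ∈ range (M + 1), Real.cos (a * θ)) +
        Real.sin (((M + 1 : ℕ) : ℝ) * θ) * (∑ a ∈ range (M + 1), Real.sin (a * θ)) =
        ∑ m ∈ range (M + 1), Real.cos (((m + 1 : ℕ) : ℝ) * θ) := by
      rw [Finset.mul_sum, Finset.mul_sum, ← Finset.sum_add_distrib,
        ← Finset.sum_range_reflect (fun m : ℕ => Real.cos (((m + 1 : ℕ) : ℝ) * θ))]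
      refine Finset.sum_congr rfl fun a ha => ?_
      have ha' : a ≤ M := by
        rw [Finset.mem_range] at ha
        omega
      rw [← Real.cos_sub, show M + 1 - 1 - a + 1 = M + 1 - a by omega, Nat.cast_sub (by omega)]
      congr 1
      ring
    have h2 : ∑ m ∈ range (M + 1), (((M + 1 : ℕ) : ℝ) - m) * Real.cos (((m + 1 : ℕ) : ℝ) * θ) =
        ∑ m ∈ range M, ((M : ℝ) - m) * Real.cos (((m + 1 : ℕ) : ℝ) * θ) +
          ∑ m ∈ range (M + 1), Real.cos (((m + 1 : ℕ) : ℝ) * θ) := by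
      have h3 : ∑ m ∈ range M, ((M : ℝ) - m) * Real.cos (((m + 1 : ℕ) : ℝ) * θ) =
          ∑ m ∈ range (M + 1), ((M : ℝ) - m) * Real.cos (((m + 1 : ℕ) : ℝ) * θ) := by
        rw [Finset.sum_range_succ, sub_self, zero_mul, add_zero]
      rw [h3, ← Finset.sum_add_distrib]
      refine Finset.sum_congr rfl fun m _ => ?_
      push_cast
      ring
    have h4 := Real.sin_sq_add_cos_sq (((M + 1 : ℕ) : ℝ) * θ)
    rw [h2]
    have h5 : ((M + 1 : ℕ) : ℝ) = (M : ℝ) + 1 := by push_cast; ring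
    linear_combination ih + 2 * h1 + h4 - h5

lemma sum_Icc_one (f : ℕ → ℝ) (M : ℕ) : ∑ m ∈ Icc 1 M, f m = ∑ m ∈ range M, f (m + 1) := by
  have h1 : Icc 1 M = Ico 1 (M + 1) := by
    ext m
    simp only [Finset.mem_Icc, Finset.mem_Ico]
    omega
  rw [h1, Finset.sum_Ico_eq_sum_range, Nat.add_sub_cancel]
  exact Finset.sum_congr rfl fun m _ => by rw [add_comm]

lemma fejer_nonneg (θ : ℝ) (M : ℕ) :
    0 ≤ 1 + ∑ m ∈ Icc 1 M, (1 - (m : ℝ) / (M + 1)) * (2 * Real.cos (m * θ)) := by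
  have h1 := fejer θ M
  have h2 : 0 ≤ (M + 1 : ℝ) + 2 * ∑ m ∈ range M, ((M : ℝ) - m) *
      Real.cos (((m + 1 : ℕ) : ℝ) * θ) := by
    rw [← h1]
    positivity
  have hM : (0 : ℝ) < M + 1 := by positivity
  have h3 : (M + 1 : ℝ) * (1 + ∑ m ∈ Icc 1 M, (1 - (m : ℝ) / (M + 1)) *
      (2 * Real.cos (m * θ))) =
      (M + 1 : ℝ) + 2 * ∑ m ∈ range M, ((M : ℝ) - m) * Real.cos (((m + 1 : ℕ) : ℝ) * θ) := by
    rw [sum_Icc_one, mul_add, mul_one, Finset.mul_sum, Finset.mul_sum]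
    congr 1
    refine Finset.sum_congr rfl fun m _ => ?_
    push_cast
    field_simp
    ring
  rw [← h3] at h2
  exact nonneg_of_mul_nonneg_right h2 hM

/-- the sum over the multiples of `r` -/
lemma sum_mult (f : ℕ → ℝ) (M r : ℕ) (hr : 1 ≤ r) :
    ∑ k ∈ Icc 1 (M / r), f (k * r) = ∑ m ∈ (Icc 1 M).filter (fun m => r ∣ m), f m := by
  refine Finset.sum_nbij' (fun k => k * r) (fun m => m / r) ?_ ?_ ?_ ?_ ?_
  · intro k hk
    rw [Finset.mem_Icc] at hk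
    rw [Finset.mem_filter, Finset.mem_Icc]
    refine ⟨⟨Nat.mul_pos hk.1 hr, ?_⟩, dvd_mul_left r k⟩
    exact (Nat.le_div_iff_mul_le hr).1 hk.2
  · intro m hm
    rw [Finset.mem_filter, Finset.mem_Icc] at hm
    rw [Finset.mem_Icc]
    exact ⟨Nat.div_pos (Nat.le_of_dvd hm.1.1 hm.2) hr, Nat.div_le_div_right hm.1.2⟩
  · intro k _
    exact Nat.mul_div_cancel k hr
  · intro m hm
    rw [Finset.mem_filter] at hm
    exact Nat.div_mul_cancel hm.2
  · intro k _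
    rfl

end UPP

open UPP in
theorem t_UPP : S_UPP := by
  intro q g R M θ B hq hM hC
  have hs1 : 1 < √(q : ℝ) := one_lt_sqrt hq
  have hs0 : 0 < √(q : ℝ) := by linarith
  obtain ⟨s, hs⟩ : ∃ s, s = √(q : ℝ) := ⟨_, rfl⟩
  rw [← hs] at hs1 hs0 ⊢
  have hM0 : (0 : ℝ) < M + 1 := by positivity
  have hc0 : ∀ m ∈ Icc 1 M, 0 ≤ 1 - (m : ℝ) / (M + 1) := by
    intro m hm
    rw [Finset.mem_Icc] at hm
    have h1 : (m : ℝ) ≤ M := by exact_mod_cast hm.2
    rw [sub_nonneg, div_le_one hM0]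
    linarith
  have hc1 : ∀ m : ℕ, 1 - (m : ℝ) / (M + 1) ≤ 1 := by
    intro m
    have : 0 ≤ (m : ℝ) / (M + 1) := by positivity
    linarith
  -- the left side as a sum over `m`
  have hL : ∑ r ∈ Icc 1 R, (r : ℝ) * B r * ∑ k ∈ Icc 1 (M / r),
      (1 - (k : ℝ) * r / (M + 1)) / s ^ (k * r) =
      ∑ m ∈ Icc 1 M, (1 - (m : ℝ) / (M + 1)) / s ^ m *
        ∑ r ∈ (Icc 1 R).filter (fun r => r ∣ m), (r : ℝ) * B r := by
    have h1 : ∀ r ∈ Icc 1 R, (r : ℝ) * B r * ∑ k ∈ Icc 1 (M / r),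
        (1 - (k : ℝ) * r / (M + 1)) / s ^ (k * r) =
        ∑ m ∈ Icc 1 M, if r ∣ m then (1 - (m : ℝ) / (M + 1)) / s ^ m * ((r : ℝ) * B r) else 0 := by
      intro r hr
      rw [Finset.mem_Icc] at hr
      have h2 := sum_mult (fun m => (1 - (m : ℝ) / (M + 1)) / s ^ m) M r hr.1
      simp only [Nat.cast_mul] at h2
      rw [h2, Finset.mul_sum, Finset.sum_filter]
      refine Finset.sum_congr rfl fun m _ => ?_
      split_ifs
      · ring
      · rfl
    rw [Finset.sum_congr rfl h1, Finset.sum_comm]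
    refine Finset.sum_congr rfl fun m _ => ?_
    rw [Finset.mul_sum, Finset.sum_filter]
  rw [hL]
  -- comparison with the sum over all divisors
  have hN : ∀ m ∈ Icc 1 M, ∑ r ∈ (Icc 1 R).filter (fun r => r ∣ m), (r : ℝ) * B r ≤
      (q : ℝ) ^ m + 1 - ∑ i, 2 * s ^ m * Real.cos (m * θ i) := by
    intro m hm
    rw [Finset.mem_Icc] at hm
    have h1 := hC m hm.1
    rw [← hs] at h1
    rw [← h1]
    push_cast
    refine Finset.sum_le_sum_of_subset_of_nonneg ?_ fun _ _ _ => by positivity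
    intro r hr
    rw [Finset.mem_filter] at hr
    exact Nat.mem_divisors.2 ⟨hr.2, by omega⟩
  have hq2 : (q : ℝ) = s ^ 2 := by
    rw [hs, Real.sq_sqrt (by positivity)]
  -- the explicit formula
  have hF : 0 ≤ (g : ℝ) + ∑ m ∈ Icc 1 M, (1 - (m : ℝ) / (M + 1)) *
      (∑ i, 2 * Real.cos (m * θ i)) := by
    have h1 : (g : ℝ) + ∑ m ∈ Icc 1 M, (1 - (m : ℝ) / (M + 1)) *
        (∑ i, 2 * Real.cos (m * θ i)) =
        ∑ i, (1 + ∑ m ∈ Icc 1 M, (1 - (m : ℝ) / (M + 1)) * (2 * Real.cos (m * θ i))) := by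
      rw [Finset.sum_add_distrib, Finset.sum_const, Finset.card_univ, Fintype.card_fin,
        nsmul_eq_mul, mul_one, Finset.sum_comm]
      congr 1
      exact Finset.sum_congr rfl fun m _ => by rw [Finset.mul_sum]
    rw [h1]
    exact Finset.sum_nonneg fun i _ => fejer_nonneg (θ i) M
  have hterm : ∀ m ∈ Icc 1 M, (1 - (m : ℝ) / (M + 1)) / s ^ m *
      ∑ r ∈ (Icc 1 R).filter (fun r => r ∣ m), (r : ℝ) * B r ≤
      (s ^ m + s⁻¹ ^ m) - (1 - (m : ℝ) / (M + 1)) * (∑ i, 2 * Real.cos (m * θ i)) := by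
    intro m hm
    have hp : 0 < s ^ m := pow_pos hs0 m
    have h0 := hc0 m hm
    have e1 : ((q : ℝ) ^ m + 1 - ∑ i, 2 * s ^ m * Real.cos (m * θ i)) / s ^ m =
        (s ^ m + s⁻¹ ^ m) - ∑ i, 2 * Real.cos (m * θ i) := by
      have e2 : ∑ i, 2 * s ^ m * Real.cos (m * θ i) = s ^ m * ∑ i, 2 * Real.cos (m * θ i) := by
        rw [Finset.mul_sum]
        exact Finset.sum_congr rfl fun i _ => by ring
      rw [e2, hq2, inv_pow, ← pow_mul, mul_comm 2 m, pow_mul]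
      field_simp
    calc (1 - (m : ℝ) / (M + 1)) / s ^ m *
          ∑ r ∈ (Icc 1 R).filter (fun r => r ∣ m), (r : ℝ) * B r
        ≤ (1 - (m : ℝ) / (M + 1)) / s ^ m *
          ((q : ℝ) ^ m + 1 - ∑ i, 2 * s ^ m * Real.cos (m * θ i)) :=
          mul_le_mul_of_nonneg_left (hN m hm) (by positivity)
      _ = (1 - (m : ℝ) / (M + 1)) *
          (((q : ℝ) ^ m + 1 - ∑ i, 2 * s ^ m * Real.cos (m * θ i)) / s ^ m) := by ring
      _ = (1 - (m : ℝ) / (M + 1)) * (s ^ m + s⁻¹ ^ m) -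
          (1 - (m : ℝ) / (M + 1)) * (∑ i, 2 * Real.cos (m * θ i)) := by rw [e1]; ring
      _ ≤ (s ^ m + s⁻¹ ^ m) - (1 - (m : ℝ) / (M + 1)) * (∑ i, 2 * Real.cos (m * θ i)) := by
          have h1 : (1 - (m : ℝ) / (M + 1)) * (s ^ m + s⁻¹ ^ m) ≤ 1 * (s ^ m + s⁻¹ ^ m) :=
            mul_le_mul_of_nonneg_right (hc1 m) (by positivity)
          linarith
  have hsum := Finset.sum_le_sum hterm
  rw [Finset.sum_sub_distrib] at hsum
  linarith

end Pool.Agent.VIR
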