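import Pool.Agent.VIR.St

/-!
# WEI: congruence for `LL`
-/

set_option autoImplicit false

namespace Pool.Agent.VIR

open Polynomial Finset

namespace WEI

theorem LL_add (q g : ℕ) (a b : ℤ[X]) : LL q g (a + b) = LL q g a + LL q g b := by
  unfold LL
  rw [← sum_add_distrib]
  refine sum_congr rfl fun k _ => ?_
  rw [coeff_add, C_add]
  ring

theorem LL_C_mul (q g : ℕ) (c : ℤ) (h : ℤ[X]) : LL q g (C c * h) = C c * LL q g h := by
  unfold LL
  rw [mul_sum]
  refine sum_congr rfl fun k _ => ?_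
  rw [coeff_C_mul, C_mul]
  ring

theorem LL_zero (q g : ℕ) : LL q g 0 = 0 := by
  unfold LL
  refine sum_eq_zero fun k _ => ?_
  rw [coeff_zero, C_0, zero_mul, zero_mul]

theorem LL_sum (q g : ℕ) (s : Finset ℕ) (f : ℕ → ℤ[X]) :
    LL q g (∑ a ∈ s, f a) = ∑ a ∈ s, LL q g (f a) := by
  induction s using Finset.induction_on with
  | empty => rw [sum_empty, sum_empty, LL_zero]
  | insert a s ha ih => rw [sum_insert ha, sum_insert ha, LL_add, ih]

theorem LL_shift (q g k : ℕ) (h : ℤ[X]) (hk : k ≤ g) (hh : h.natDegree ≤ k) :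
    LL q g h = X ^ (g - k) * LL q k h := by
  unfold LL
  rw [mul_sum]
  have h1 : range (k + 1) ⊆ range (g + 1) := range_subset_range.2 (by omega)
  rw [← sum_subset h1]
  · refine sum_congr rfl fun j hj => ?_
    have h2 := mem_range.1 hj
    have h3 : g - j = (g - k) + (k - j) := by omega
    rw [h3, pow_add]
    ring
  · intro j _ hj
    rw [mem_range, not_lt] at hj
    rw [coeff_eq_zero_of_natDegree_lt (by omega), C_0, zero_mul, zero_mul]

theorem low_dvd (q g K : ℕ) (low : ℤ[X]) (hK : K < g)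
    (h : low.degree < ((g - K : ℕ) : WithBot ℕ)) : (X : ℤ[X]) ^ (K + 1) ∣ LL q g low := by
  unfold LL
  refine dvd_sum fun k _ => ?_
  rcases lt_or_ge k (g - K) with h1 | h1
  · have h2 : K + 1 ≤ g - k := by omega
    exact Dvd.dvd.mul_right (Dvd.dvd.mul_left (pow_dvd_pow _ h2) _) _
  · have h2 : low.coeff k = 0 := by
      apply coeff_eq_zero_of_degree_lt
      exact h.trans_le (by exact_mod_cast h1)
    rw [h2, C_0, zero_mul, zero_mul]
    exact dvd_zero _

end WEI

open WEI in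
theorem t_WEI (hDIK : S_DIK) : S_WEI := by
  intro q g K ℓ low hK hlow
  have h1 : LL q g (HH q g K ℓ low) - tr K ℓ =
      ∑ a ∈ range (K + 1), C (ℓ a) * (X ^ a * (C ((q : ℤ) ^ (g - a)) * X ^ (2 * (g - a)))) +
        LL q g low := by
    unfold HH tr
    rw [LL_add, LL_sum, add_sub_right_comm, ← sum_sub_distrib]
    congr 1
    refine sum_congr rfl fun a ha => ?_
    have ha' := mem_range.1 ha
    obtain ⟨-, -, h2, h3⟩ := hDIK q (g - a)
    rw [LL_C_mul, LL_shift q g (g - a) _ (Nat.sub_le _ _) h2.le, h3]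
    have h4 : g - (g - a) = a := by omega
    rw [h4]
    ring
  rw [h1]
  refine dvd_add (dvd_sum fun a ha => ?_) (low_dvd q g K low hK hlow)
  have ha' := mem_range.1 ha
  have h5 : C (ℓ a) * (X ^ a * (C ((q : ℤ) ^ (g - a)) * X ^ (2 * (g - a)))) =
      C (ℓ a) * C ((q : ℤ) ^ (g - a)) * (X : ℤ[X]) ^ (a + 2 * (g - a)) := by
    rw [pow_add]
    ring
  rw [h5]
  exact Dvd.dvd.mul_left (pow_dvd_pow _ (by omega)) _

end Pool.Agent.VIR
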