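import Pool.Agent.VIR.St

/-!
# Module WTS: weights (finite Fourier inversion)
-/

set_option autoImplicit false

namespace Pool.Agent.VIR

open Finset

namespace WTS

theorem dirichlet (y : ℝ) (d : ℕ) :
    Real.sin y * (1 + 2 * ∑ i ∈ Icc 1 d, Real.cos (2 * i * y)) = Real.sin ((2 * d + 1) * y) := by
  induction d with
  | zero => simp
  | succ d ih =>
    rw [Finset.sum_Icc_succ_top (by omega)]
    have h1 : Real.sin ((2 * ((d + 1 : ℕ) : ℝ) + 1) * y) - Real.sin ((2 * (d : ℝ) + 1) * y) =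
        2 * Real.sin y * Real.cos (2 * ((d + 1 : ℕ) : ℝ) * y) := by
      have e1 : (2 * ((d + 1 : ℕ) : ℝ) + 1) * y = 2 * ((d + 1 : ℕ) : ℝ) * y + y := by ring
      have e2 : (2 * (d : ℝ) + 1) * y = 2 * ((d + 1 : ℕ) : ℝ) * y - y := by
        push_cast
        ring
      rw [e1, e2, Real.sin_add, Real.sin_sub]
      ring
    have h2 : Real.sin ((2 * ((d + 1 : ℕ) : ℝ) + 1) * y) = Real.sin ((2 * (d : ℝ) + 1) * y) +
        2 * Real.sin y * Real.cos (2 * ((d + 1 : ℕ) : ℝ) * y) := by linarith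
    rw [h2, ← ih]
    ring

theorem sum_cos (d : ℕ) (m : ℤ) (h : ¬ ((2 * d + 1 : ℤ) ∣ m)) :
    1 + 2 * ∑ i ∈ Icc 1 d, Real.cos (2 * Real.pi * i * m / (2 * d + 1)) = 0 := by
  have hn : (2 * (d : ℝ) + 1) ≠ 0 := by positivity
  have h1 := dirichlet (Real.pi * m / (2 * d + 1)) d
  have h2 : (2 * (d : ℝ) + 1) * (Real.pi * m / (2 * d + 1)) = (m : ℝ) * Real.pi := by
    field_simp
  rw [h2, Real.sin_int_mul_pi] at h1
  have h3 : Real.sin (Real.pi * m / (2 * d + 1)) ≠ 0 := by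
    intro h0
    obtain ⟨k, hk⟩ := Real.sin_eq_zero_iff.1 h0
    apply h
    refine ⟨k, ?_⟩
    have h4 : (k : ℝ) * (2 * d + 1) = m := by
      rw [eq_div_iff hn] at hk
      have h5 : Real.pi * ((k : ℝ) * (2 * d + 1)) = Real.pi * m := by linarith
      exact mul_left_cancel₀ Real.pi_ne_zero h5
    have h6 : (m : ℝ) = (((2 * d + 1) * k : ℤ) : ℝ) := by
      push_cast
      linarith
    exact_mod_cast h6
  have h7 := (mul_eq_zero.1 h1).resolve_left h3
  rw [← h7]
  congr 2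
  refine Finset.sum_congr rfl fun i _ => ?_
  congr 1
  ring

theorem sum_cos_nat (d j : ℕ) (h1 : 1 ≤ j) (h2 : j ≤ d) :
    1 + 2 * ∑ i ∈ Icc 1 d, Real.cos (2 * Real.pi * i * j / (2 * d + 1)) = 0 := by
  have h := sum_cos d (j : ℤ) (by
    intro h
    have := Int.le_of_dvd (by omega) h
    omega)
  simpa using h

theorem sum_prod (d j k : ℕ) (h1 : 1 ≤ j) (h2 : j ≤ d) (h3 : 1 ≤ k) (h4 : k ≤ d) :
    1 + 2 * ∑ i ∈ Icc 1 d, Real.cos (2 * Real.pi * i * k / (2 * d + 1)) *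
      Real.cos (2 * Real.pi * i * j / (2 * d + 1)) = if k = j then (2 * (d : ℝ) + 1) / 2 else 0 := by
  have e : ∀ i : ℕ, Real.cos (2 * Real.pi * i * k / (2 * d + 1)) *
      Real.cos (2 * Real.pi * i * j / (2 * d + 1)) =
      (Real.cos (2 * Real.pi * i * ((k + j : ℤ) : ℝ) / (2 * d + 1)) +
        Real.cos (2 * Real.pi * i * ((k - j : ℤ) : ℝ) / (2 * d + 1))) / 2 := by
    intro i
    have e1 : 2 * Real.pi * i * ((k + j : ℤ) : ℝ) / (2 * d + 1) =
        2 * Real.pi * i * k / (2 * d + 1) + 2 * Real.pi * i * j / (2 * d + 1) := by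
      push_cast
      ring
    have e2 : 2 * Real.pi * i * ((k - j : ℤ) : ℝ) / (2 * d + 1) =
        2 * Real.pi * i * k / (2 * d + 1) - 2 * Real.pi * i * j / (2 * d + 1) := by
      push_cast
      ring
    rw [e1, e2, Real.cos_add, Real.cos_sub]
    ring
  simp_rw [e]
  rw [← Finset.sum_div, Finset.sum_add_distrib]
  have s1 := sum_cos d (k + j : ℤ) (by
    intro h
    have := Int.le_of_dvd (by omega) h
    omega)
  by_cases hkj : k = j
  · rw [if_pos hkj]
    have s2 : ∑ i ∈ Icc 1 d, Real.cos (2 * Real.pi * i * ((k - j : ℤ) : ℝ) / (2 * d + 1)) = d := by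
      subst hkj
      simp
    rw [s2]
    linarith
  · rw [if_neg hkj]
    have s2 := sum_cos d (k - j : ℤ) (by
      intro h
      have h0 : (k - j : ℤ) ≠ 0 := by omega
      have := Int.le_of_dvd (abs_pos.2 h0) ((dvd_abs _ _).2 h)
      have h5 : |(k - j : ℤ)| < 2 * d + 1 := by
        rw [abs_lt]
        omega
      omega)
    linarith

end WTS

theorem t_WTS : S_WTS := by
  intro d a Θ ha hΘ
  have hn : (0 : ℝ) < 2 * (d : ℝ) + 1 := by positivity
  refine ⟨fun i => (2 * Θ - 2 * ∑ k ∈ Icc 1 d, a k *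
    Real.cos (2 * Real.pi * i * k / (2 * d + 1))) / (2 * d + 1), ?_, ?_, ?_⟩
  · intro i
    refine div_nonneg ?_ hn.le
    have h1 : ∑ k ∈ Icc 1 d, a k * Real.cos (2 * Real.pi * i * k / (2 * d + 1)) ≤
        ∑ k ∈ Icc 1 d, a k := Finset.sum_le_sum fun k _ => by
      have := mul_le_mul_of_nonneg_left (Real.cos_le_one (2 * Real.pi * i * k / (2 * d + 1))) (ha k)
      linarith
    linarith
  · have h1 : ∑ i ∈ Icc 1 d, (2 * Θ - 2 * ∑ k ∈ Icc 1 d, a k *
        Real.cos (2 * Real.pi * i * k / (2 * d + 1))) / (2 * (d : ℝ) + 1) =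
        (2 * Θ * d - 2 * ∑ k ∈ Icc 1 d, a k *
          ∑ i ∈ Icc 1 d, Real.cos (2 * Real.pi * i * k / (2 * d + 1))) / (2 * d + 1) := by
      rw [← Finset.sum_div, Finset.sum_sub_distrib]
      congr 2
      · simp only [Finset.sum_const, Nat.card_Icc, nsmul_eq_mul, Nat.add_sub_cancel]
        ring
      · rw [← Finset.mul_sum, Finset.sum_comm]
        congr 1
        refine Finset.sum_congr rfl fun k _ => ?_
        rw [Finset.mul_sum]
    have h2 : ∑ k ∈ Icc 1 d, a k * ∑ i ∈ Icc 1 d,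
        Real.cos (2 * Real.pi * i * k / (2 * (d : ℝ) + 1)) = - (1 / 2) * ∑ k ∈ Icc 1 d, a k := by
      rw [Finset.mul_sum]
      refine Finset.sum_congr rfl fun k hk => ?_
      obtain ⟨hk1, hk2⟩ := Finset.mem_Icc.1 hk
      have := WTS.sum_cos_nat d k hk1 hk2
      have h3 : ∑ i ∈ Icc 1 d, Real.cos (2 * Real.pi * i * k / (2 * (d : ℝ) + 1)) = - (1 / 2) := by
        linarith
      rw [h3]
      ring
    rw [h1, h2]
    simp only [Nat.cast_zero, mul_zero, zero_mul, zero_div, Real.cos_zero, mul_one]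
    field_simp
    ring
  · intro j hj
    obtain ⟨hj1, hj2⟩ := Finset.mem_Icc.1 hj
    have hc := WTS.sum_cos_nat d j hj1 hj2
    have hp : ∀ k ∈ Icc 1 d, a k * (1 + 2 * ∑ i ∈ Icc 1 d,
        Real.cos (2 * Real.pi * i * k / (2 * d + 1)) *
        Real.cos (2 * Real.pi * i * j / (2 * d + 1))) =
        a k * (if k = j then (2 * (d : ℝ) + 1) / 2 else 0) := by
      intro k hk
      obtain ⟨hk1, hk2⟩ := Finset.mem_Icc.1 hk
      rw [WTS.sum_prod d j k hj1 hj2 hk1 hk2]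
    have h1 : ∑ k ∈ Icc 1 d, a k * (1 + 2 * ∑ i ∈ Icc 1 d,
        Real.cos (2 * Real.pi * i * k / (2 * d + 1)) *
        Real.cos (2 * Real.pi * i * j / (2 * d + 1))) = a j * ((2 * (d : ℝ) + 1) / 2) := by
      rw [Finset.sum_congr rfl hp]
      simp only [mul_ite, mul_zero]
      rw [Finset.sum_ite_eq' (Icc 1 d) j, if_pos hj]
    have h2 : ∑ i ∈ Icc 1 d, 2 * ((2 * Θ - 2 * ∑ k ∈ Icc 1 d, a k *
        Real.cos (2 * Real.pi * i * k / (2 * d + 1))) / (2 * (d : ℝ) + 1)) *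
        Real.cos (2 * Real.pi * i * j / (2 * d + 1)) =
        (2 * Θ * (2 * ∑ i ∈ Icc 1 d, Real.cos (2 * Real.pi * i * j / (2 * d + 1))) -
          2 * ∑ k ∈ Icc 1 d, a k * (2 * ∑ i ∈ Icc 1 d,
        Real.cos (2 * Real.pi * i * k / (2 * d + 1)) *
        Real.cos (2 * Real.pi * i * j / (2 * d + 1)))) / (2 * d + 1) := by
      have e : ∀ i : ℕ, 2 * ((2 * Θ - 2 * ∑ k ∈ Icc 1 d, a k *
        Real.cos (2 * Real.pi * i * k / (2 * d + 1))) / (2 * (d : ℝ) + 1)) *
        Real.cos (2 * Real.pi * i * j / (2 * d + 1)) =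
        (2 * Θ * (2 * Real.cos (2 * Real.pi * i * j / (2 * d + 1))) -
          2 * ∑ k ∈ Icc 1 d, a k * (2 * (Real.cos (2 * Real.pi * i * k / (2 * d + 1)) *
        Real.cos (2 * Real.pi * i * j / (2 * d + 1))))) / (2 * d + 1) := by
        intro i
        have e2 : ∑ k ∈ Icc 1 d, a k * (2 * (Real.cos (2 * Real.pi * i * k / (2 * d + 1)) *
          Real.cos (2 * Real.pi * i * j / (2 * d + 1)))) =
          2 * (∑ k ∈ Icc 1 d, a k * Real.cos (2 * Real.pi * i * k / (2 * d + 1))) *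
            Real.cos (2 * Real.pi * i * j / (2 * d + 1)) := by
          rw [Finset.mul_sum, Finset.sum_mul]
          refine Finset.sum_congr rfl fun k _ => ?_
          ring
        rw [e2]
        ring
      simp_rw [e]
      rw [← Finset.sum_div, Finset.sum_sub_distrib]
      congr 2
      · rw [Finset.mul_sum, Finset.mul_sum]
      · rw [← Finset.mul_sum, Finset.sum_comm]
        congr 1
        refine Finset.sum_congr rfl fun k _ => ?_
        rw [Finset.mul_sum, Finset.mul_sum]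
    have h3 : ∑ k ∈ Icc 1 d, a k * (2 * ∑ i ∈ Icc 1 d,
        Real.cos (2 * Real.pi * i * k / (2 * d + 1)) *
        Real.cos (2 * Real.pi * i * j / (2 * d + 1))) =
        a j * ((2 * (d : ℝ) + 1) / 2) - ∑ k ∈ Icc 1 d, a k := by
      rw [← h1, ← Finset.sum_sub_distrib]
      refine Finset.sum_congr rfl fun k _ => ?_
      ring
    rw [h2, h3]
    have h4 : 2 * ∑ i ∈ Icc 1 d, Real.cos (2 * Real.pi * i * j / (2 * (d : ℝ) + 1)) = -1 := by
      linarith
    rw [h4]
    simp only [Nat.cast_zero, mul_zero, zero_mul, zero_div, Real.cos_zero, mul_one]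
    field_simp
    ring

end Pool.Agent.VIR
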