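import Pool.Agent.VIR.P_DIK
import Pool.Agent.VIR.P_WEI
import Pool.Agent.VIR.P_HOM
import Pool.Agent.VIR.P_ORD
import Pool.Agent.VIR.P_H0
import Pool.Agent.VIR.P_ROO
import Pool.Agent.VIR.P_RND
import Pool.Agent.VIR.P_EXP
import Pool.Agent.VIR.P_DVD
import Pool.Agent.VIR.P_COR
import Pool.Agent.VIR.P_LGA
import Pool.Agent.VIR.P_LGM
import Pool.Agent.VIR.P_WTS
import Pool.Agent.VIR.P_APA
import Pool.Agent.VIR.P_GRO
import Pool.Agent.VIR.P_CPO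
import Pool.Agent.VIR.P_INV
import Pool.Agent.VIR.P_NWT
import Pool.Agent.VIR.P_NWA
import Pool.Agent.VIR.P_NPR
import Pool.Agent.VIR.P_EUL
import Pool.Agent.VIR.P_NEC
import Pool.Agent.VIR.P_POS
import Pool.Agent.VIR.P_CNT
import Pool.Agent.VIR.P_UPP
import Pool.Agent.VIR.P_UPL
import Pool.Agent.VIR.P_APG
import Pool.Agent.VIR.P_LOG
import Pool.Agent.VIR.P_SEL
import Pool.Agent.VIR.P_CNG
import Pool.Agent.VIR.P_EIS
import Pool.Agent.VIR.P_IRP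
import Pool.Agent.VIR.P_MAG
import Pool.Agent.VIR.P_FIG
import Pool.Agent.VIR.P_STP
import Pool.Agent.VIR.P_LIM

/-!
# Virtual curves: assembly
-/

set_option autoImplicit false

namespace Pool.Agent.VIR

theorem f_H0 : S_H0 := t_H0 t_DIK
theorem f_WEI : S_WEI := t_WEI t_DIK
theorem f_COR : S_COR := t_COR t_EXP t_DVD
theorem f_APA : S_APA := t_APA t_WTS t_LGA t_LGM
theorem f_APG : S_APG := t_APG f_APA f_COR t_GRO
theorem f_LOG : S_LOG := t_LOG f_APG f_H0 t_CPO t_DIK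
theorem f_EIS : S_EIS := t_EIS f_WEI
theorem f_MAG : S_MAG := t_MAG f_LOG f_APG f_H0 t_RND t_INV t_SEL t_CNG f_EIS
theorem f_NWT : S_NWT := t_NWT t_NPR
theorem f_NEC : S_NEC := t_NEC t_EUL
theorem f_CNT : S_CNT := t_CNT f_NWT t_NWA t_NPR t_EUL f_NEC t_POS
theorem f_FIG : S_FIG := t_FIG t_DIK f_MAG t_ROO t_HOM f_WEI f_CNT t_ORD t_IRP
theorem f_UPL : S_UPL := t_UPL t_UPP
theorem f_STP : S_STP := t_STP f_FIG f_UPL
theorem f_LIM : S_LIM := t_LIM f_STP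

end Pool.Agent.VIR
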