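import Pool.Agent.VIR.St

/-!
# Virtual curves, module APX: the approximants
-/

set_option autoImplicit false

namespace Pool.Agent.VIR

open Polynomial Finset

namespace APX

/-- the sum of the basic inequality at `ρ` -/
noncomputable def F (R : ℕ) (β : ℕ → ℝ) (ρ : ℝ) : ℝ :=
  ∑ r ∈ Icc 1 R, (r : ℝ) * β r * ρ ^ r / (1 - ρ ^ r)

theorem F_inv {q R : ℕ} (hq : 2 ≤ q) (β : ℕ → ℝ) : F R β (√(q : ℝ))⁻¹ = Th q R β := by
  have hs := one_lt_sqrt hq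
  unfold F Th
  refine sum_congr rfl fun r hr => ?_
  have hr1 := (mem_Icc.1 hr).1
  have h1 : 1 < √(q : ℝ) ^ r := one_lt_pow₀ hs (by omega)
  have h2 : √(q : ℝ) ^ r ≠ 0 := by positivity
  have h3 : √(q : ℝ) ^ r - 1 ≠ 0 := by linarith
  rw [inv_pow]
  have h4 : 1 - (√(q : ℝ) ^ r)⁻¹ ≠ 0 := by
    have : (√(q : ℝ) ^ r)⁻¹ < 1 := inv_lt_one_of_one_lt₀ h1
    linarith
  field_simp

theorem exists_rho {q R : ℕ} (hq : 2 ≤ q) (β : ℕ → ℝ) (hT : Th q R β < 1) :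
    ∃ ρ : ℝ, (√(q : ℝ))⁻¹ < ρ ∧ ρ < 1 ∧ F R β ρ < 1 := by
  have hs := one_lt_sqrt hq
  have hx0 : 0 < (√(q : ℝ))⁻¹ := inv_pos.2 (by linarith)
  have hx1 : (√(q : ℝ))⁻¹ < 1 := inv_lt_one_of_one_lt₀ hs
  have hc : ContinuousAt (F R β) (√(q : ℝ))⁻¹ := by
    unfold F
    refine tendsto_finsetSum _ fun r hr => ?_
    have hr1 := (mem_Icc.1 hr).1
    have h1 : (√(q : ℝ))⁻¹ ^ r < 1 := pow_lt_one₀ hx0.le hx1 (by omega)
    have h2 : ContinuousAt (fun ρ : ℝ => (r : ℝ) * β r * ρ ^ r / (1 - ρ ^ r)) (√(q : ℝ))⁻¹ := by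
      apply ContinuousAt.div
      · fun_prop
      · fun_prop
      · linarith
    exact h2
  have hT' : F R β (√(q : ℝ))⁻¹ < 1 := by
    rw [F_inv hq]
    exact hT
  have e1 : ∀ᶠ ρ in nhds (√(q : ℝ))⁻¹, F R β ρ < 1 := hc.eventually (gt_mem_nhds hT')
  have e2 : ∀ᶠ ρ in nhds (√(q : ℝ))⁻¹, ρ < 1 := gt_mem_nhds hx1
  have e3 : ∀ᶠ ρ in nhdsWithin (√(q : ℝ))⁻¹ (Set.Ioi (√(q : ℝ))⁻¹), F R β ρ < 1 ∧ ρ < 1 :=
    (e1.and e2).filter_mono nhdsWithin_le_nhds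
  obtain ⟨ρ, ⟨h1, h2⟩, h3⟩ := (e3.and self_mem_nhdsWithin).exists
  exact ⟨ρ, h3, h2, h1⟩

theorem aeval_map_An (R : ℕ) (n : ℕ → ℕ) (T : ℂ) :
    aeval T ((An R n).map (Int.castRingHom ℝ)) = AC R n T := by
  rw [← aeval_An, ← algebraMap_int_eq, Polynomial.aeval_map_algebraMap]

/-- the approximants, for all exponents `n r ≤ β r * g` -/
theorem gen (hAPA : S_APA) (hCOR : S_COR) (hGRO : S_GRO) (q R : ℕ) (β : ℕ → ℝ) (c₀ : ℝ)
    (hq : 2 ≤ q) (hβ : ∀ r, 0 ≤ β r) (hT : Th q R β < 1) :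
    ∃ g₁ : ℕ, 1 ≤ g₁ ∧ ∀ g : ℕ, g₁ ≤ g → ∀ n : ℕ → ℕ, (∀ r ∈ Icc 1 R, (n r : ℝ) ≤ β r * g) →
      ∀ K : ℕ, (K : ℝ) ≤ c₀ * Real.log g + 1 →
      ∃ Rp : ℝ[X], Rp.natDegree + K < 2 * g ∧
        (X : ℝ[X]) ^ (K + 1) ∣ (An R n).map (Int.castRingHom ℝ) * Rp - 1 ∧
        ∀ T : ℂ, ‖T‖ = (√(q : ℝ))⁻¹ → ‖AC R n T * aeval T Rp - 1‖ ≤ 1 / 8 := by
  have hs := one_lt_sqrt hq
  have hx0 : 0 < (√(q : ℝ))⁻¹ := inv_pos.2 (by linarith)
  obtain ⟨ρ, hρ1, hρ2, hρ3⟩ := exists_rho hq β hT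
  have hρ0 : 0 < ρ := hx0.trans hρ1
  set x : ℝ := (√(q : ℝ))⁻¹ with hx
  set Θ : ℝ := F R β ρ with hΘ
  have hΘ0 : 0 ≤ Θ := by
    rw [hΘ]
    unfold F
    refine sum_nonneg fun r hr => ?_
    have hr1 := (mem_Icc.1 hr).1
    have h1 : ρ ^ r < 1 := pow_lt_one₀ hρ0.le hρ2 (by omega)
    have h2 := hβ r
    have h3 : 0 < 1 - ρ ^ r := by linarith
    positivity
  set S : ℝ := ∑ r ∈ Icc 1 R, (r : ℝ) * β r with hS
  have hS0 : 0 ≤ S := sum_nonneg fun r _ => mul_nonneg (Nat.cast_nonneg _) (hβ r)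
  set τ : ℝ := x / ρ with hτ
  have hτ0 : 0 < τ := div_pos hx0 hρ0
  have hτ1 : τ < 1 := (div_lt_one hρ0).2 hρ1
  have h1τ : 0 < 1 - τ := by linarith
  have hxτ : ∀ j : ℕ, x ^ j = ρ ^ j * τ ^ j := by
    intro j
    rw [hτ, ← mul_pow, mul_div_cancel₀ _ hρ0.ne']
  obtain ⟨g₁, hg₁, hG⟩ := hGRO c₀ τ ((S + 2) / (1 - τ)) (8 / (1 - τ)) (1 - Θ) hτ0 hτ1 (by linarith)
  refine ⟨g₁, hg₁, fun g hg n hn K hK => ?_⟩
  obtain ⟨d, N, hKd, hKN, hD, hD', hN, hNd⟩ := hG g hg K hK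
  have hg0 : (0 : ℝ) ≤ g := Nat.cast_nonneg g
  have hg1 : (1 : ℝ) ≤ g := by exact_mod_cast hg₁.trans hg
  -- the polynomial of `APA`
  have hsum : ∑ r ∈ Icc 1 R, (r : ℝ) * n r * ρ ^ r / (1 - ρ ^ r) ≤ Θ * g := by
    rw [hΘ]
    unfold F
    rw [Finset.sum_mul]
    refine sum_le_sum fun r hr => ?_
    have hr1 := (mem_Icc.1 hr).1
    have h1 : ρ ^ r < 1 := pow_lt_one₀ hρ0.le hρ2 (by omega)
    have h3 : 0 < 1 - ρ ^ r := by linarith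
    have h4 := hn r hr
    rw [div_mul_eq_mul_div]
    apply div_le_div_of_nonneg_right _ h3.le
    have h5 : (r : ℝ) * n r ≤ (r : ℝ) * (β r * g) :=
      mul_le_mul_of_nonneg_left h4 (Nat.cast_nonneg _)
    calc (r : ℝ) * n r * ρ ^ r ≤ (r : ℝ) * (β r * g) * ρ ^ r :=
          mul_le_mul_of_nonneg_right h5 (by positivity)
      _ = _ := by ring
  obtain ⟨Q, z, hQd, hz0, hzB, hzd, hzT⟩ := hAPA R n d ρ (Θ * g) hρ0 hρ2 hsum
  have hnS : ∑ r ∈ Icc 1 R, (r : ℝ) * n r ≤ S * g := by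
    rw [hS, Finset.sum_mul]
    refine sum_le_sum fun r hr => ?_
    rw [mul_assoc]
    exact mul_le_mul_of_nonneg_left (hn r hr) (Nat.cast_nonneg _)
  have hzB' : ∀ j, |z j| * x ^ j ≤ (S + 2) * g * τ ^ j := by
    intro j
    rw [hxτ, ← mul_assoc]
    refine mul_le_mul_of_nonneg_right ?_ (by positivity)
    refine (hzB j).trans ?_
    nlinarith
  have hgeo : Summable fun j : ℕ => (S + 2) * g * τ ^ j :=
    (summable_geometric_of_lt_one hτ0.le hτ1).mul_left _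
  have hnn : ∀ j : ℕ, 0 ≤ |z j| * x ^ j := fun j => by positivity
  have hsumm : Summable fun j : ℕ => |z j| * x ^ j := Summable.of_nonneg_of_le hnn hzB' hgeo
  have h8 : 8 * ∑ j ∈ Icc 1 d, |z j| * x ^ j ≤ N := by
    refine le_trans ?_ hD'
    have h1 : ∑ j ∈ Icc 1 d, |z j| * x ^ j ≤ ∑ j ∈ Icc 1 d, (2 * (d : ℝ) + 1) * τ ^ j := by
      refine sum_le_sum fun j hj => ?_
      rw [hxτ, ← mul_assoc]
      exact mul_le_mul_of_nonneg_right (hzd j hj) (by positivity)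
    have h2 : ∑ j ∈ Icc 1 d, τ ^ j ≤ 1 / (1 - τ) := by
      rw [one_div, ← tsum_geometric_of_lt_one hτ0.le hτ1]
      exact (summable_geometric_of_lt_one hτ0.le hτ1).sum_le_tsum _ fun j _ => by positivity
    rw [← Finset.mul_sum] at h1
    calc 8 * ∑ j ∈ Icc 1 d, |z j| * x ^ j
        ≤ 8 * ((2 * (d : ℝ) + 1) * ∑ j ∈ Icc 1 d, τ ^ j) := by linarith
      _ ≤ 8 * ((2 * (d : ℝ) + 1) * (1 / (1 - τ))) := by gcongr
      _ = 8 / (1 - τ) * (2 * d + 1) := by ring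
  have htail : ∑' j, |z (j + d + 1)| * x ^ (j + d + 1) ≤ 1 / 20 := by
    have hs1 : Summable fun j : ℕ => |z (j + d + 1)| * x ^ (j + d + 1) := by
      have := (summable_nat_add_iff (d + 1)).2 hsumm
      exact this
    have hs2 : Summable fun j : ℕ => (S + 2) * g * τ ^ (j + d + 1) := by
      have := (summable_nat_add_iff (d + 1)).2 hgeo
      exact this
    have h1 : ∑' j, |z (j + d + 1)| * x ^ (j + d + 1) ≤ ∑' j, (S + 2) * g * τ ^ (j + d + 1) :=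
      hs1.tsum_le_tsum (fun j => hzB' (j + d + 1)) hs2
    have h2 : ∑' j : ℕ, (S + 2) * g * τ ^ (j + d + 1) = (S + 2) / (1 - τ) * g * τ ^ (d + 1) := by
      have h3 : ∀ j : ℕ, (S + 2) * g * τ ^ (j + d + 1) = (S + 2) * g * τ ^ (d + 1) * τ ^ j := by
        intro j
        rw [add_assoc, pow_add]
        ring
      simp only [h3]
      rw [tsum_mul_left, tsum_geometric_of_lt_one hτ0.le hτ1]
      ring
    rw [h2] at h1
    exact h1.trans hD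
  have hexp : ∀ T : ℂ, ‖T‖ ≤ x →
      aeval T ((An R n).map (Int.castRingHom ℝ) * Q) * Complex.exp (∑' j, (z j : ℂ) * T ^ j) = 1 := by
    intro T hT'
    rw [map_mul, aeval_map_An]
    exact hzT T (lt_of_le_of_lt hT' hρ1)
  obtain ⟨Co, hCo1, hCo2, hCo3⟩ := hCOR x ((An R n).map (Int.castRingHom ℝ) * Q) z d N K hx0 hz0
    hsumm hKd hKN h8 htail hN hexp
  refine ⟨Q * Co, ?_, ?_, ?_⟩
  · have h1 : (Q * Co).natDegree ≤ Q.natDegree + Co.natDegree := natDegree_mul_le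
    have h2 : (((Q * Co).natDegree + K : ℕ) : ℝ) < ((2 * g : ℕ) : ℝ) := by
      have h3 : (((Q * Co).natDegree : ℕ) : ℝ) ≤ (Q.natDegree : ℝ) + (Co.natDegree : ℝ) := by
        exact_mod_cast h1
      have h4 : (Co.natDegree : ℝ) ≤ (N : ℝ) * d := by exact_mod_cast hCo1
      push_cast
      nlinarith
    exact_mod_cast h2
  · rw [← mul_assoc]
    exact hCo2
  · intro T hT'
    have h1 := hCo3 T hT'.le
    rw [map_mul, map_mul, aeval_map_An] at h1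
    rw [map_mul, ← mul_assoc]
    exact h1

end APX

/-- Module APX. -/
theorem t_APX (hAPA : S_APA) (hCOR : S_COR) (hGRO : S_GRO) : S_APX := by
  intro q R β c₀ hq hβ hT
  obtain ⟨g₁, hg₁, h⟩ := APX.gen hAPA hCOR hGRO q R β c₀ hq hβ hT
  refine ⟨g₁, hg₁, fun g hg K hK => h g hg (nn β g) (fun r _ => ?_) K hK⟩
  unfold nn
  exact Nat.floor_le (mul_nonneg (hβ r) (Nat.cast_nonneg g))

end Pool.Agent.VIR
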