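import Pool.Agent.VIR.St

/-!
# Virtual curves: the positive constant
-/

set_option autoImplicit false

namespace Pool.Agent.VIR

open Polynomial Finset

namespace CPO

lemma term {s : ℝ} (hs : 1 < s) {r : ℕ} (hr : 1 ≤ r) :
    Real.log (1 + s⁻¹ ^ r) ≤ (r : ℝ) / (s ^ r - 1) * Real.log s := by
  have hs0 : 0 < s := by linarith
  have hy : 1 < s ^ r := one_lt_pow₀ hs (by omega)
  have hy0 : 0 < s ^ r := by linarith
  have h1 : Real.log (1 + s⁻¹ ^ r) ≤ s⁻¹ ^ r := by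
    have h := Real.log_le_sub_one_of_pos (x := 1 + s⁻¹ ^ r) (by positivity)
    linarith
  have h2 : 1 - (s ^ r)⁻¹ ≤ Real.log (s ^ r) := Real.one_sub_inv_le_log_of_pos hy0
  rw [Real.log_pow] at h2
  have h3 : s⁻¹ ^ r ≤ (r : ℝ) / (s ^ r - 1) * Real.log s := by
    rw [inv_pow, div_mul_eq_mul_div, le_div_iff₀ (by linarith)]
    calc (s ^ r)⁻¹ * (s ^ r - 1) = 1 - (s ^ r)⁻¹ := by
          field_simp
      _ ≤ r * Real.log s := h2
  exact h1.trans h3

end CPO

theorem t_CPO : S_CPO := by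
  intro q R β hq hβ hT
  have hs := one_lt_sqrt hq
  have hlog : 0 < Real.log (√(q : ℝ)) := Real.log_pos hs
  refine ⟨(1 - Th q R β) * Real.log (√(q : ℝ)), mul_pos (by linarith) hlog, ?_⟩
  have h : ∑ r ∈ Icc 1 R, β r * Real.log (1 + (√(q : ℝ))⁻¹ ^ r) ≤
      Th q R β * Real.log (√(q : ℝ)) := by
    unfold Th
    rw [sum_mul]
    apply sum_le_sum
    intro r hr
    have h1 := mul_le_mul_of_nonneg_left (CPO.term hs (mem_Icc.1 hr).1) (hβ r)
    refine h1.trans (le_of_eq ?_)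
    ring
  linarith

end Pool.Agent.VIR
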