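import Pool.Agent.VIR.St

/-!
# Virtual curves, module DIK: Dickson polynomials
-/

set_option autoImplicit false

namespace Pool.Agent.VIR

open Polynomial Finset

namespace DIK

theorem eval_Dk (q k : ℕ) (θ : ℝ) :
    aeval (2 * √(q : ℝ) * Real.cos θ) (Dk q k) = 2 * √(q : ℝ) ^ k * Real.cos (k * θ) := by
  induction k using Nat.twoStepInduction with
  | zero =>
    rw [Dk, aeval_C]
    simp
  | one => simp [Dk]
  | more k h0 h1 =>
    rw [Dk, map_sub, map_mul, map_mul, aeval_X, aeval_C, h0, h1]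
    have hq : (√(q : ℝ)) * √(q : ℝ) = q := Real.mul_self_sqrt (Nat.cast_nonneg q)
    have hc : Real.cos (((k + 2 : ℕ) : ℝ) * θ) =
        2 * Real.cos θ * Real.cos (((k + 1 : ℕ) : ℝ) * θ) - Real.cos ((k : ℝ) * θ) := by
      have e1 : ((k + 2 : ℕ) : ℝ) * θ = ((k + 1 : ℕ) : ℝ) * θ + θ := by push_cast; ring
      have e2 : (k : ℝ) * θ = ((k + 1 : ℕ) : ℝ) * θ - θ := by push_cast; ring
      rw [e1, e2, Real.cos_add, Real.cos_sub]
      ring
    rw [hc]
    have h2 : (algebraMap ℤ ℝ) (q : ℤ) = (√(q : ℝ)) * √(q : ℝ) := by rw [hq]; simp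
    rw [h2]
    ring

theorem deg_Dk (q k : ℕ) : (Dk q (k + 1)).Monic ∧ (Dk q (k + 1)).natDegree = k + 1 ∧
    (Dk q k).natDegree = k := by
  induction k with
  | zero =>
    refine ⟨?_, ?_, ?_⟩
    · simp only [Dk]; exact monic_X
    · simp [Dk]
    · simp only [Dk]; exact natDegree_C 2
  | succ k ih =>
    obtain ⟨hm, hd, hd0⟩ := ih
    have h1 : (X * Dk q (k + 1)).natDegree = k + 2 := by
      rw [natDegree_X_mul hm.ne_zero, hd]
    have h2 : (C (q : ℤ) * Dk q k).natDegree ≤ k := (natDegree_C_mul_le _ _).trans hd0.le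
    have h3 : (C (q : ℤ) * Dk q k).natDegree < (X * Dk q (k + 1)).natDegree := by omega
    have h4 : (X * Dk q (k + 1)).Monic := monic_X.mul hm
    refine ⟨?_, ?_, hd⟩
    · rw [Dk]
      exact h4.sub_of_left (degree_lt_degree h3)
    · rw [Dk, natDegree_sub_eq_left_of_natDegree_lt h3, h1]

theorem LL_sub (q g : ℕ) (h1 h2 : ℤ[X]) : LL q g (h1 - h2) = LL q g h1 - LL q g h2 := by
  unfold LL
  rw [← Finset.sum_sub_distrib]
  refine Finset.sum_congr rfl fun k _ => ?_
  rw [coeff_sub, C_sub]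
  ring

theorem LL_C_mul (q g : ℕ) (c : ℤ) (h : ℤ[X]) : LL q g (C c * h) = C c * LL q g h := by
  unfold LL
  rw [Finset.mul_sum]
  refine Finset.sum_congr rfl fun k _ => ?_
  rw [coeff_C_mul, C_mul]
  ring

theorem LL_succ (q g : ℕ) (h : ℤ[X]) (hh : h.natDegree ≤ g) : LL q (g + 1) h = X * LL q g h := by
  unfold LL
  rw [Finset.sum_range_succ, coeff_eq_zero_of_natDegree_lt (by omega : h.natDegree < g + 1),
    Finset.mul_sum]
  simp only [map_zero, zero_mul, add_zero]
  refine Finset.sum_congr rfl fun k hk => ?_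
  have hk' : k ≤ g := by simpa [Nat.lt_succ_iff] using hk
  rw [show g + 1 - k = (g - k) + 1 by omega, pow_succ]
  ring

theorem LL_X_mul (q g : ℕ) (h : ℤ[X]) :
    LL q (g + 1) (X * h) = (1 + C (q : ℤ) * X ^ 2) * LL q g h := by
  unfold LL
  rw [Finset.sum_range_succ', Finset.mul_sum]
  simp only [coeff_X_mul, mul_coeff_zero, coeff_X_zero, zero_mul, map_zero, add_zero]
  refine Finset.sum_congr rfl fun k hk => ?_
  rw [show g + 1 - (k + 1) = g - k by omega, pow_succ]
  ring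

theorem LL_Dk (q k : ℕ) : LL q k (Dk q k) = 1 + C ((q : ℤ) ^ k) * X ^ (2 * k) := by
  induction k using Nat.twoStepInduction with
  | zero =>
    simp only [LL, Dk, zero_add, Finset.sum_range_one, coeff_C_zero, pow_zero, mul_one, mul_zero,
      map_one]
    norm_num
  | one =>
    simp only [LL, Dk]
    rw [Finset.sum_range_succ, Finset.sum_range_one]
    simp
  | more k h0 h1 =>
    rw [Dk, LL_sub, LL_C_mul, LL_X_mul, h1,
      LL_succ q (k + 1) _ (by rw [(deg_Dk q k).2.2]; omega),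
      LL_succ q k _ (by rw [(deg_Dk q k).2.2]), h0]
    simp only [C_pow]
    ring

end DIK

theorem t_DIK : S_DIK := by
  intro q k
  refine ⟨fun θ => DIK.eval_Dk q k θ, ?_, (DIK.deg_Dk q k).2.2, DIK.LL_Dk q k⟩
  intro hk
  obtain ⟨j, rfl⟩ : ∃ j, k = j + 1 := ⟨k - 1, by omega⟩
  exact (DIK.deg_Dk q j).1

end Pool.Agent.VIR
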