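import Pool.Agent.VIR.St2
import Pool.Agent.VIR.P_FIN
import Pool.Agent.VIR.P_HOM

/-!
# Virtual curves: module IRP (irreducibility of `X^g h(X + q / X)`)
-/

set_option autoImplicit false

namespace Pool.Agent.VIR

open Polynomial Finset IntermediateField

namespace IRP

/-- An element of `ℚ(x)` is real if `x` is real. -/
lemma real_of_mem {x : ℝ} {z : ℂ} (hz : z ∈ ℚ⟮(x : ℂ)⟯) : z.im = 0 := by
  have h1 : ℚ⟮(x : ℂ)⟯ ≤ (IsScalarTower.toAlgHom ℚ ℝ ℂ).fieldRange := by
    rw [adjoin_simple_le_iff]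
    exact ⟨x, rfl⟩
  obtain ⟨r, hr⟩ := h1 hz
  have hr' : (r : ℂ) = z := hr
  rw [← hr', Complex.ofReal_im]

/-- The degree of a root of `X² - x X + q` which is not real. -/
lemma degree_ge {x : ℝ} {α : ℂ} {q g : ℕ} (hα : α.im ≠ 0) (hint : IsIntegral ℚ α)
    (hq : α ^ 2 + q = x * α) (hβ : IsIntegral ℚ (x : ℂ))
    (hdeg : (minpoly ℚ (x : ℂ)).natDegree = g) : 2 * g ≤ (minpoly ℚ α).natDegree := by
  have hα0 : α ≠ 0 := by rintro rfl; simp at hα
  have hx : (x : ℂ) = α + q / α := by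
    field_simp
    linear_combination -hq
  have hmem : (x : ℂ) ∈ ℚ⟮α⟯ := by
    rw [hx]
    have h1 : α ∈ ℚ⟮α⟯ := mem_adjoin_simple_self ℚ α
    exact add_mem h1 (div_mem (IntermediateField.natCast_mem _ q) h1)
  have hle : ℚ⟮(x : ℂ)⟯ ≤ ℚ⟮α⟯ := by
    rw [adjoin_simple_le_iff]
    exact hmem
  have hfin : FiniteDimensional ℚ ℚ⟮α⟯ := adjoin.finiteDimensional hint
  have hd1 := adjoin.finrank hβ
  have hd2 := adjoin.finrank hint
  have hdvd : Module.finrank ℚ ℚ⟮(x : ℂ)⟯ ∣ Module.finrank ℚ ℚ⟮α⟯ := finrank_dvd_of_le_right hle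
  obtain ⟨m, hm⟩ := hdvd
  have hpos : 0 < Module.finrank ℚ ℚ⟮α⟯ := Module.finrank_pos
  rw [hd1, hdeg] at hm
  rw [hd2] at hm hpos
  have hm0 : m ≠ 0 := by rintro rfl; omega
  have hm1 : m ≠ 1 := by
    rintro rfl
    have heq : ℚ⟮(x : ℂ)⟯ = ℚ⟮α⟯ := by
      apply eq_of_le_of_finrank_eq hle
      rw [hd1, hdeg, hd2, hm, mul_one]
    apply hα
    apply real_of_mem (x := x)
    rw [heq]
    exact mem_adjoin_simple_self ℚ α
  rw [hm]
  have : 2 ≤ m := by omega
  nlinarith

end IRP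

open IRP in
theorem t_IRP : S_IRP := by
  intro q g h θ hq hg hirr hh
  have hg0 : 0 < g := by omega
  set s : ℝ := √(q : ℝ) with hs
  have hs2 : s * s = q := Real.mul_self_sqrt (Nat.cast_nonneg q)
  have hs0 : 0 < s := Real.sqrt_pos.2 (by exact_mod_cast hq)
  have hinjR : Function.Injective (Int.castRingHom ℝ) := Int.cast_injective
  have hinjQ : Function.Injective (Int.castRingHom ℚ) := Int.cast_injective
  -- `h` is monic of degree `g`
  have hmapmon : (h.map (Int.castRingHom ℝ)).Monic := by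
    rw [hh]
    exact monic_prod_of_monic _ _ fun i _ => monic_X_sub_C _
  have hmon : h.Monic := monic_of_injective hinjR hmapmon
  have hdeg : h.natDegree = g := by
    rw [← natDegree_map_eq_of_injective hinjR h, hh, natDegree_finsetProd_X_sub_C_eq_card,
      card_univ, Fintype.card_fin]
  -- `P` is monic of degree `2 g`
  have hP := FIN.map_PP t_HOM (q := q) hh
  have hfac : ∀ i : Fin g, (X ^ 2 - C (2 * s * Real.cos (θ i)) * X + C (q : ℝ)).Monic ∧
      (X ^ 2 - C (2 * s * Real.cos (θ i)) * X + C (q : ℝ)).natDegree = 2 := by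
    intro i
    have e : (X ^ 2 - C (2 * s * Real.cos (θ i)) * X + C (q : ℝ)) =
        X ^ 2 + (C (-(2 * s * Real.cos (θ i))) * X + C (q : ℝ)) := by
      rw [C_neg]; ring
    rw [e]
    have hlt : (C (-(2 * s * Real.cos (θ i))) * X + C (q : ℝ)).degree <
        ((X : ℝ[X]) ^ 2).degree := by
      rw [degree_X_pow]
      exact lt_of_le_of_lt degree_linear_le (by norm_num)
    refine ⟨(monic_X_pow 2).add_of_left hlt, ?_⟩
    rw [natDegree_add_eq_left_of_degree_lt hlt, natDegree_X_pow]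
  have hPmapmon : ((PP q g h).map (Int.castRingHom ℝ)).Monic := by
    rw [hP]
    exact monic_prod_of_monic _ _ fun i _ => (hfac i).1
  have hPmon : (PP q g h).Monic := monic_of_injective hinjR hPmapmon
  have hPdeg : (PP q g h).natDegree = 2 * g := by
    rw [← natDegree_map_eq_of_injective hinjR (PP q g h), hP,
      natDegree_prod_of_monic _ _ fun i _ => (hfac i).1,
      Finset.sum_congr rfl fun i _ => (hfac i).2]
    simp [mul_comm]
  -- the root `β`
  set i0 : Fin g := ⟨0, hg0⟩ with hi0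
  set x : ℝ := 2 * s * Real.cos (θ i0) with hx
  have hhx : aeval (x : ℂ) (h.map (algebraMap ℤ ℚ)) = 0 := by
    rw [aeval_map_algebraMap]
    have h1 : (h.map (Int.castRingHom ℝ)).eval x = 0 := by
      rw [hh, eval_prod]
      apply Finset.prod_eq_zero (mem_univ i0)
      simp [hx]
    rw [eval_map] at h1
    have h2 : aeval (x : ℂ) h = ((eval₂ (Int.castRingHom ℝ) x h : ℝ) : ℂ) := by
      rw [aeval_def]
      have h3 := hom_eval₂ h (Int.castRingHom ℝ) Complex.ofRealHom x
      rw [Complex.ofRealHom_eq_coe, Complex.ofRealHom_eq_coe] at h3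
      rw [h3]
      congr 1
    rw [h2, h1, Complex.ofReal_zero]
  have hQirr : Irreducible (h.map (algebraMap ℤ ℚ)) :=
    (hmon.irreducible_iff_irreducible_map_fraction_map (K := ℚ)).1 hirr
  have hmin : h.map (algebraMap ℤ ℚ) = minpoly ℚ (x : ℂ) :=
    minpoly.eq_of_irreducible_of_monic hQirr hhx (hmon.map _)
  have hmindeg : (minpoly ℚ (x : ℂ)).natDegree = g := by
    rw [← hmin, natDegree_map_eq_of_injective (algebraMap ℤ ℚ).injective_int, hdeg]
  have hintx : IsIntegral ℚ (x : ℂ) := ⟨h.map (algebraMap ℤ ℚ), hmon.map _, hhx⟩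
  -- `x ^ 2 ≠ 4 q`
  have hsq : x ^ 2 ≠ 4 * (q : ℝ) := by
    intro h4
    have h5 : aeval (x : ℂ) ((X : ℚ[X]) ^ 2 - C (4 * (q : ℚ))) = 0 := by
      simp only [map_sub, map_pow, aeval_X, aeval_C]
      have h6 : ((x : ℂ)) ^ 2 = 4 * (q : ℂ) := by exact_mod_cast congrArg Complex.ofReal h4
      rw [h6]
      simp
    have h7 : ((X : ℚ[X]) ^ 2 - C (4 * (q : ℚ))).Monic := monic_X_pow_sub_C _ (by norm_num)
    have h8 := natDegree_le_natDegree (minpoly.degree_le_of_ne_zero ℚ (x : ℂ) h7.ne_zero h5)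
    rw [hmindeg, natDegree_X_pow_sub_C] at h8
    omega
  have hsin : Real.sin (θ i0) ≠ 0 := by
    intro h0
    apply hsq
    have h1 := Real.sin_sq_add_cos_sq (θ i0)
    rw [h0] at h1
    have h2 : Real.cos (θ i0) ^ 2 = 1 := by linarith
    calc x ^ 2 = 4 * (s * s) * Real.cos (θ i0) ^ 2 := by rw [hx]; ring
      _ = 4 * (q : ℝ) := by rw [hs2, h2, mul_one]
  -- the root `α`
  obtain ⟨α, hα⟩ : ∃ α : ℂ, α = ⟨s * Real.cos (θ i0), s * Real.sin (θ i0)⟩ := ⟨_, rfl⟩
  have hαim : α.im ≠ 0 := by rw [hα]; exact mul_ne_zero hs0.ne' hsin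
  have hαeq : α ^ 2 + q = x * α := by
    have h1 := Real.sin_sq_add_cos_sq (θ i0)
    apply Complex.ext
    · rw [hα, hx]
      simp only [pow_two, Complex.add_re, Complex.mul_re, Complex.natCast_re, Complex.ofReal_re,
        Complex.ofReal_im]
      rw [← hs2]
      nlinarith
    · rw [hα, hx]
      simp only [pow_two, Complex.add_im, Complex.mul_im, Complex.natCast_im, Complex.ofReal_re,
        Complex.ofReal_im]
      ring
  have hPα : aeval α ((PP q g h).map (algebraMap ℤ ℚ)) = 0 := by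
    rw [aeval_map_algebraMap]
    have h2 : aeval α (PP q g h) = eval₂ Complex.ofRealHom α
        ((PP q g h).map (Int.castRingHom ℝ)) := by
      rw [eval₂_map, aeval_def]
      congr 1
    rw [h2, hP, eval₂_finsetProd]
    apply Finset.prod_eq_zero (mem_univ i0)
    rw [eval₂_add, eval₂_sub, eval₂_mul, eval₂_pow, eval₂_X, eval₂_C, eval₂_C]
    have h3 : Complex.ofRealHom (2 * s * Real.cos (θ i0)) = (x : ℂ) := rfl
    have h4 : Complex.ofRealHom ((q : ℝ)) = (q : ℂ) := by simp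
    rw [h3, h4, ← hαeq]
    ring
  have hPQmon : ((PP q g h).map (algebraMap ℤ ℚ)).Monic := hPmon.map _
  have hintα : IsIntegral ℚ α := ⟨_, hPQmon, hPα⟩
  have hge := degree_ge hαim hintα hαeq hintx hmindeg
  have hPQ : (PP q g h).map (algebraMap ℤ ℚ) = minpoly ℚ α := by
    apply eq_of_monic_of_dvd_of_natDegree_le (minpoly.monic hintα) hPQmon
      (minpoly.dvd ℚ α hPα)
    rw [natDegree_map_eq_of_injective (algebraMap ℤ ℚ).injective_int, hPdeg]
    exact hge
  rw [hPmon.irreducible_iff_irreducible_map_fraction_map (K := ℚ), hPQ]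
  exact minpoly.irreducible hintα

end Pool.Agent.VIR
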