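import Pool.Agent.VIR.St

/-!
Module LOW: monic polynomials which are small relative to the amplitude.
-/

set_option autoImplicit false

namespace Pool.Agent.VIR

open Polynomial Finset

namespace LOW

theorem norm_AC (R : ℕ) (n : ℕ → ℕ) (T : ℂ) :
    ‖AC R n T‖ = ∏ r ∈ Icc 1 R, ‖1 - T ^ r‖ ^ n r := by
  unfold AC
  rw [norm_prod]
  simp only [norm_pow]

theorem factor {a b : ℝ} {g j : ℕ} (ha : 1 ≤ a) (ha2 : a ≤ 2) (hb : 0 ≤ b) (hjg : j ≤ g) :
    a ^ (⌊b * g⌋₊ - ⌊b * j⌋₊) ≤ 2 * Real.exp (((g : ℝ) - j) * (b * Real.log a)) := by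
  have h1 : ⌊b * (j : ℝ)⌋₊ ≤ ⌊b * (g : ℝ)⌋₊ := by
    apply Nat.floor_le_floor
    have : (j : ℝ) ≤ g := by exact_mod_cast hjg
    gcongr
  have h2 : ((⌊b * (g : ℝ)⌋₊ - ⌊b * (j : ℝ)⌋₊ : ℕ) : ℝ) ≤ b * ((g : ℝ) - j) + 1 := by
    rw [Nat.cast_sub h1]
    have h3 : (⌊b * (g : ℝ)⌋₊ : ℝ) ≤ b * g := Nat.floor_le (by positivity)
    have h4 : b * (j : ℝ) < ⌊b * (j : ℝ)⌋₊ + 1 := Nat.lt_floor_add_one _
    linarith
  have hlog : 0 ≤ Real.log a := Real.log_nonneg ha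
  have ha0 : 0 < a := by linarith
  calc a ^ (⌊b * (g : ℝ)⌋₊ - ⌊b * (j : ℝ)⌋₊)
      = Real.exp (((⌊b * (g : ℝ)⌋₊ - ⌊b * (j : ℝ)⌋₊ : ℕ) : ℝ) * Real.log a) := by
        rw [← Real.rpow_natCast, Real.rpow_def_of_pos ha0, mul_comm (Real.log a)]
    _ ≤ Real.exp ((b * ((g : ℝ) - j) + 1) * Real.log a) := by
        apply Real.exp_le_exp.2
        gcongr
    _ = a * Real.exp (((g : ℝ) - j) * (b * Real.log a)) := by
        have h5 : (b * ((g : ℝ) - j) + 1) * Real.log a =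
            Real.log a + ((g : ℝ) - j) * (b * Real.log a) := by ring
        rw [h5, Real.exp_add, Real.exp_log ha0]
    _ ≤ 2 * Real.exp (((g : ℝ) - j) * (b * Real.log a)) := by
        gcongr

theorem quot (R : ℕ) (β : ℕ → ℝ) (hβ : ∀ r, 0 ≤ β r) {g j : ℕ} (hjg : j ≤ g) {x : ℝ}
    (hx1 : x ≤ 1) {T : ℂ} (hT : ‖T‖ = x) :
    ‖AC R (nn β g) T‖ ≤ 2 ^ R *
      Real.exp (((g : ℝ) - j) * ∑ r ∈ Icc 1 R, β r * Real.log (1 + x ^ r)) *
        ‖AC R (nn β j) T‖ := by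
  have hx0 : 0 ≤ x := hT ▸ norm_nonneg T
  rw [norm_AC, norm_AC]
  have h2 : (2 : ℝ) ^ R * Real.exp (((g : ℝ) - j) * ∑ r ∈ Icc 1 R, β r * Real.log (1 + x ^ r)) =
      ∏ r ∈ Icc 1 R, (2 * Real.exp (((g : ℝ) - j) * (β r * Real.log (1 + x ^ r)))) := by
    rw [Finset.prod_mul_distrib, Finset.prod_const, Nat.card_Icc, Nat.add_sub_cancel,
      ← Real.exp_sum, Finset.mul_sum]
  rw [h2, ← Finset.prod_mul_distrib]
  apply Finset.prod_le_prod
  · intro r _
    positivity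
  intro r _
  have h3 : ‖1 - T ^ r‖ ≤ 1 + x ^ r := by
    calc ‖1 - T ^ r‖ ≤ ‖(1 : ℂ)‖ + ‖T ^ r‖ := norm_sub_le _ _
      _ = 1 + x ^ r := by rw [norm_one, norm_pow, hT]
  have h4 : x ^ r ≤ 1 := pow_le_one₀ hx0 hx1
  have h5 : 0 ≤ x ^ r := by positivity
  have h1 : nn β j r ≤ nn β g r := by
    apply Nat.floor_le_floor
    have : (j : ℝ) ≤ g := by exact_mod_cast hjg
    have := hβ r
    gcongr
  calc ‖1 - T ^ r‖ ^ nn β g r
      = ‖1 - T ^ r‖ ^ (nn β g r - nn β j r) * ‖1 - T ^ r‖ ^ nn β j r := by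
        rw [← pow_add, Nat.sub_add_cancel h1]
    _ ≤ (1 + x ^ r) ^ (nn β g r - nn β j r) * ‖1 - T ^ r‖ ^ nn β j r := by
        gcongr
    _ ≤ 2 * Real.exp (((g : ℝ) - j) * (β r * Real.log (1 + x ^ r))) *
          ‖1 - T ^ r‖ ^ nn β j r := by
        have := factor (a := 1 + x ^ r) (b := β r) (g := g) (j := j) (by linarith) (by linarith)
          (hβ r) hjg
        unfold nn
        gcongr

theorem AC_zero (R : ℕ) (β : ℕ → ℝ) (T : ℂ) : AC R (nn β 0) T = 1 := by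
  unfold AC nn
  simp

theorem An_coeff_zero (R : ℕ) (n : ℕ → ℕ) : (An R n).coeff 0 = 1 := by
  rw [coeff_zero_eq_eval_zero, An, eval_prod]
  apply Finset.prod_eq_one
  intro r hr
  have h1 : r ≠ 0 := by
    have := (Finset.mem_Icc.1 hr).1
    omega
  simp [h1]

end LOW

open LOW in
theorem t_LOW (hAPX : S_APX) (hH0 : S_H0) (hCPO : S_CPO) (hDIK : S_DIK) : S_LOW := by
  intro q R β hq hβ hTh
  obtain ⟨c, hc, hcp⟩ := hCPO q R β hq hβ hTh
  obtain ⟨g₁, hg₁, hA⟩ := hAPX q R β 0 hq hβ hTh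
  have hs1 : 1 < √(q : ℝ) := one_lt_sqrt hq
  have hs0 : 0 < √(q : ℝ) := by linarith
  set s : ℝ := √(q : ℝ) with hs
  have hx0 : 0 < s⁻¹ := by positivity
  have hx1 : s⁻¹ ≤ 1 := inv_le_one_of_one_le₀ hs1.le
  set Λ : ℝ := ∑ r ∈ Icc 1 R, β r * Real.log (1 + s⁻¹ ^ r) with hΛ
  -- the exponential bound
  have hexp : ∀ a b : ℕ, b ≤ a → Real.exp (((a : ℝ) - b) * Λ) * s ^ b ≤
      s ^ a * Real.exp (-c * ((a : ℝ) - b)) := by
    intro a b hab
    have h0 : (0 : ℝ) ≤ (a : ℝ) - b := by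
      have : (b : ℝ) ≤ a := by exact_mod_cast hab
      linarith
    have h1 : Real.exp (((a : ℝ) - b) * Λ) ≤ Real.exp (((a : ℝ) - b) * (Real.log s - c)) := by
      apply Real.exp_le_exp.2
      apply mul_le_mul_of_nonneg_left _ h0
      linarith
    have h2 : Real.exp (((a : ℝ) - b) * (Real.log s - c)) * s ^ b =
        s ^ a * Real.exp (-c * ((a : ℝ) - b)) := by
      have e1 : ∀ k : ℕ, s ^ k = Real.exp (k * Real.log s) := by
        intro k
        rw [← Real.rpow_natCast, Real.rpow_def_of_pos hs0, mul_comm (Real.log s)]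
      rw [e1 a, e1 b, ← Real.exp_add, ← Real.exp_add]
      congr 1
      ring
    calc _ ≤ Real.exp (((a : ℝ) - b) * (Real.log s - c)) * s ^ b := by gcongr
      _ = _ := h2
  refine ⟨3 * 2 ^ R + 2 ^ R * (2 * s) ^ g₁, c, by positivity, hc, ?_⟩
  intro g j hjg
  have hgj : (0 : ℝ) ≤ (g : ℝ) - j := by
    have : (j : ℝ) ≤ g := by exact_mod_cast hjg.le
    linarith
  by_cases hj : g₁ ≤ j
  · obtain ⟨Rp, hdeg, hdvd, hR⟩ := hA j hj 0 (by simp)
    have hj0 : 0 < j := by omega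
    obtain ⟨h, hev, hlt⟩ := hH0 q j 0 Rp (by omega) hj0 hdeg
    have hc0 : Rp.coeff 0 = 1 := by
      obtain ⟨w, hw⟩ := hdvd
      have h1 : ((An R (nn β j)).map (Int.castRingHom ℝ) * Rp - 1).coeff 0 = 0 := by
        rw [hw, zero_add, pow_one, mul_coeff_zero, coeff_X_zero, zero_mul]
      rw [coeff_sub, mul_coeff_zero, coeff_map, An_coeff_zero, coeff_one_zero, map_one, one_mul] at h1
      linarith
    have hD := hDIK q j
    obtain ⟨-, hmon, hnat, -⟩ := hD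
    have hmon' : ((Dk q j).map (Int.castRingHom ℝ)).Monic := (hmon hj0).map _
    have hnat' : ((Dk q j).map (Int.castRingHom ℝ)).natDegree = j := by
      rw [(hmon hj0).natDegree_map, hnat]
    rw [zero_add, Finset.sum_range_one, hc0, map_one, one_mul, Nat.sub_zero] at hlt
    have hdegD : ((Dk q j).map (Int.castRingHom ℝ)).degree = (j : WithBot ℕ) := by
      rw [degree_eq_natDegree hmon'.ne_zero, hnat']
    have hh : h = (Dk q j).map (Int.castRingHom ℝ) + (h - (Dk q j).map (Int.castRingHom ℝ)) := by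
      ring
    have hlt' : (h - (Dk q j).map (Int.castRingHom ℝ)).degree <
        ((Dk q j).map (Int.castRingHom ℝ)).degree := by rwa [hdegD]
    refine ⟨h, ?_, ?_, ?_⟩
    · rw [hh]
      exact hmon'.add_of_left hlt'
    · rw [hh, natDegree_add_eq_left_of_degree_lt hlt', hnat']
    · intro θ
      have hT : ‖pt q θ‖ = s⁻¹ := norm_pt q θ
      have h1 : |h.eval (2 * s * Real.cos θ)| ≤ 2 * s ^ j * ‖aeval (pt q θ) Rp‖ := by
        rw [hev θ, abs_mul, abs_of_pos (by positivity : (0 : ℝ) < 2 * s ^ j)]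
        have h2 : |(Complex.exp (j * θ * Complex.I) * aeval (pt q θ) Rp).re| ≤
            ‖Complex.exp (j * θ * Complex.I) * aeval (pt q θ) Rp‖ := Complex.abs_re_le_norm _
        have h3 : ‖Complex.exp (j * θ * Complex.I)‖ = 1 := by
          have : ((j : ℂ) * θ * Complex.I) = (((j : ℝ) * θ : ℝ) : ℂ) * Complex.I := by
            push_cast
            ring
          rw [this, Complex.norm_exp_ofReal_mul_I]
        rw [norm_mul, h3, one_mul] at h2
        gcongr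
      have h2 : ‖AC R (nn β j) (pt q θ) * aeval (pt q θ) Rp‖ ≤ 9 / 8 := by
        have h3 := hR (pt q θ) hT
        calc ‖AC R (nn β j) (pt q θ) * aeval (pt q θ) Rp‖
            = ‖(AC R (nn β j) (pt q θ) * aeval (pt q θ) Rp - 1) + 1‖ := by ring_nf
          _ ≤ ‖AC R (nn β j) (pt q θ) * aeval (pt q θ) Rp - 1‖ + ‖(1 : ℂ)‖ := norm_add_le _ _
          _ ≤ 1 / 8 + 1 := by
              rw [norm_one]
              linarith
          _ = 9 / 8 := by norm_num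
      rw [norm_mul] at h2
      have h3 := quot R β hβ hjg.le hx1 hT
      have h4 := hexp g j hjg.le
      calc |h.eval (2 * s * Real.cos θ)| * ‖AC R (nn β g) (pt q θ)‖
          ≤ (2 * s ^ j * ‖aeval (pt q θ) Rp‖) * (2 ^ R * Real.exp (((g : ℝ) - j) * Λ) *
              ‖AC R (nn β j) (pt q θ)‖) := by gcongr
        _ = 2 * 2 ^ R * (‖AC R (nn β j) (pt q θ)‖ * ‖aeval (pt q θ) Rp‖) *
              (Real.exp (((g : ℝ) - j) * Λ) * s ^ j) := by ring
        _ ≤ 2 * 2 ^ R * (9 / 8) * (s ^ g * Real.exp (-c * ((g : ℝ) - j))) := by gcongr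
        _ ≤ (3 * 2 ^ R + 2 ^ R * (2 * s) ^ g₁) * (s ^ g * Real.exp (-c * ((g : ℝ) - j))) := by
            apply mul_le_mul_of_nonneg_right _ (by positivity)
            have : (0 : ℝ) ≤ 2 ^ R * (2 * s) ^ g₁ := by positivity
            have : (0 : ℝ) < 2 ^ R := by positivity
            linarith
        _ = _ := by ring
  · refine ⟨X ^ j, monic_X_pow j, natDegree_X_pow j, ?_⟩
    intro θ
    have hT : ‖pt q θ‖ = s⁻¹ := norm_pt q θ
    have h3 := quot R β hβ (Nat.zero_le g) hx1 hT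
    rw [AC_zero, norm_one, mul_one, Nat.cast_zero, sub_zero] at h3
    have h4 := hexp g 0 (Nat.zero_le g)
    rw [Nat.cast_zero, sub_zero, pow_zero, mul_one] at h4
    have h5 : |(X ^ j : ℝ[X]).eval (2 * s * Real.cos θ)| ≤ (2 * s) ^ g₁ := by
      rw [eval_pow, eval_X, abs_pow]
      have h6 : |2 * s * Real.cos θ| ≤ 2 * s := by
        rw [abs_mul, abs_of_pos (by positivity : (0 : ℝ) < 2 * s)]
        have := Real.abs_cos_le_one θ
        nlinarith
      calc |2 * s * Real.cos θ| ^ j ≤ (2 * s) ^ j := by gcongr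
        _ ≤ (2 * s) ^ g₁ := pow_le_pow_right₀ (by linarith) (by omega)
    have h6 : Real.exp (-c * (g : ℝ)) ≤ Real.exp (-c * ((g : ℝ) - j)) := by
      apply Real.exp_le_exp.2
      have : 0 ≤ c * (j : ℝ) := by positivity
      linarith
    calc |(X ^ j : ℝ[X]).eval (2 * s * Real.cos θ)| * ‖AC R (nn β g) (pt q θ)‖
        ≤ (2 * s) ^ g₁ * (2 ^ R * Real.exp ((g : ℝ) * Λ)) := by gcongr
      _ ≤ (2 * s) ^ g₁ * (2 ^ R * (s ^ g * Real.exp (-c * (g : ℝ)))) := by gcongr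
      _ ≤ (2 * s) ^ g₁ * (2 ^ R * (s ^ g * Real.exp (-c * ((g : ℝ) - j)))) := by gcongr
      _ = (2 ^ R * (2 * s) ^ g₁) * (s ^ g * Real.exp (-c * ((g : ℝ) - j))) := by ring
      _ ≤ (3 * 2 ^ R + 2 ^ R * (2 * s) ^ g₁) * (s ^ g * Real.exp (-c * ((g : ℝ) - j))) := by
          apply mul_le_mul_of_nonneg_right _ (by positivity)
          have : (0 : ℝ) < 2 ^ R := by positivity
          linarith
      _ = _ := by ring

end Pool.Agent.VIR
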