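import Pool.Agent.VIR.Defs

/-!
# Virtual curves: the statements of the modules, with proofs in the comments

Throughout `s = √q`, `x = s⁻¹`, `pt q θ = x e^(-iθ)`, `A = An R n`. `aeval` is used for the values of an
integral polynomial at reals and of a real polynomial at complex numbers. The hypotheses of the modules
are given in the specification of each module; everything is elementary.
-/

set_option autoImplicit false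

namespace Pool.Agent.VIR

open Polynomial Finset

/-! ## Dickson polynomials and the two homogenisations -/

/-- DIK. Proof: induction on `k` (two steps) from `2 cos θ cos ((k+1) θ) = cos ((k+2) θ) + cos (k θ)` and `s * s = q`; monic of degree
`k` for `k ≥ 1` as `X * Dk (k+1)` has degree `k + 2` and `q Dk k` degree `≤ k`. The last identity (all `k`):
`LL q k (Dk q k) = 1 + q^k X^(2k)` for `k ≥ 1`: best through the uniqueness of the recursion: with `D' k = LL q k (Dk q k)` and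
`LL` linear in `h` and `LL q (k+1) h = X * LL q k h` for `natDegree h ≤ k`, `LL q (k+1) (X * h) = (1 + q X²) LL q k h`, so
`D' (k+2) = (1 + q X²) D' (k+1) - q X² D' k`; `D' 0 = 2`. -/
def S_DIK : Prop := ∀ q k : ℕ,
  (∀ θ : ℝ, aeval (2 * √(q : ℝ) * Real.cos θ) (Dk q k) = 2 * √(q : ℝ) ^ k * Real.cos (k * θ)) ∧
  (1 ≤ k → (Dk q k).Monic) ∧ (Dk q k).natDegree = k ∧ LL q k (Dk q k) = 1 + C ((q : ℤ) ^ k) * X ^ (2 * k)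

/-- WEI. Proof: `LL q g` is additive in `h` (for all `h`, it uses the coefficients up to `g`) and
`LL q g h = X^(g - k) * LL q k h` if `natDegree h ≤ k ≤ g`. So the terms with `Dk q (g - a)` give
`ℓ a * X^a (1 + q^(g-a) X^(2(g-a)))` by `DIK`, and `a + 2 (g - a) ≥ K + 1` as `a ≤ K < g`; `low` gives a multiple of
`X^(g - (g - K - 1)) = X^(K+1)`. -/
def S_WEI : Prop := ∀ (q g K : ℕ) (ℓ : ℕ → ℤ) (low : ℤ[X]), K < g → low.degree < ((g - K : ℕ) : WithBot ℕ) →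
  (X : ℤ[X]) ^ (K + 1) ∣ LL q g (HH q g K ℓ low) - tr K ℓ

/-- HOM. Proof: induction on `g` (`Fin.prod_univ_succ` or a `Finset`/`List` version): for `f = (X - y) f'` with `natDegree f' ≤ g`,
`∑_{k ≤ g+1} f_k a^(g+1-k) b^k = (b - y a) ∑_{k ≤ g} f'_k a^(g-k) b^k`. -/
def S_HOM : Prop := ∀ (g : ℕ) (y : Fin g → ℝ) (a b : ℝ[X]),
  ∑ k ∈ range (g + 1), C ((∏ i, (X - C (y i))).coeff k) * a ^ (g - k) * b ^ k = ∏ i, (b - C (y i) * a)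

/-- ORD. Proof: the coefficient of `X^g` in `X^(g-k) (X² + q)^k` is the coefficient of `X^k` in `(X² + q)^k`; modulo `q` it is
that of `X^(2k)`, which is `0` for `k ≥ 1` and `1` for `k = 0`. -/
def S_ORD : Prop := ∀ (q g : ℕ) (h : ℤ[X]), (q : ℤ) ∣ (PP q g h).coeff g - h.coeff 0

/-! ## Real polynomials from approximants -/

/-- H0. Proof: for `a ≤ natDegree Rp` the function `2 s^g Re (e^(igθ) r_a (pt q θ)^a) = 2 r_a s^(g-a) cos ((g - a) θ)` (exponent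
`g - a` an integer, possibly negative) is `r_a Dk (g-a)` at `2 s cos θ` for `a ≤ g` (`DIK`) and `r_a q^(g-a) Dk (a-g)`
(`q^(g-a)` real) for `a > g`. `h` is the sum of these; the terms with `K < a ≤ g` have degree `g - a < g - K`, those with
`a > g` have degree `a - g ≤ natDegree Rp - g < g - K`. -/
def S_H0 : Prop := ∀ (q g K : ℕ) (Rp : ℝ[X]), 1 ≤ q → K < g → Rp.natDegree + K < 2 * g →
  ∃ h : ℝ[X], (∀ θ : ℝ, h.eval (2 * √(q : ℝ) * Real.cos θ) =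
      2 * √(q : ℝ) ^ g * (Complex.exp (g * θ * Complex.I) * aeval (pt q θ) Rp).re) ∧
    (h - ∑ a ∈ range (K + 1), C (Rp.coeff a) * (Dk q (g - a)).map (Int.castRingHom ℝ)).degree <
      ((g - K : ℕ) : WithBot ℕ)

/-- ROO. Proof: for `‖T‖ < 1`, `1 - T^r` has positive real part, so `Complex.arg (1 - T^r)` is continuous, and
`AC R n T = ‖AC R n T‖ e^(i ∑ n_r arg (1 - T^r))`. Let `ψ θ = g θ - ∑ n_r arg (1 - (pt q θ)^r)` on `[0, π]`: continuous,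
`ψ 0 = 0`, `ψ π = g π` (`pt q 0`, `pt q π` are real, `1 - (pt)^r > 0`). IVT on `[θ_k, π]`: points `0 = θ_0 < θ_1 < … < θ_g ≤ π` with
`ψ θ_k = k π`. There `(exp(igθ) / AC).re = (-1)^k / ‖AC‖`, so `h(2 s cos θ_k)` has the sign `(-1)^k` by the hypothesis; IVT gives
`θ'_k` in `(θ_k, θ_{k+1})` with `h(2 s cos θ'_k) = 0`; the `g` numbers `2 s cos θ'_k` are distinct roots of `h` (`cos` injective on
`[0, π]`, `s > 0`), `h` is monic of degree `g`. -/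
def S_ROO : Prop := ∀ (q g R : ℕ) (n : ℕ → ℕ) (h : ℝ[X]), 2 ≤ q → h.Monic → h.natDegree = g →
  (∀ θ : ℝ, |h.eval (2 * √(q : ℝ) * Real.cos θ) -
      2 * √(q : ℝ) ^ g * (Complex.exp (g * θ * Complex.I) / AC R n (pt q θ)).re| <
    2 * √(q : ℝ) ^ g / ‖AC R n (pt q θ)‖) →
  ∃ θ : Fin g → ℝ, h = ∏ i, (X - C (2 * √(q : ℝ) * Real.cos (θ i)))

/-- RND: triangular rounding. Proof: induction on `n`. Let `c` be the coefficient of `X^(n-1)` of `f`, `δ (n-1) = c - round c`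
(`abs_sub_round`), `f' = f - δ p_(n-1) - (round c) X^(n-1)` has degree `< n - 1`. -/
def S_RND : Prop := ∀ (n : ℕ) (p : ℕ → ℝ[X]) (f : ℝ[X]), (∀ j < n, (p j).Monic ∧ (p j).natDegree = j) →
  f.degree < (n : WithBot ℕ) →
  ∃ (δ : ℕ → ℝ) (z : ℤ[X]), (∀ j, |δ j| ≤ 1 / 2) ∧ z.degree < (n : WithBot ℕ) ∧
    f - ∑ j ∈ range n, C (δ j) * p j = z.map (Int.castRingHom ℝ)

/-! ## Approximants -/

/-- EXP. Proof: `exp u = ET I u + rest`, `‖rest‖ ≤ ‖u‖^(I+1) / (I+1)! * exp ‖u‖` (`Complex.norm_exp_sub_sum_le_norm_mul_exp`, or the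
series), so the left side of (1) is at most `‖u‖^(I+1) / (I+1)! * exp (2 ‖u‖)`. With `(I+1)! ≥ ((I+1) / e)^(I+1)` and `8 ‖u‖ ≤ I`
this is at most `(e / 8 * e^(1/4))^(I+1) ≤ (1/2)^(I+1)` (`e < 2.7183`, `e^(1/4) < 1.29`). (2): the same bound, `‖u‖ ≤ 1`. -/
def S_EXP : Prop :=
  (∀ (u : ℂ) (I : ℕ), 8 * ‖u‖ ≤ I → ‖ET I u * Complex.exp (-u) - 1‖ ≤ (1 / 2) ^ I) ∧
  (∀ I : ℕ, ∃ D : ℝ, 0 ≤ D ∧ ∀ u : ℂ, ‖u‖ ≤ 1 → ‖ET I u * Complex.exp (-u) - 1‖ ≤ D * ‖u‖ ^ (I + 1))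

/-- DVD. Proof: induction on `k`: `f(0) = 0` by continuity, `f = X f'`, `|f' t| ≤ D t^(k-1)`. -/
def S_DVD : Prop := ∀ (f : ℝ[X]) (k : ℕ) (D ε : ℝ), 0 < ε → (∀ t : ℝ, 0 < t → t < ε → |f.eval t| ≤ D * t ^ k) →
  (X : ℝ[X]) ^ k ∣ f

/-- COR. Proof: `E = ∑_{j=1}^d z_j X^j`, `Corr = ∑_{i ≤ N} C (1 / i!) E^i`, so `Corr (T) = ET N (E (T))`, degree `≤ N d`. For
`‖T‖ ≤ ρ`: `Q (T) Corr (T) = (ET N (E T) exp (-(E T))) * exp (-(∑'_{j > d} z_j T^j))`, `‖E T‖ ≤ ∑_{j=1}^d |z_j| ρ^j`, first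
factor `1 + ε`, `‖ε‖ ≤ (1/2)^N ≤ 1/20` (`EXP` (1)), second factor `1 + ε'`, `‖ε'‖ ≤ exp (1/20) - 1 ≤ 0.052`. The divisibility:
for real `t ↓ 0`: `‖E t‖ ≤ D t`, `‖ET N (E t) exp (-E t) - 1‖ ≤ D' t^(N+1)` (`EXP` (2)), the tail is at most
`t^(d+1) * const`, `K ≤ d`, `K ≤ N`; then `DVD` for `Q * Corr - 1` with `k = K + 1`. -/
def S_COR : Prop := ∀ (ρ : ℝ) (Q : ℝ[X]) (z : ℕ → ℝ) (d N K : ℕ), 0 < ρ → z 0 = 0 →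
  Summable (fun j => |z j| * ρ ^ j) → K ≤ d → K ≤ N → 8 * ∑ j ∈ Icc 1 d, |z j| * ρ ^ j ≤ N →
  ∑' j, |z (j + d + 1)| * ρ ^ (j + d + 1) ≤ 1 / 20 → (1 / 2 : ℝ) ^ N ≤ 1 / 20 →
  (∀ T : ℂ, ‖T‖ ≤ ρ → aeval T Q * Complex.exp (∑' j, (z j : ℂ) * T ^ j) = 1) →
  ∃ Co : ℝ[X], Co.natDegree ≤ N * d ∧ (X : ℝ[X]) ^ (K + 1) ∣ Q * Co - 1 ∧
    ∀ T : ℂ, ‖T‖ ≤ ρ → ‖aeval T (Q * Co) - 1‖ ≤ 1 / 8

/-- LGA. Proof: `-log (1 - T^r) = ∑_{k ≥ 1} T^(rk) / k` (`Complex.hasSum_taylorSeries_neg_log`), so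
`(1 - T^r)^(n r) * exp (∑'_j [r ∣ j] (r n_r / j) T^j) = 1` (terms with `j = 0` are `0` in Lean), sum over `r`. The series are
absolutely convergent for `‖T‖ < 1`: `sg R n j ≤ ∑ r n_r`. -/
def S_LGA : Prop := ∀ (R : ℕ) (n : ℕ → ℕ) (T : ℂ), ‖T‖ < 1 →
  Summable (fun j : ℕ => ‖((sg R n j : ℂ) / j) * T ^ j‖) ∧
  AC R n T * Complex.exp (∑' j : ℕ, ((sg R n j : ℂ) / j) * T ^ j) = 1

/-- LGM. Proof: with `y = T / ρ`, `‖y‖ < 1`: `1 - 2 cos φ y + y² = (1 - e^(iφ) y) (1 - e^(-iφ) y)`,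
`-log (1 - e^(iφ) y) - log (1 - e^(-iφ) y) = ∑_j 2 cos (j φ) y^j / j`. Degree: each factor of the product has degree `≤ 2`. -/
def S_LGM : Prop := ∀ (ρ : ℝ) (M : ℕ) (m : ℕ → ℕ), 0 < ρ →
  (Rm ρ M m).natDegree ≤ m 0 + 2 * ∑ i ∈ Icc 1 M, m i ∧
  ∀ T : ℂ, ‖T‖ < ρ →
    Summable (fun j : ℕ => ‖((mu M m j : ℂ) / j) * (T / ρ) ^ j‖) ∧
    aeval T (Rm ρ M m) * Complex.exp (∑' j : ℕ, ((mu M m j : ℂ) / j) * (T / ρ) ^ j) = 1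

/-- WTS. Proof: `w i = (2 Θ - 2 ∑_{j=1}^d a_j cos (2 π i j / (2d+1))) / (2d+1)`; nonnegative as `cos ≤ 1`. For `1 ≤ j ≤ d` (and
`j = 0` for the total) use `1 + 2 ∑_{i=1}^d cos (2 π i k / (2d+1)) = 0` if `2d+1` does not divide `k`, `= 2d+1` if it does, and
`2 cos x cos y = cos (x+y) + cos (x-y)`; `j' + j < 2d+1`. -/
def S_WTS : Prop := ∀ (d : ℕ) (a : ℕ → ℝ) (Θ : ℝ), (∀ j, 0 ≤ a j) → ∑ j ∈ Icc 1 d, a j ≤ Θ →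
  ∃ w : ℕ → ℝ, (∀ i, 0 ≤ w i) ∧ w 0 + 2 * ∑ i ∈ Icc 1 d, w i = 2 * Θ ∧
    ∀ j ∈ Icc 1 d, w 0 + ∑ i ∈ Icc 1 d, 2 * w i * Real.cos (2 * Real.pi * i * j / (2 * d + 1)) = - a j

/-- APA. Proof: `a_j = sg R n j * ρ^j`; `∑_{j ≤ d} a_j ≤ ∑_{j ≥ 1} sg_j ρ^j = ∑_r r n_r ρ^r / (1 - ρ^r) ≤ Θ`. `WTS` gives `w`, `m i = ⌊w i⌋₊`,
`Q = Rm ρ d m`, `z_j = (sg_j + ρ^(-j) mu_j) / j` (`z_0 = 0`). Degree: `m 0 + 2 ∑ m i ≤ 2 Θ`. `|mu_j| ≤ m 0 + 2 ∑ m i ≤ 2 Θ` and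
`sg_j ≤ ∑ r n_r ≤ S`, `ρ < 1`. For `1 ≤ j ≤ d`: `mu_j` differs from `w 0 + ∑ 2 w_i cos = - sg_j ρ^j` by at most `2 d + 1`. The last
identity is the product of `LGA` and `LGM`. -/
def S_APA : Prop := ∀ (R : ℕ) (n : ℕ → ℕ) (d : ℕ) (ρ Θ : ℝ), 0 < ρ → ρ < 1 →
  ∑ r ∈ Icc 1 R, (r : ℝ) * n r * ρ ^ r / (1 - ρ ^ r) ≤ Θ →
  ∃ (Q : ℝ[X]) (z : ℕ → ℝ), (Q.natDegree : ℝ) ≤ 2 * Θ ∧ z 0 = 0 ∧
    (∀ j, |z j| * ρ ^ j ≤ (∑ r ∈ Icc 1 R, (r : ℝ) * n r) + 2 * Θ) ∧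
    (∀ j ∈ Icc 1 d, |z j| * ρ ^ j ≤ 2 * d + 1) ∧
    ∀ T : ℂ, ‖T‖ < ρ → AC R n T * aeval T Q * Complex.exp (∑' j, (z j : ℂ) * T ^ j) = 1

/-- GRO. Proof: `d = max K ⌈c₁ log g⌉₊` with `c₁ = 2 / log (1/τ)`, `N = ⌈D' (2d+1)⌉₊ + K + 5`; all are `O(log g)`, so `N d + K ≤ ε g` for
large `g`. -/
def S_GRO : Prop := ∀ (c₀ τ D D' ε : ℝ), 0 < τ → τ < 1 → 0 < ε →
  ∃ g₁ : ℕ, 1 ≤ g₁ ∧ ∀ g : ℕ, g₁ ≤ g → ∀ K : ℕ, (K : ℝ) ≤ c₀ * Real.log g + 1 →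
    ∃ d N : ℕ, K ≤ d ∧ K ≤ N ∧ D * g * τ ^ (d + 1) ≤ 1 / 20 ∧ D' * (2 * d + 1) ≤ N ∧
      (1 / 2 : ℝ) ^ N ≤ 1 / 20 ∧ (N : ℝ) * d + K ≤ ε * g

/-- APX: the approximants. Proof: `x = s⁻¹`. The function `ρ ↦ ∑ r β_r ρ^r / (1 - ρ^r)` is continuous on `[x, 1)` and equals
`Th q R β < 1` at `x`: choose `ρ` with `x < ρ < 1` and `Θ₂ = ∑ r β_r ρ^r / (1 - ρ^r) < 1`; `τ = x / ρ`, `S = ∑ r β_r`, `ε = (1 - Θ₂)`. `GRO` with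
`D = (S + 2) / (1 - τ)`, `D' = 8 / (1 - τ)`: `d, N`. `APA` for `n = nn β g`, `Θ = Θ₂ g` gives `Q₁, z` with `natDegree Q₁ ≤ 2 Θ₂ g`,
`|z_j| x^j ≤ (S + 2) g τ^j`, and `≤ (2d+1) τ^j` for `1 ≤ j ≤ d`. `COR` with `ρ := x`, `Q := (An R n).map * Q₁`: `Rp = Q₁ * Co`,
degree `≤ 2 Θ₂ g + N d`, and `2 Θ₂ g + N d + K ≤ 2 Θ₂ g + (1 - Θ₂) g < 2 g`. -/
def S_APX : Prop := ∀ (q R : ℕ) (β : ℕ → ℝ) (c₀ : ℝ), 2 ≤ q → (∀ r, 0 ≤ β r) → Th q R β < 1 →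
  ∃ g₁ : ℕ, 1 ≤ g₁ ∧ ∀ g : ℕ, g₁ ≤ g → ∀ K : ℕ, (K : ℝ) ≤ c₀ * Real.log g + 1 →
    ∃ Rp : ℝ[X], Rp.natDegree + K < 2 * g ∧
      (X : ℝ[X]) ^ (K + 1) ∣ (An R (nn β g)).map (Int.castRingHom ℝ) * Rp - 1 ∧
      ∀ T : ℂ, ‖T‖ = (√(q : ℝ))⁻¹ → ‖AC R (nn β g) T * aeval T Rp - 1‖ ≤ 1 / 8

/-- CPO. Proof: for `y > 1`: `log (1 + 1/y) ≤ 1/y` and `1 - 1/y ≤ log y`, so `(y - 1) log (1 + 1/y) ≤ log y`. With `y = s^r`: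
`β_r log (1 + s^(-r)) ≤ (r β_r / (s^r - 1)) log s`. So `∑ ≤ Th * log s`; `c = (1 - Th) log s`. -/
def S_CPO : Prop := ∀ (q R : ℕ) (β : ℕ → ℝ), 2 ≤ q → (∀ r, 0 ≤ β r) → Th q R β < 1 →
  ∃ c : ℝ, 0 < c ∧ ∑ r ∈ Icc 1 R, β r * Real.log (1 + (√(q : ℝ))⁻¹ ^ r) + c ≤ Real.log (√(q : ℝ))

/-- LOW: monic polynomials which are small relative to the amplitude. Proof: `CPO`: `c`. Let `g₁` be that of `APX` (`c₀ = 0`).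
If `j ≥ g₁`: `APX` for `j`, `K = 0`: `Rp` with constant term `1`, `H0` (`K = 0`, `g = j`): `p = h` is monic of degree `j` (`h - Dk q j` has
degree `< j`) and `|p(2 s cos θ)| ≤ 2 s^j ‖Rp(pt)‖ ≤ (9/4) s^j / ‖AC R (nn β j) (pt)‖`;
`‖AC R (nn β g)‖ / ‖AC R (nn β j)‖ = ∏ ‖1 - pt^r‖^(n_r(g) - n_r(j)) ≤ ∏ (1 + x^r)^(β_r (g - j) + 1) ≤ 2^R exp ((g - j) ∑ β_r log (1 + x^r))`.
If `j < g₁`: `p = X^j`, `|p| ≤ (2 s)^(g₁)`, `‖AC R (nn β g)‖ ≤ exp (g ∑ β_r log (1 + x^r)) ≤ s^g exp (-c g)`. `C = 3 * 2^R + (2 s)^(g₁)`. -/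
def S_LOW : Prop := ∀ (q R : ℕ) (β : ℕ → ℝ), 2 ≤ q → (∀ r, 0 ≤ β r) → Th q R β < 1 →
  ∃ D c : ℝ, 0 < D ∧ 0 < c ∧ ∀ g j : ℕ, j < g → ∃ p : ℝ[X], p.Monic ∧ p.natDegree = j ∧
    ∀ θ : ℝ, |p.eval (2 * √(q : ℝ) * Real.cos θ)| * ‖AC R (nn β g) (pt q θ)‖ ≤
      D * √(q : ℝ) ^ g * Real.exp (-c * ((g : ℝ) - j))

/-- INV. Proof: `An R n` has constant coefficient `1`; take the coefficients of `(An R n)⁻¹` in `ℤ⟦X⟧`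
(`PowerSeries.invOfUnit`), or a recursion. -/
def S_INV : Prop := ∀ (R : ℕ) (n : ℕ → ℕ), ∃ ℓ : ℕ → ℤ, ∀ K : ℕ, (X : ℤ[X]) ^ (K + 1) ∣ An R n * tr K ℓ - 1

/-- MAI: the main construction. Proof: `D, c` of `LOW`, `K = ⌈c₃ log g⌉₊` with `c₃ > 1/c + 2 / log s` large, `APX` with `c₀ = c₃`: `Rp`, `H0`: `h₀`
with `|h₀(2 s cos θ) - 2 s^g Re (e^(igθ) / AC)| ≤ 2 s^g (1/8) / ‖AC‖`; `Rp.coeff a = ℓ a` for `a ≤ K` (both are inverses of `An` modulo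
`X^(K+1)`), `f = h₀ - ∑_{a ≤ K} ℓ a Dk q (g - a)` has degree `< g - K`. `RND` with `n = g - K` and the `p j` of `LOW`: `z`, and the error
`∑_{j < g-K} δ_j p_j` satisfies `|error| * ‖AC‖ ≤ (1/2) ∑_j D s^g e^(-c (g-j)) ≤ D s^g e^(-c K) / (2 (1 - e^(-c))) ≤ s^g / 8`. `low = z + C t` with
`0 ≤ t < q` such that `q` divides the constant coefficient minus `1`; `|t| ≤ q ≤ s^g / (4 ‖AC‖)` for large `g` by `LOW` for `j = 0`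
(`p = 1`). Total error at most `(1/4 + 1/8 + 1/4) s^g / ‖AC‖`. `R ≤ K`, `20 g ≤ s^K`, `K < g` for large `g`. -/
def S_MAI : Prop := ∀ (q R : ℕ) (β : ℕ → ℝ), 2 ≤ q → (∀ r, 0 ≤ β r) → Th q R β < 1 →
  ∃ g₁ : ℕ, 1 ≤ g₁ ∧ ∀ g : ℕ, g₁ ≤ g → ∃ (K : ℕ) (ℓ : ℕ → ℤ) (low : ℤ[X]), R ≤ K ∧ K < g ∧
    20 * (g : ℝ) ≤ √(q : ℝ) ^ K ∧ low.degree < ((g - K : ℕ) : WithBot ℕ) ∧
    (X : ℤ[X]) ^ (K + 1) ∣ An R (nn β g) * tr K ℓ - 1 ∧ (q : ℤ) ∣ (HH q g K ℓ low).coeff 0 - 1 ∧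
    ∀ θ : ℝ, |aeval (2 * √(q : ℝ) * Real.cos θ) (HH q g K ℓ low) -
        2 * √(q : ℝ) ^ g * (Complex.exp (g * θ * Complex.I) / AC R (nn β g) (pt q θ)).re| ≤
      √(q : ℝ) ^ g / ‖AC R (nn β g) (pt q θ)‖

/-! ## Counting -/

/-- NWT. Proof: each factor `F = 1 - 2 s cos φ X + q X²` satisfies `X F' = - F * ∑_{m ≥ 1} 2 s^m cos (m φ) X^m` in `ℝ⟦X⟧`
(`2 cos φ cos (m φ) = cos ((m+1) φ) + cos ((m-1) φ)`); products: `X (F G)' = - F G (p_F + p_G)`; read off the coefficient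
of `X^m`. -/
def S_NWT : Prop := ∀ (q g : ℕ) (θ : Fin g → ℝ),
  NW (fun m => (∏ i, (1 - C (2 * √(q : ℝ) * Real.cos (θ i)) * X + C (q : ℝ) * X ^ 2) : ℝ[X]).coeff m)
    (fun m => ∑ i, 2 * √(q : ℝ) ^ m * Real.cos (m * θ i))

/-- NWA. Proof: `F = 1 - X^r` (`r ≥ 1`): `X F' = - F * ∑_{k ≥ 1} r X^(rk)`; products and powers as in `NWT`. -/
def S_NWA : Prop := ∀ (R : ℕ) (n : ℕ → ℕ), NW (fun m => ((An R n).coeff m : ℝ)) (fun m => (sg R n m : ℝ))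

/-- NPR. Proof: with the power series `F, G, p, q` (constant terms of `p`, `q` removed; `NW F p` does not use `p 0`)
`X F' = - F p`, `X G' = - G q`, so `X (F G)' = - F G (p + q)`. -/
def S_NPR : Prop := ∀ F G p p' : ℕ → ℝ, NW F p → NW G p' →
  NW (fun m => ∑ i ∈ range (m + 1), F i * G (m - i)) (fun m => p m + p' m)

/-- EUL: Euler exponents of an integral power series. Proof: strong recursion. Suppose `b d` is chosen for `d < m` with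
`G i = ∑_{d ∣ i} d b_d` for `i < m`. In `ℤ⟦X⟧` let `E = F * ∏_{1 ≤ d < m} (1 - X^d)^(b_d)` (units; negative exponents allowed, or
clear denominators). `X E' = E * H` with `H_i = G_i - ∑_{d ∣ i, d < m} d b_d`, so `H_i = 0` for `i < m`, hence `i E_i = 0` for
`1 ≤ i < m` and `m E_m = H_m`; put `b m = E_m`. (Equivalently: `m` divides `∑_{d ∣ m} μ(m/d) G_d`.) -/
def S_EUL : Prop := ∀ F G : ℕ → ℤ, F 0 = 1 → (∀ m : ℕ, 1 ≤ m → m * F m = ∑ i ∈ Icc 1 m, G i * F (m - i)) →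
  ∃ b : ℕ → ℤ, ∀ m : ℕ, 1 ≤ m → G m = ∑ d ∈ m.divisors, (d : ℤ) * b d

/-- NEC: the numbers of irreducible polynomials (necklaces). Proof: `EUL` for `F m = q^m`, `G m = q^m`. Positivity by strong
induction: `m b_m = q^m - ∑_{d ∣ m, d < m} d b_d ≥ q^m - ∑_{1 ≤ d ≤ m/2} q^d > 0` as `d b_d ≤ q^d` (all `b_e > 0`, `e < m`). -/
def S_NEC : Prop := ∀ q : ℕ, 2 ≤ q → ∃ M : ℕ → ℕ, ∀ m : ℕ, 1 ≤ m →
  1 ≤ M m ∧ ∑ d ∈ m.divisors, d * M d = q ^ m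

/-- POS. Proof: strong induction on `m > K`. `m b_m = N_m - ∑_{d ∣ m, d < m} d b_d`, `N_m = q^m + 1 - p_m`; for `d < m`:
`d b_d ≤ N_d ≤ s^(2d) + 1 + 2 g s^d` (all `b_e ≥ 0` for `e < m`), and `d ≤ m/2`: `∑_{1 ≤ d ≤ m/2} s^(2d) ≤ 2 s^m`,
`∑ 1 ≤ m/2 ≤ s^m`, `∑_{1 ≤ d ≤ m/2} 2 g s^d ≤ 7 g s^(m/2) ≤ 7 g s^m / s^(m/2)`; and `s^m ≥ 20 g` gives `s^(2m) ≥ 20 g s^m ≥ 2 g s^m + 3 s^m + 7 g s^m`. -/
def S_POS : Prop := ∀ (q g K : ℕ) (b : ℕ → ℤ) (p : ℕ → ℝ), 2 ≤ q → 1 ≤ g →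
  20 * (g : ℝ) ≤ √(q : ℝ) ^ K → (∀ m, |p m| ≤ 2 * g * √(q : ℝ) ^ m) →
  (∀ m : ℕ, 1 ≤ m → ∑ d ∈ m.divisors, (d : ℝ) * (b d : ℝ) = (q : ℝ) ^ m + 1 - p m) →
  (∀ d : ℕ, 1 ≤ d → d ≤ K → 0 ≤ b d) → ∀ m : ℕ, 1 ≤ m → 0 ≤ b m

/-- CNT: the counting relation. Proof: `p m = ∑_i 2 s^m cos (m θ_i)`, `F = ` coefficients of `L` (integers, `F 0 = 1`), `NWT`: `NW F p`; by
strong induction the `p m` (`m ≥ 1`) are integers; `EUL` with `G = -p`: `b'` with `-p m = ∑_{d ∣ m} d b'_d`. `NEC`: `M`. Put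
`b d = M d + b' d` for `d ≥ 2`, `b 1 = M 1 + 1 + b' 1`: `∑_{d ∣ m} d b_d = q^m + 1 - p m`. From `X^(K+1) ∣ An * L - 1`, `NWA`, `NPR`:
`p m + sg R n m = 0` for `1 ≤ m ≤ K` (induction), so `∑_{d ∣ m} d b'_d = ∑_{d ∣ m, d ≤ R} d n_d` for `m ≤ K` and, by induction,
`b' d = n d` for `d ≤ R` (`R ≤ K`), `b' d = 0` for `R < d ≤ K`. `POS` (`|p m| ≤ 2 g s^m`): `b m ≥ 0` for all `m ≥ 1`. `B d = (b d).toNat`,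
`B r ≥ M r + n r ≥ n r + 1` for `1 ≤ r ≤ R`. -/
def S_CNT : Prop := ∀ (q g R K : ℕ) (n : ℕ → ℕ) (θ : Fin g → ℝ) (L : ℤ[X]), 2 ≤ q → 1 ≤ g → R ≤ K →
  20 * (g : ℝ) ≤ √(q : ℝ) ^ K →
  L.map (Int.castRingHom ℝ) =
    ∏ i, (1 - C (2 * √(q : ℝ) * Real.cos (θ i)) * X + C (q : ℝ) * X ^ 2) →
  (X : ℤ[X]) ^ (K + 1) ∣ An R n * L - 1 →
  ∃ B : ℕ → ℕ, (∀ r ∈ Icc 1 R, n r + 1 ≤ B r) ∧ Count q g θ B

/-! ## The upper bound (Drinfeld, Vladut; Tsfasman, Vladut) for virtual curves -/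

/-- UPP. Proof: `0 ≤ ‖∑_{m=0}^M e^(i m θ)‖² = (M+1) + 2 ∑_{m=1}^M (M + 1 - m) cos (m θ)`. Sum over the `θ_i`, divide by `M + 1`:
`∑_{m=1}^M (1 - m/(M+1)) s^(-m) N_m ≤ g + ∑_{m=1}^M (1 - m/(M+1)) s^(-m) (q^m + 1)`, `N_m = ∑_{d ∣ m} d B_d ≥ ∑_{r ∣ m, r ≤ R} r B_r`; exchange. -/
def S_UPP : Prop := ∀ (q g R M : ℕ) (θ : Fin g → ℝ) (B : ℕ → ℕ), 2 ≤ q → 1 ≤ M → Count q g θ B →
  ∑ r ∈ Icc 1 R, (r : ℝ) * B r * ∑ k ∈ Icc 1 (M / r), (1 - (k : ℝ) * r / (M + 1)) / √(q : ℝ) ^ (k * r) ≤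
    g + ∑ m ∈ Icc 1 M, (√(q : ℝ) ^ m + (√(q : ℝ))⁻¹ ^ m)

/-- UPL. Proof: for fixed `r`, `∑_{k ≤ M/r} (1 - k r / (M+1)) s^(-kr) → 1 / (s^r - 1)` as `M → ∞`. Choose `M` such that for `1 ≤ r ≤ R` the
sum is at least `(1 + ε/2)⁻¹ / (s^r - 1)`; `UPP`; then `g₀` such that the constant is at most `ε/(2 + ε) g`, so that
`(1 + ε/2) (g + const) ≤ (1 + ε) g`. -/
def S_UPL : Prop := ∀ (q R : ℕ) (ε : ℝ), 2 ≤ q → 0 < ε → ∃ g₀ : ℕ, ∀ g : ℕ, g₀ ≤ g →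
  ∀ (θ : Fin g → ℝ) (B : ℕ → ℕ), Count q g θ B →
    ∑ r ∈ Icc 1 R, (r : ℝ) * B r / (√(q : ℝ) ^ r - 1) ≤ (1 + ε) * g

/-! ## The theorem -/

/-- FIN: existence. Proof: `MAI`: `K, ℓ, low`; `h = HH q g K ℓ low` is monic of degree `g` (`ℓ 0 = 1` as `An` has constant coefficient
`1`; `DIK`), `ROO` for its real version: `θ`, `h = ∏ (X - 2 s cos θ_i)`. `P = PP q g h`, `L = LL q g h`, `HOM` with `a = X`, `b = X² + q`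
resp. `b = 1 + q X²`: the products. `WEI`: `L = tr K ℓ` modulo `X^(K+1)`, so `X^(K+1) ∣ An * L - 1`. `CNT`: `B`, with
`B r ≥ ⌊β_r g⌋ + 1 ≥ β_r g`. `ORD`: the middle coefficient. -/
def S_FIN : Prop := ∀ (q R : ℕ) (β : ℕ → ℝ), 2 ≤ q → (∀ r, 0 ≤ β r) → Th q R β < 1 →
  ∃ g₀ : ℕ, ∀ g : ℕ, g₀ ≤ g → ∃ (θ : Fin g → ℝ) (P : ℤ[X]) (B : ℕ → ℕ),
    P.map (Int.castRingHom ℝ) =
      ∏ i, (X ^ 2 - C (2 * √(q : ℝ) * Real.cos (θ i)) * X + C (q : ℝ)) ∧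
    Count q g θ B ∧ (q : ℤ) ∣ P.coeff g - 1 ∧ ∀ r ∈ Icc 1 R, β r * g ≤ B r

end Pool.Agent.VIR
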