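import Pool.Agent.VIR.St

/-!
# Virtual curves: the second set of statements (irreducible Frobenius polynomials, exact limits)

Notation as in `St.lean`: `s = √q`, `x = s⁻¹`.
-/

set_option autoImplicit false

namespace Pool.Agent.VIR

open Polynomial Finset

/-- `P`, `θ`, `B` form a virtual curve of genus `g` with an irreducible and ordinary Frobenius polynomial -/
def VC (q g : ℕ) (θ : Fin g → ℝ) (P : ℤ[X]) (B : ℕ → ℕ) : Prop :=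
  P.map (Int.castRingHom ℝ) =
      ∏ i, (X ^ 2 - C (2 * √(q : ℝ) * Real.cos (θ i)) * X + C (q : ℝ)) ∧
    Count q g θ B ∧ Irreducible P ∧ (q : ℤ) ∣ P.coeff g - 1

/-- APG: the approximants, for all exponents `n r ≤ β r * g`. Proof: that of `APX`, which uses only `nn β g r ≤ β r * g`. -/
def S_APG : Prop := ∀ (q R : ℕ) (β : ℕ → ℝ) (c₀ : ℝ), 2 ≤ q → (∀ r, 0 ≤ β r) → Th q R β < 1 →
  ∃ g₁ : ℕ, 1 ≤ g₁ ∧ ∀ g : ℕ, g₁ ≤ g → ∀ n : ℕ → ℕ, (∀ r ∈ Icc 1 R, (n r : ℝ) ≤ β r * g) →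
    ∀ K : ℕ, (K : ℝ) ≤ c₀ * Real.log g + 1 →
    ∃ Rp : ℝ[X], Rp.natDegree + K < 2 * g ∧
      (X : ℝ[X]) ^ (K + 1) ∣ (An R n).map (Int.castRingHom ℝ) * Rp - 1 ∧
      ∀ T : ℂ, ‖T‖ = (√(q : ℝ))⁻¹ → ‖AC R n T * aeval T Rp - 1‖ ≤ 1 / 8

/-- LOG: small monic polynomials, for all exponents `n r ≤ β r * g`. Proof: that of `LOW`, with `APG` for `j` and the
exponents `m r = min (n r) ⌊β r * j⌋₊` (`r ≤ R`); `n r - m r ≤ β r * (g - j) + 1`. For small `j`: `p = X^j`,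
`‖AC R n‖ ≤ ∏ (1 + x^r)^(n r) ≤ exp (g ∑ β_r log (1 + x^r)) ≤ s^g exp (- c g)`. -/
def S_LOG : Prop := ∀ (q R : ℕ) (β : ℕ → ℝ), 2 ≤ q → (∀ r, 0 ≤ β r) → Th q R β < 1 →
  ∃ D c : ℝ, 0 < D ∧ 0 < c ∧ ∀ (g : ℕ) (n : ℕ → ℕ), (∀ r ∈ Icc 1 R, (n r : ℝ) ≤ β r * g) →
    ∀ j : ℕ, j < g → ∃ p : ℝ[X], p.Monic ∧ p.natDegree = j ∧
    ∀ θ : ℝ, |p.eval (2 * √(q : ℝ) * Real.cos θ)| * ‖AC R n (pt q θ)‖ ≤
      D * √(q : ℝ) ^ g * Real.exp (-c * ((g : ℝ) - j))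

/-- SEL: exponents in residue classes. Proof: `R' = max R 2`, `β'_r = β_r + δ` for `r ≤ R` and `β'_r = δ` for `r > R`, with `δ > 0` such that
`Th q R' β' = Th q R β + δ ∑_{r ≤ R'} r / (s^r - 1) < 1`. Let `b_r = β_r` for `r ≤ R`, `0` for `r > R`. `n r = N ⌈b_r g / N⌉₊` for
`r ≠ 2`, `n 2 = N ⌈(b_2 g + g) / N⌉₊ - g`; so `b_r g ≤ n r ≤ b_r g + N` and `N ≤ δ g` for large `g`. -/
def S_SEL : Prop := ∀ (q R : ℕ) (β : ℕ → ℝ), 2 ≤ q → (∀ r, 0 ≤ β r) → Th q R β < 1 →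
  ∃ (R' : ℕ) (β' : ℕ → ℝ), R ≤ R' ∧ 2 ≤ R' ∧ (∀ r, 0 ≤ β' r) ∧ Th q R' β' < 1 ∧
    ∀ c₀ : ℝ, ∃ g₁ : ℕ, ∀ g : ℕ, g₁ ≤ g → ∀ N : ℕ, 1 ≤ N → (N : ℝ) ≤ c₀ * (Real.log g + 1) →
      ∃ n : ℕ → ℕ, (∀ r ∈ Icc 1 R', (n r : ℝ) ≤ β' r * g) ∧ (∀ r ∈ Icc 1 R, β r * g ≤ n r) ∧
        N ∣ n 2 + g ∧ ∀ r ∈ Icc 1 R', r ≠ 2 → N ∣ n r

/-- CNG. Proof: in `(ZMod l)[X]` with `N = l^k`: `1 + q X² = 1 - X²`, and
`An R n * (1 - X²)^g = ∏_r (1 - X^r)^(N m_r) = ∏_r (1 - X^(r N))^(m_r)` (`n r = N m_r` for `r ≠ 2`, `n 2 + g = N m_2`) is `1` modulo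
`X^N`, `N ≥ K + 1`. So `tr K ℓ = (1 - X²)^g` modulo `X^(K+1)`. -/
def S_CNG : Prop := ∀ (q g R K l k : ℕ) (n : ℕ → ℕ) (ℓ : ℕ → ℤ), l.Prime → l ∣ q + 1 → 2 ≤ R → K < l ^ k →
  l ^ k ∣ n 2 + g → (∀ r ∈ Icc 1 R, r ≠ 2 → l ^ k ∣ n r) → (X : ℤ[X]) ^ (K + 1) ∣ An R n * tr K ℓ - 1 →
  ∀ a ≤ K, (l : ℤ) ∣ (tr K ℓ - (1 + C (q : ℤ) * X ^ 2) ^ g).coeff a

/-- EIS. Proof: `F = X^g - HH q g K ℓ 0`. `LL q g (X^g) = (1 + q X²)^g` and `LL q g (HH q g K ℓ 0) = tr K ℓ` modulo `X^(K+1)` (`WEI`), so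
the coefficients of `LL q g F` up to `K` are divisible by `l`. If `m` is the largest index with `l ∤ F.coeff m` (`m ≤ g`), the
coefficient of `X^(g-m)` in `LL q g F` is `F.coeff m` modulo `l` (the terms with `k > m` are `0` modulo `l`, those with `k < m` are
divisible by `X^(g-k)`), so `g - m > K`. `w = ∑_{i < g-K} (F.coeff i) X^i`. -/
def S_EIS : Prop := ∀ (q g K l : ℕ) (ℓ : ℕ → ℤ), l.Prime → K < g →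
  (∀ a ≤ K, (l : ℤ) ∣ (tr K ℓ - (1 + C (q : ℤ) * X ^ 2) ^ g).coeff a) →
  ∃ w : ℤ[X], w.degree < ((g - K : ℕ) : WithBot ℕ) ∧ ∀ i, (l : ℤ) ∣ (HH q g K ℓ w - X ^ g).coeff i

/-- MAG: the main construction with an Eisenstein polynomial. Proof: that of `MAI`, with `SEL` (`N = l^k`, `l = (q + 1).minFac`,
`K < l^k ≤ l (K + 1)`), `CNG`, `EIS`, rounding in the residue class of `w` modulo `l` and the constant coefficient modulo `q l²`. -/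
def S_MAG : Prop := ∀ (q R : ℕ) (β : ℕ → ℝ), 2 ≤ q → (∀ r, 0 ≤ β r) → Th q R β < 1 →
  ∃ g₁ : ℕ, 1 ≤ g₁ ∧ ∀ g : ℕ, g₁ ≤ g → ∃ (R' K l : ℕ) (n : ℕ → ℕ) (ℓ : ℕ → ℤ) (low : ℤ[X]),
    R ≤ R' ∧ R' ≤ K ∧ K < g ∧ (∀ r ∈ Icc 1 R, β r * g ≤ n r) ∧
    20 * (g : ℝ) ≤ √(q : ℝ) ^ K ∧ low.degree < ((g - K : ℕ) : WithBot ℕ) ∧
    (X : ℤ[X]) ^ (K + 1) ∣ An R' n * tr K ℓ - 1 ∧ (q : ℤ) ∣ (HH q g K ℓ low).coeff 0 - 1 ∧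
    l.Prime ∧ (∀ i, (l : ℤ) ∣ (HH q g K ℓ low - X ^ g).coeff i) ∧
    ¬ (l : ℤ) ^ 2 ∣ (HH q g K ℓ low).coeff 0 ∧
    ∀ θ : ℝ, |aeval (2 * √(q : ℝ) * Real.cos θ) (HH q g K ℓ low) -
        2 * √(q : ℝ) ^ g * (Complex.exp (g * θ * Complex.I) / AC R' n (pt q θ)).re| ≤
      √(q : ℝ) ^ g / ‖AC R' n (pt q θ)‖

/-- IRP. Proof: `P = PP q g h` is monic of degree `2 g` (`h` monic of degree `g`). `h` is irreducible over `ℚ` (Gauss), so a root `β` of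
`h` has degree `g ≥ 3` over `ℚ`; `β = 2 s cos θ_i` is real and `|β| ≠ 2 s` as `β² ≠ 4 q`. Let `α` be a complex root of
`X² - β X + q`: not real, `α ≠ 0`, `β = α + q / α`. `ℚ(β) ⊆ ℚ(α)`, and `ℚ(β)` is contained in the reals, so `ℚ(α) ≠ ℚ(β)` and the degree of `α` is
`g [ℚ(α) : ℚ(β)] ≥ 2 g`; `P(α) = α^g h(β) = 0`; so `P` is the minimal polynomial of `α`, irreducible over `ℚ`, hence over `ℤ`
(monic). -/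
def S_IRP : Prop := ∀ (q g : ℕ) (h : ℤ[X]) (θ : Fin g → ℝ), 1 ≤ q → 3 ≤ g → Irreducible h →
  h.map (Int.castRingHom ℝ) = ∏ i, (X - C (2 * √(q : ℝ) * Real.cos (θ i))) → Irreducible (PP q g h)

/-- FIG: existence, with irreducible polynomials. Proof: that of `FIN` with `MAG` in place of `MAI`; `h = HH q g K ℓ low` is Eisenstein at `l`
(`Polynomial.irreducible_of_eisenstein_criterion`), so irreducible; `IRP`. -/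
def S_FIG : Prop := ∀ (q R : ℕ) (β : ℕ → ℝ), 2 ≤ q → (∀ r, 0 ≤ β r) → Th q R β < 1 →
  ∃ g₀ : ℕ, ∀ g : ℕ, g₀ ≤ g → ∃ (θ : Fin g → ℝ) (P : ℤ[X]) (B : ℕ → ℕ),
    VC q g θ P B ∧ ∀ r ∈ Icc 1 R, β r * g ≤ B r

/-- STP: two-sided bounds. Proof: `β'_r = (1 - 1/R) β_r` for `r ≤ R`, `β'_(R+1) = (1 - 1/R) (1 - Th q R β) (s^(R+1) - 1) / (R + 1)`; so
`Th q (R+1) β' = 1 - 1/R < 1`. `FIG`: `B r ≥ β'_r g` for `r ≤ R + 1`; `UPL` with `R + 1`, `ε = 1/R`: `∑_{r ≤ R+1} r B_r / (s^r - 1) ≤ (1 + 1/R) g`. So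
`r (B_r - β'_r g) / (s^r - 1) ≤ (2 / R) g` for each `r ≤ R`, all the terms of the difference being nonnegative. -/
def S_STP : Prop := ∀ (q : ℕ) (β : ℕ → ℝ), 2 ≤ q → (∀ r, 0 ≤ β r) → (∀ R, Th q R β ≤ 1) →
  ∀ R : ℕ, 1 ≤ R → ∃ g₀ : ℕ, ∀ g : ℕ, g₀ ≤ g → ∃ (θ : Fin g → ℝ) (P : ℤ[X]) (B : ℕ → ℕ),
    VC q g θ P B ∧ ∀ r ∈ Icc 1 R, |(B r : ℝ) - β r * g| ≤ (β r + 2 * √(q : ℝ) ^ r) / R * g

/-- LIM: the limit theorem. Proof: diagonal argument. `STP` gives `g₀(R)` for `R ≥ 1`; for `g ≥ g₀(1)` let `R(g)` be the largest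
`R ≤ g`, `R ≥ 1`, with `g₀(R) ≤ g` (`Nat.findGreatest`, if some care is taken: use the largest `R ≤ g` with `g₀(R') ≤ g` for all
`1 ≤ R' ≤ R`); `R(g) → ∞`; take the curve of `STP` for `R(g)`. -/
def S_LIM : Prop := ∀ (q : ℕ) (β : ℕ → ℝ), 2 ≤ q → (∀ r, 0 ≤ β r) → (∀ R, Th q R β ≤ 1) →
  ∃ (g₀ : ℕ) (θ : (g : ℕ) → Fin g → ℝ) (P : ℕ → ℤ[X]) (B : ℕ → ℕ → ℕ),
    (∀ g : ℕ, g₀ ≤ g → VC q g (θ g) (P g) (B g)) ∧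
    ∀ r : ℕ, 1 ≤ r → Filter.Tendsto (fun g : ℕ => (B g r : ℝ) / g) Filter.atTop (nhds (β r))

end Pool.Agent.VIR
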